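import Mathlib

set_option autoImplicit false

namespace Pool.Agent.Helper523.UF

open Finset

/-- e(x) = exp(2 pi i x). -/
noncomputable def e (x : ℝ) : ℂ := Complex.exp ((2 * Real.pi * x : ℝ) * Complex.I)

lemma e_norm (x : ℝ) : ‖e x‖ = 1 := by
  unfold e; exact Complex.norm_exp_ofReal_mul_I _

lemma e_zero : e 0 = 1 := by unfold e; simp

lemma e_add (x y : ℝ) : e (x + y) = e x * e y := by
  unfold e
  rw [← Complex.exp_add]
  congr 1
  push_cast
  ring

lemma e_neg (x : ℝ) : e (-x) = (e x)⁻¹ := by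
  apply eq_inv_of_mul_eq_one_left
  rw [← e_add]
  simp [e_zero]

lemma e_int (k : ℤ) : e (k : ℝ) = 1 := by
  unfold e
  rw [Complex.exp_eq_one_iff]
  exact ⟨k, by push_cast; ring⟩

lemma e_nat (k : ℕ) : e (k : ℝ) = 1 := by exact_mod_cast e_int k

lemma e_add_int (x : ℝ) (k : ℤ) : e (x + k) = e x := by rw [e_add, e_int, mul_one]

lemma e_nat_mul (k : ℕ) (x : ℝ) : e (k * x) = e x ^ k := by
  unfold e
  rw [← Complex.exp_nat_mul]
  congr 1
  push_cast
  ring

lemma e_sub_one_norm (x : ℝ) : ‖e x - 1‖ ≤ 2 * Real.pi * |x| := by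
  unfold e
  have h := Real.norm_exp_I_mul_ofReal_sub_one_le (x := 2 * Real.pi * x)
  rw [mul_comm] at h
  rw [Real.norm_eq_abs, abs_mul, abs_of_pos (by positivity : (0 : ℝ) < 2 * Real.pi)] at h
  exact h

lemma e_sub_one_norm_two (x : ℝ) : ‖e x - 1‖ ≤ 2 := by
  calc ‖e x - 1‖ ≤ ‖e x‖ + ‖(1 : ℂ)‖ := norm_sub_le _ _
    _ = 2 := by rw [e_norm]; norm_num

lemma e_continuous : Continuous e := by
  unfold e; fun_prop

lemma e_hasDerivAt (x : ℝ) : HasDerivAt e (2 * Real.pi * Complex.I * e x) x := by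
  unfold e
  have h1 : HasDerivAt (fun y : ℝ => ((2 * Real.pi * y : ℝ) : ℂ) * Complex.I)
      (2 * Real.pi * Complex.I) x := by
    have h2 : HasDerivAt (fun y : ℝ => (2 * Real.pi * y : ℝ)) (2 * Real.pi) x := by
      simpa using (hasDerivAt_id x).const_mul (2 * Real.pi)
    have h3 := h2.ofReal_comp.mul_const Complex.I
    simpa using h3
  have h4 := h1.cexp
  convert h4 using 1
  ring

lemma e_comp_hasDerivAt {A : ℝ → ℝ} {A' x : ℝ} (h : HasDerivAt A A' x) :
    HasDerivAt (fun y => e (A y)) (2 * Real.pi * Complex.I * A' * e (A x)) x := by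
  unfold e
  have h2 : HasDerivAt (fun y : ℝ => (2 * Real.pi * A y : ℝ)) (2 * Real.pi * A') x :=
    h.const_mul (2 * Real.pi)
  have h3 := (h2.ofReal_comp.mul_const Complex.I).cexp
  have heq : Complex.exp (((2 * Real.pi * A x : ℝ) : ℂ) * Complex.I) *
      (((2 * Real.pi * A' : ℝ) : ℂ) * Complex.I) =
      2 * Real.pi * Complex.I * A' * Complex.exp (((2 * Real.pi * A x : ℝ) : ℂ) * Complex.I) := by
    push_cast; ring
  rw [heq] at h3
  exact h3

end Pool.Agent.Helper523.UF
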