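import Mathlib
import Pool.Agent.Helper523.UF.Basic

set_option autoImplicit false

namespace Pool.Agent.Helper523.UF

open Finset MeasureTheory intervalIntegral

lemma e_sub_one_lower (u : ℝ) (hu : |u| ≤ 1 / 2) : 4 * |u| ≤ ‖e u - 1‖ := by
  unfold e
  have h := Complex.norm_exp_I_mul_ofReal_sub_one (2 * Real.pi * u)
  rw [mul_comm] at h
  rw [h]
  have h1 : 2 * Real.pi * u / 2 = Real.pi * u := by ring
  rw [h1, norm_mul, Real.norm_eq_abs, Real.norm_eq_abs]
  have h2 : 2 * |u| ≤ |Real.sin (Real.pi * u)| := by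
    have key : ∀ x : ℝ, 0 ≤ x → x ≤ 1 / 2 → 2 * x ≤ Real.sin (Real.pi * x) := by
      intro x hx0 hx1
      have := Real.mul_le_sin (x := Real.pi * x) (by positivity) (by nlinarith [Real.pi_pos])
      have e1 : 2 / Real.pi * (Real.pi * x) = 2 * x := by
        field_simp
      rw [e1] at this
      exact this
    rcases le_total 0 u with h0 | h0
    · rw [abs_of_nonneg h0] at hu ⊢
      exact (key u h0 hu).trans (le_abs_self _)
    · rw [abs_of_nonpos h0] at hu ⊢
      have h3 := key (-u) (by linarith) hu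
      have e2 : Real.sin (Real.pi * u) = - Real.sin (Real.pi * (-u)) := by
        rw [mul_neg, Real.sin_neg, neg_neg]
      rw [e2, abs_neg]
      exact h3.trans (le_abs_self _)
  have h3 : |(2 : ℝ)| = 2 := by norm_num
  rw [h3]
  linarith

/-- geometric sum -/
noncomputable def Dk (M : ℕ) (u : ℝ) : ℂ := ∑ i ∈ range M, e (i * u)

lemma Dk_norm_le (M : ℕ) (u : ℝ) : ‖Dk M u‖ ≤ M := by
  unfold Dk
  refine (norm_sum_le _ _).trans ?_
  simp [e_norm]

lemma Dk_mul (M : ℕ) (u : ℝ) (hu : |u| ≤ 1 / 2) : ‖Dk M u‖ * (2 * |u|) ≤ 1 := by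
  have h1 : Dk M u * (e u - 1) = e (M * u) - 1 := by
    unfold Dk
    simp_rw [e_nat_mul]
    exact geom_sum_mul (e u) M
  have h2 : ‖Dk M u‖ * ‖e u - 1‖ ≤ 2 := by
    rw [← norm_mul, h1]
    exact e_sub_one_norm_two _
  have h3 := e_sub_one_lower u hu
  have h4 := norm_nonneg (Dk M u)
  nlinarith

lemma Dk_continuous (M : ℕ) : Continuous (Dk M) := by
  unfold Dk
  apply continuous_finsetSum
  intro i _
  exact e_continuous.comp (continuous_const.mul continuous_id)

/-- the trapezoid kernel -/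
noncomputable def Vk (w p : ℕ) (u : ℝ) : ℂ := (1 / (w : ℂ)) * (e u * (Dk w u * Dk p u))

lemma Vk_continuous (w p : ℕ) : Continuous (Vk w p) := by
  unfold Vk
  exact continuous_const.mul (e_continuous.mul ((Dk_continuous w).mul (Dk_continuous p)))

lemma Vk_norm (w p : ℕ) (u : ℝ) : ‖Vk w p u‖ = (1 / (w : ℝ)) * (‖Dk w u‖ * ‖Dk p u‖) := by
  unfold Vk
  rw [norm_mul, norm_mul, norm_mul, e_norm, one_mul]
  simp

lemma Vk_abs_one (w p : ℕ) (hw : 0 < w) (u : ℝ) (hu : |u| ≤ 1 / 2) : ‖Vk w p u‖ * |u| ≤ 1 / 2 := by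
  rw [Vk_norm]
  have hw' : (0 : ℝ) < w := by exact_mod_cast hw
  have h1 := Dk_norm_le w u
  have h2 := Dk_mul p u hu
  have h3 := norm_nonneg (Dk p u)
  have h4 : (1 / (w : ℝ)) * ‖Dk w u‖ ≤ 1 := by
    rw [one_div_mul_eq_div, div_le_one hw']; exact h1
  calc 1 / (w : ℝ) * (‖Dk w u‖ * ‖Dk p u‖) * |u| = (1 / (w : ℝ) * ‖Dk w u‖) * (‖Dk p u‖ * |u|) := by ring
    _ ≤ 1 * (‖Dk p u‖ * |u|) := by
        apply mul_le_mul_of_nonneg_right h4 (by positivity)
    _ ≤ 1 / 2 := by linarith

lemma Vk_abs_two (w p : ℕ) (hw : 0 < w) (u : ℝ) (hu : |u| ≤ 1 / 2) :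
    ‖Vk w p u‖ * u ^ 2 ≤ 1 / (4 * w) := by
  rw [Vk_norm]
  have hw' : (0 : ℝ) < w := by exact_mod_cast hw
  have h1 := Dk_mul w u hu
  have h2 := Dk_mul p u hu
  have h3 := norm_nonneg (Dk p u)
  have h4 := norm_nonneg (Dk w u)
  have h5 : (‖Dk w u‖ * (2 * |u|)) * (‖Dk p u‖ * (2 * |u|)) ≤ 1 * 1 := by
    apply mul_le_mul h1 h2 (by positivity) (by norm_num)
  have h6 : ‖Dk w u‖ * ‖Dk p u‖ * u ^ 2 ≤ 1 / 4 := by
    rw [← sq_abs u]; nlinarith
  calc 1 / (w : ℝ) * (‖Dk w u‖ * ‖Dk p u‖) * u ^ 2 = 1 / (w : ℝ) * (‖Dk w u‖ * ‖Dk p u‖ * u ^ 2) := by ring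
    _ ≤ 1 / (w : ℝ) * (1 / 4) := by gcongr
    _ = 1 / (4 * w) := by ring

/-- orthogonality -/
lemma integral_e_int (k : ℤ) : ∫ u in (-1 / 2 : ℝ)..(1 / 2), e (k * u) = if k = 0 then 1 else 0 := by
  split_ifs with h
  · subst h
    simp [e_zero]
    norm_num
  · have hk : (k : ℝ) ≠ 0 := by exact_mod_cast h
    have hk' : (2 * Real.pi * Complex.I * k : ℂ) ≠ 0 := by
      have : (k : ℂ) ≠ 0 := by exact_mod_cast h
      have hpi : (Real.pi : ℂ) ≠ 0 := by exact_mod_cast Real.pi_ne_zero
      simp [Complex.I_ne_zero, this, hpi]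
    have hd : ∀ x ∈ Set.uIcc (-1 / 2 : ℝ) (1 / 2), HasDerivAt
        (fun u : ℝ => (1 / (2 * Real.pi * Complex.I * k : ℂ)) * e (k * u)) (e (k * x)) x := by
      intro x _
      have h1 : HasDerivAt (fun u : ℝ => (k : ℝ) * u) (k : ℝ) x := by
        simpa using (hasDerivAt_id x).const_mul (k : ℝ)
      have h3 := (e_comp_hasDerivAt h1).const_mul (1 / (2 * Real.pi * Complex.I * k : ℂ))
      have heq : (1 / (2 * Real.pi * Complex.I * k : ℂ)) *
          (2 * Real.pi * Complex.I * ((k : ℝ) : ℂ) * e (k * x)) = e (k * x) := by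
        have hkc : (((k : ℝ)) : ℂ) = (k : ℂ) := by push_cast; rfl
        rw [hkc, ← mul_assoc, one_div_mul_cancel hk', one_mul]
      rw [heq] at h3
      exact h3
    rw [integral_eq_sub_of_hasDerivAt hd
      ((e_continuous.comp (continuous_const.mul continuous_id)).intervalIntegrable _ _)]
    rw [← mul_sub]
    have h4 : e (k * (1 / 2)) = e (k * (-1 / 2)) := by
      have : (k : ℝ) * (1 / 2) = k * (-1 / 2) + k := by ring
      rw [this, e_add_int]
    rw [h4, sub_self, mul_zero]

/-- number of representations, as a real weight -/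
noncomputable def vh (w p k : ℕ) : ℝ :=
  (((range w ×ˢ range p).filter (fun q => 1 + q.1 + q.2 = k)).card : ℝ) / w

lemma vh_nonneg (w p k : ℕ) : 0 ≤ vh w p k := by unfold vh; positivity

lemma vh_card_le (w p k : ℕ) :
    ((range w ×ˢ range p).filter (fun q => 1 + q.1 + q.2 = k)).card ≤ min w k := by
  have hinj : Set.InjOn (fun q : ℕ × ℕ => q.1)
      ((range w ×ˢ range p).filter (fun q => 1 + q.1 + q.2 = k) : Finset (ℕ × ℕ)) := by
    intro a ha b hb hab
    simp only [coe_filter, mem_product, mem_range, Set.mem_ofPred_eq] at ha hb hab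
    ext
    · exact hab
    · omega
  apply le_min
  · calc _ = (((range w ×ˢ range p).filter (fun q => 1 + q.1 + q.2 = k)).image
          (fun q : ℕ × ℕ => q.1)).card := (card_image_of_injOn hinj).symm
      _ ≤ (range w).card := by
          apply card_le_card
          intro x hx
          simp only [mem_image, mem_filter, mem_product, mem_range] at hx ⊢
          obtain ⟨q, hq, rfl⟩ := hx
          exact hq.1.1
      _ = w := card_range w
  · calc _ = (((range w ×ˢ range p).filter (fun q => 1 + q.1 + q.2 = k)).image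
          (fun q : ℕ × ℕ => q.1)).card := (card_image_of_injOn hinj).symm
      _ ≤ (range k).card := by
          apply card_le_card
          intro x hx
          simp only [mem_image, mem_filter, mem_product, mem_range] at hx ⊢
          obtain ⟨q, hq, rfl⟩ := hx
          omega
      _ = k := card_range k

lemma vh_le_one (w p k : ℕ) (hw : 0 < w) : vh w p k ≤ 1 := by
  unfold vh
  have hw' : (0 : ℝ) < w := by exact_mod_cast hw
  rw [div_le_one hw']
  exact_mod_cast (vh_card_le w p k).trans (min_le_left _ _)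

lemma vh_le (w p k : ℕ) (hw : 0 < w) : vh w p k ≤ k / w := by
  unfold vh
  have hw' : (0 : ℝ) < w := by exact_mod_cast hw
  gcongr
  exact (vh_card_le w p k).trans (min_le_right _ _)

/-- Expansion of the convolution with the kernel. -/
lemma conv_expand (w p n : ℕ) (hw : 0 < w) (hn : w + p ≤ n) (F : ℝ → ℂ) (hF : Continuous F)
    (hper : ∀ x, F (x + 1) = F x) (θ : ℝ) :
    ∫ u in (-1 / 2 : ℝ)..(1 / 2), F (θ - u) * Vk w p u =
      ∑ k ∈ range (n + 1), (vh w p k : ℂ) * (∫ s in (0 : ℝ)..1, F s * e (-(k * s))) * e (k * θ) := by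
  -- one exponential
  have hone : ∀ k : ℕ, ∫ u in (-1 / 2 : ℝ)..(1 / 2), F (θ - u) * e (k * u) =
      (∫ s in (0 : ℝ)..1, F s * e (-(k * s))) * e (k * θ) := by
    intro k
    have h1 : ∀ u, F (θ - u) * e (k * u) = (fun s => F s * e (-(k * s)) * e (k * θ)) (θ - u) := by
      intro u
      simp only
      have : e (k * u) = e (-(k * (θ - u))) * e (k * θ) := by
        rw [← e_add]; congr 1; ring
      rw [this]; ring
    simp_rw [h1]
    rw [intervalIntegral.integral_comp_sub_left (fun s => F s * e (-(k * s)) * e (k * θ)) θ]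
    rw [intervalIntegral.integral_mul_const]
    congr 1
    have hperiodic : Function.Periodic (fun s => F s * e (-(k * s))) 1 := by
      intro s
      simp only
      rw [hper]
      congr 1
      have : -((k : ℝ) * (s + 1)) = -(k * s) + ((-(k : ℤ) : ℤ) : ℝ) := by push_cast; ring
      rw [this, e_add_int]
    have h2 := hperiodic.intervalIntegral_add_eq (θ - 1 / 2) 0
    have e1 : θ - 1 / 2 + 1 = θ - -1 / 2 := by ring
    rw [e1, zero_add] at h2
    exact h2
  have hV : ∀ u, Vk w p u = ∑ q ∈ range w ×ˢ range p, (1 / (w : ℂ)) * e (((1 + q.1 + q.2 : ℕ) : ℝ) * u) := by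
    intro u
    unfold Vk Dk
    rw [sum_mul_sum, ← sum_product', mul_sum, mul_sum]
    apply sum_congr rfl
    intro q _
    rw [← e_add, ← e_add]
    congr 2
    push_cast; ring
  calc ∫ u in (-1 / 2 : ℝ)..(1 / 2), F (θ - u) * Vk w p u
      = ∫ u in (-1 / 2 : ℝ)..(1 / 2), ∑ q ∈ range w ×ˢ range p,
          (1 / (w : ℂ)) * (F (θ - u) * e (((1 + q.1 + q.2 : ℕ) : ℝ) * u)) := by
        congr 1
        funext u
        rw [hV, mul_sum]
        apply sum_congr rfl
        intro q _
        ring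
    _ = ∑ q ∈ range w ×ˢ range p, ∫ u in (-1 / 2 : ℝ)..(1 / 2),
          (1 / (w : ℂ)) * (F (θ - u) * e (((1 + q.1 + q.2 : ℕ) : ℝ) * u)) := by
        apply intervalIntegral.integral_finsetSum
        intro q _
        apply Continuous.intervalIntegrable
        exact continuous_const.mul ((hF.comp (continuous_const.sub continuous_id)).mul
          (e_continuous.comp (continuous_const.mul continuous_id)))
    _ = ∑ q ∈ range w ×ˢ range p, (1 / (w : ℂ)) *
          ((∫ s in (0 : ℝ)..1, F s * e (-(((1 + q.1 + q.2 : ℕ) : ℝ) * s))) *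
            e (((1 + q.1 + q.2 : ℕ) : ℝ) * θ)) := by
        apply sum_congr rfl
        intro q _
        rw [intervalIntegral.integral_const_mul, hone]
    _ = ∑ k ∈ range (n + 1), ∑ q ∈ (range w ×ˢ range p).filter (fun q => 1 + q.1 + q.2 = k),
          (1 / (w : ℂ)) * ((∫ s in (0 : ℝ)..1, F s * e (-(((1 + q.1 + q.2 : ℕ) : ℝ) * s))) *
            e (((1 + q.1 + q.2 : ℕ) : ℝ) * θ)) := by
        rw [Finset.sum_fiberwise_of_maps_to]
        intro q hq
        simp only [mem_product, mem_range] at hq ⊢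
        omega
    _ = _ := by
        apply sum_congr rfl
        intro k _
        have : ∀ q ∈ (range w ×ˢ range p).filter (fun q => 1 + q.1 + q.2 = k),
            (1 / (w : ℂ)) * ((∫ s in (0 : ℝ)..1, F s * e (-(((1 + q.1 + q.2 : ℕ) : ℝ) * s))) *
            e (((1 + q.1 + q.2 : ℕ) : ℝ) * θ)) =
            (1 / (w : ℂ)) * ((∫ s in (0 : ℝ)..1, F s * e (-((k : ℝ) * s))) * e ((k : ℝ) * θ)) := by
          intro q hq
          rw [mem_filter] at hq
          rw [hq.2]
        rw [sum_congr rfl this, sum_const, nsmul_eq_mul]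
        unfold vh
        push_cast
        ring

/-- The kernel reproduces exponentials of middle frequency. -/
lemma Vk_reproduce (w p K : ℕ) (hw : 0 < w) (h1 : w ≤ K) (h2 : K ≤ p) :
    ∫ u in (-1 / 2 : ℝ)..(1 / 2), e (-(K * u)) * Vk w p u = 1 := by
  have hV : ∀ u, e (-(K * u)) * Vk w p u = ∑ i ∈ range w, ∑ l ∈ range p,
      (1 / (w : ℂ)) * e ((((1 + i + l : ℕ) : ℤ) - (K : ℤ) : ℤ) * u) := by
    intro u
    unfold Vk Dk
    rw [sum_mul_sum, mul_sum, mul_sum, mul_sum]
    apply sum_congr rfl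
    intro i _
    rw [mul_sum, mul_sum, mul_sum]
    apply sum_congr rfl
    intro l _
    rw [← e_add, ← e_add, mul_left_comm, ← e_add]
    congr 2
    push_cast; ring
  simp_rw [hV]
  rw [intervalIntegral.integral_finsetSum]
  · have h3 : ∀ i ∈ range w, ∫ u in (-1 / 2 : ℝ)..(1 / 2), ∑ l ∈ range p,
        (1 / (w : ℂ)) * e ((((1 + i + l : ℕ) : ℤ) - (K : ℤ) : ℤ) * u) = 1 / (w : ℂ) := by
      intro i hi
      have hi' : i < w := by simpa using hi
      rw [intervalIntegral.integral_finsetSum]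
      · simp_rw [intervalIntegral.integral_const_mul, integral_e_int]
        rw [Finset.sum_eq_single (K - 1 - i)]
        · rw [if_pos (by omega)]; ring
        · intro l _ hl
          rw [if_neg (by omega)]; ring
        · intro h; simp at h; omega
      · intro l _
        apply Continuous.intervalIntegrable
        exact continuous_const.mul (e_continuous.comp (continuous_const.mul continuous_id))
    rw [sum_congr rfl h3, sum_const, card_range, nsmul_eq_mul]
    have : (w : ℂ) ≠ 0 := by exact_mod_cast hw.ne'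
    field_simp
  · intro i _
    apply Continuous.intervalIntegrable
    apply continuous_finsetSum
    intro l _
    exact continuous_const.mul (e_continuous.comp (continuous_const.mul continuous_id))

end Pool.Agent.Helper523.UF
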