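import Mathlib
import Pool.Agent.Helper523.UF.Kernel

set_option autoImplicit false

namespace Pool.Agent.Helper523.UF

open Finset MeasureTheory intervalIntegral

lemma integral_inv_sq_bound (C r b : ℝ) (hC : 0 ≤ C) (hr : 0 < r) (hrb : r ≤ b) (g : ℝ → ℂ)
    (hgc : Continuous g) (hg : ∀ u ∈ Set.Icc r b, ‖g u‖ ≤ C / u ^ 2) :
    ‖∫ u in r..b, g u‖ ≤ C / r := by
  have hd : ∀ x ∈ Set.uIcc r b, HasDerivAt (fun u : ℝ => - (C / u)) (C / x ^ 2) x := by
    intro x hx
    rw [Set.uIcc_of_le hrb] at hx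
    have hx0 : x ≠ 0 := by linarith [hx.1]
    have h := ((hasDerivAt_inv hx0).const_mul C).neg
    have e1 : -(C * -(x ^ 2)⁻¹) = C / x ^ 2 := by ring
    rw [e1] at h
    exact h
  have hcont : ContinuousOn (fun u : ℝ => C / u ^ 2) (Set.uIcc r b) := by
    rw [Set.uIcc_of_le hrb]
    apply ContinuousOn.div continuousOn_const (by fun_prop)
    intro x hx
    have : 0 < x := by linarith [hx.1]
    positivity
  have hint : IntervalIntegrable (fun u : ℝ => C / u ^ 2) volume r b := hcont.intervalIntegrable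
  have h1 : ‖∫ u in r..b, g u‖ ≤ ∫ u in r..b, C / u ^ 2 := by
    apply norm_integral_le_of_norm_le hrb
    · filter_upwards with u hu
      exact hg u ⟨hu.1.le, hu.2⟩
    · exact hint
  rw [integral_eq_sub_of_hasDerivAt hd hint] at h1
  have h2 : 0 ≤ C / b := div_nonneg hC (by linarith)
  linarith

theorem conv_close (w p : ℕ) (hw : 0 < w) (y α : ℝ → ℝ) (Λ : ℝ) (hΛ : 4 ≤ Λ)
    (hα : ∀ x, HasDerivAt α (y x) x) (hy : ∀ s t, |y s - y t| ≤ Λ * |s - t|)
    (hyw : ∀ x, (w : ℝ) ≤ y x) (hyp : ∀ x, y x ≤ p) (θ : ℝ) :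
    ‖(∫ u in (-1 / 2 : ℝ)..(1 / 2), e (α (θ - u)) * Vk w p u) - e (α θ)‖ ≤
      2 * Real.pi / Real.sqrt Λ + 5 * Real.sqrt Λ / w := by
  have hw' : (0 : ℝ) < w := by exact_mod_cast hw
  have hαc : Continuous α := continuous_iff_continuousAt.mpr fun x => (hα x).continuousAt
  set K : ℕ := ⌊y θ⌋₊ with hK
  have hyθ : 0 ≤ y θ := hw'.le.trans (hyw θ)
  have hK1 : w ≤ K := Nat.le_floor (hyw θ)
  have hK2 : K ≤ p := by
    have h1 : (K : ℝ) ≤ y θ := Nat.floor_le hyθ
    exact_mod_cast h1.trans (hyp θ)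
  have hKy : |y θ - K| ≤ 1 := by
    have h1 : (K : ℝ) ≤ y θ := Nat.floor_le hyθ
    have h2 : y θ < K + 1 := Nat.lt_floor_add_one _
    rw [abs_le]; constructor <;> linarith
  -- pointwise
  set g : ℝ → ℂ := fun u => (e (α (θ - u)) - e (α θ) * e (-(K * u))) * Vk w p u with hg
  have hgc : Continuous g := by
    simp only [hg]
    apply Continuous.mul _ (Vk_continuous w p)
    apply Continuous.sub
    · exact e_continuous.comp (hαc.comp (continuous_const.sub continuous_id))
    · exact continuous_const.mul (e_continuous.comp (by fun_prop))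
  have hdiff : (∫ u in (-1 / 2 : ℝ)..(1 / 2), e (α (θ - u)) * Vk w p u) - e (α θ) =
      ∫ u in (-1 / 2 : ℝ)..(1 / 2), g u := by
    have h1 : e (α θ) = ∫ u in (-1 / 2 : ℝ)..(1 / 2), e (α θ) * (e (-(K * u)) * Vk w p u) := by
      rw [intervalIntegral.integral_const_mul, Vk_reproduce w p K hw hK1 hK2, mul_one]
    rw [h1, ← intervalIntegral.integral_sub]
    · congr 1
      funext u
      simp only [hg]
      ring
    · apply Continuous.intervalIntegrable
      exact (e_continuous.comp (hαc.comp (continuous_const.sub continuous_id))).mul (Vk_continuous w p)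
    · apply Continuous.intervalIntegrable
      exact continuous_const.mul ((e_continuous.comp (by fun_prop)).mul (Vk_continuous w p))
  rw [hdiff]
  have hphase : ∀ u, |α (θ - u) - α θ + K * u| ≤ |u| * (1 + Λ * |u|) := by
    intro u
    have hder : ∀ x ∈ Set.Icc (θ - |u|) (θ + |u|), HasDerivWithinAt (fun x => α x - K * x)
        (y x - K) (Set.Icc (θ - |u|) (θ + |u|)) x := by
      intro x _
      have h2 : HasDerivAt (fun x : ℝ => (K : ℝ) * x) (K : ℝ) x := by
        simpa using (hasDerivAt_id x).const_mul (K : ℝ)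
      exact ((hα x).sub h2).hasDerivWithinAt
    have hbd : ∀ x ∈ Set.Icc (θ - |u|) (θ + |u|), ‖y x - K‖ ≤ 1 + Λ * |u| := by
      intro x hx
      have h3 := hy x θ
      have h4 : |x - θ| ≤ |u| := by rw [abs_le]; constructor <;> linarith [hx.1, hx.2]
      have h5 : Λ * |x - θ| ≤ Λ * |u| := by gcongr
      rw [Real.norm_eq_abs]
      calc |y x - K| = |(y x - y θ) + (y θ - K)| := by ring_nf
        _ ≤ |y x - y θ| + |y θ - K| := abs_add_le _ _
        _ ≤ 1 + Λ * |u| := by linarith
    have h6 := (convex_Icc (θ - |u|) (θ + |u|)).norm_image_sub_le_of_norm_hasDerivWithin_le hder hbd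
      (x := θ) (y := θ - u)
      ⟨by linarith [abs_nonneg u], by linarith [abs_nonneg u]⟩
      ⟨by linarith [le_abs_self u], by linarith [neg_abs_le u]⟩
    rw [Real.norm_eq_abs, Real.norm_eq_abs] at h6
    have e1 : α (θ - u) - K * (θ - u) - (α θ - K * θ) = α (θ - u) - α θ + K * u := by ring
    have e2 : |θ - u - θ| = |u| := by rw [show θ - u - θ = -u by ring, abs_neg]
    rw [e1, e2] at h6
    linarith
  have hg1 : ∀ u, ‖g u‖ ≤ 2 * Real.pi * (|u| * (1 + Λ * |u|)) * ‖Vk w p u‖ := by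
    intro u
    simp only [hg]
    rw [norm_mul]
    apply mul_le_mul_of_nonneg_right _ (norm_nonneg _)
    have h1 : e (α (θ - u)) - e (α θ) * e (-(K * u)) =
        (e (α θ) * e (-(K * u))) * (e (α (θ - u) - α θ + K * u) - 1) := by
      have : e (α (θ - u)) = e (α θ) * e (-(K * u)) * e (α (θ - u) - α θ + K * u) := by
        rw [← e_add, ← e_add]; congr 1; ring
      rw [this]; ring
    rw [h1, norm_mul, norm_mul, e_norm, e_norm, one_mul, one_mul]
    refine (e_sub_one_norm _).trans ?_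
    have := hphase u
    gcongr
  have hg2 : ∀ u, ‖g u‖ ≤ 2 * ‖Vk w p u‖ := by
    intro u
    simp only [hg]
    rw [norm_mul]
    apply mul_le_mul_of_nonneg_right _ (norm_nonneg _)
    calc ‖e (α (θ - u)) - e (α θ) * e (-(K * u))‖ ≤ ‖e (α (θ - u))‖ + ‖e (α θ) * e (-(K * u))‖ :=
          norm_sub_le _ _
      _ = 2 := by rw [norm_mul, e_norm, e_norm, e_norm]; norm_num
  set S := Real.sqrt Λ with hS
  have hSpos : 0 < S := Real.sqrt_pos.mpr (by linarith)
  have hS2 : S ^ 2 = Λ := Real.sq_sqrt (by linarith)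
  have hSge : 2 ≤ S := by
    rw [hS]; apply Real.le_sqrt_of_sq_le; linarith
  set r : ℝ := 1 / S with hr
  have hrpos : 0 < r := by positivity
  have hr2 : r ≤ 1 / 2 := by
    rw [hr]; exact one_div_le_one_div_of_le (by norm_num) hSge
  have hrS : r * S = 1 := by rw [hr]; field_simp
  -- splitting
  have hsplit : ∫ u in (-1 / 2 : ℝ)..(1 / 2), g u =
      (∫ u in (-1 / 2 : ℝ)..(-r), g u) + (∫ u in (-r)..r, g u) + ∫ u in r..(1 / 2), g u := by
    rw [integral_add_adjacent_intervals (hgc.intervalIntegrable _ _) (hgc.intervalIntegrable _ _),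
      integral_add_adjacent_intervals (hgc.intervalIntegrable _ _) (hgc.intervalIntegrable _ _)]
  have hmid : ‖∫ u in (-r)..r, g u‖ ≤ 2 * Real.pi / S + Real.pi * S / w := by
    have h1 : ‖∫ u in (-r)..r, g u‖ ≤ (Real.pi + Real.pi * Λ / (2 * w)) * |r - (-r)| := by
      apply intervalIntegral.norm_integral_le_of_norm_le_const
      intro u hu
      rw [Set.uIoc_of_le (by linarith)] at hu
      have hu1 : |u| ≤ 1 / 2 := by rw [abs_le]; constructor <;> linarith [hu.1, hu.2]
      refine (hg1 u).trans ?_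
      have h2 := Vk_abs_one w p hw u hu1
      have h3 := Vk_abs_two w p hw u hu1
      calc 2 * Real.pi * (|u| * (1 + Λ * |u|)) * ‖Vk w p u‖
          = 2 * Real.pi * (‖Vk w p u‖ * |u|) + 2 * Real.pi * Λ * (‖Vk w p u‖ * u ^ 2) := by
            rw [← sq_abs u]; ring
        _ ≤ 2 * Real.pi * (1 / 2) + 2 * Real.pi * Λ * (1 / (4 * w)) := by
            have : 0 ≤ Λ := by linarith
            gcongr
        _ = Real.pi + Real.pi * Λ / (2 * w) := by field_simp; ring
    have h2 : |r - (-r)| = 2 * r := by rw [abs_of_nonneg (by linarith)]; ring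
    rw [h2] at h1
    refine h1.trans (le_of_eq ?_)
    have h3 : Λ * r = S := by rw [← hS2, sq, mul_assoc, mul_comm S r, hrS, mul_one]
    calc (Real.pi + Real.pi * Λ / (2 * w)) * (2 * r) = 2 * Real.pi * r + Real.pi * (Λ * r) / w := by
          field_simp
      _ = 2 * Real.pi / S + Real.pi * S / w := by rw [h3, hr]; ring
  have hside : ‖∫ u in r..(1 / 2), g u‖ ≤ S / (2 * w) := by
    have h1 := integral_inv_sq_bound (1 / (2 * w)) r (1 / 2) (by positivity) hrpos hr2 g hgc (by
      intro u hu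
      have hu0 : 0 < u := by linarith [hu.1]
      have h2 := Vk_abs_two w p hw u (by rw [abs_of_pos hu0]; exact hu.2)
      rw [le_div_iff₀ (by positivity)]
      calc ‖g u‖ * u ^ 2 ≤ (2 * ‖Vk w p u‖) * u ^ 2 := by
            apply mul_le_mul_of_nonneg_right (hg2 u) (by positivity)
        _ = 2 * (‖Vk w p u‖ * u ^ 2) := by ring
        _ ≤ 2 * (1 / (4 * w)) := by gcongr
        _ = 1 / (2 * w) := by field_simp; norm_num)
    refine h1.trans (le_of_eq ?_)
    rw [hr]; field_simp
  have hside' : ‖∫ u in (-1 / 2 : ℝ)..(-r), g u‖ ≤ S / (2 * w) := by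
    have h0 : ∫ u in (-1 / 2 : ℝ)..(-r), g u = ∫ u in r..(1 / 2), g (-u) := by
      rw [intervalIntegral.integral_comp_neg]
      congr 1
      norm_num
    rw [h0]
    have h1 := integral_inv_sq_bound (1 / (2 * w)) r (1 / 2) (by positivity) hrpos hr2 (fun u => g (-u))
      (hgc.comp continuous_neg) (by
      intro u hu
      have hu0 : 0 < u := by linarith [hu.1]
      have h2 := Vk_abs_two w p hw (-u) (by rw [abs_neg, abs_of_pos hu0]; exact hu.2)
      rw [le_div_iff₀ (by positivity)]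
      have h3 := hg2 (-u)
      calc ‖g (-u)‖ * u ^ 2 ≤ (2 * ‖Vk w p (-u)‖) * u ^ 2 := by
            apply mul_le_mul_of_nonneg_right h3 (by positivity)
        _ = 2 * (‖Vk w p (-u)‖ * (-u) ^ 2) := by ring
        _ ≤ 2 * (1 / (4 * w)) := by gcongr
        _ = 1 / (2 * w) := by field_simp; norm_num)
    refine h1.trans (le_of_eq ?_)
    rw [hr]; field_simp
  rw [hsplit]
  have hpi : Real.pi ≤ 4 := by linarith [Real.pi_lt_d2]
  have hSw : 0 ≤ S / w := by positivity
  calc _ ≤ ‖∫ u in (-1 / 2 : ℝ)..(-r), g u‖ + ‖∫ u in (-r)..r, g u‖ + ‖∫ u in r..(1 / 2), g u‖ :=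
        norm_add₃_le
    _ ≤ S / (2 * w) + (2 * Real.pi / S + Real.pi * S / w) + S / (2 * w) := by linarith
    _ = 2 * Real.pi / S + (Real.pi + 1) * (S / w) := by field_simp; ring
    _ ≤ 2 * Real.pi / S + 5 * (S / w) := by
        have : (Real.pi + 1) * (S / w) ≤ 5 * (S / w) := by
          apply mul_le_mul_of_nonneg_right _ hSw; linarith
        linarith
    _ = 2 * Real.pi / S + 5 * S / w := by ring

end Pool.Agent.Helper523.UF
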