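import Mathlib
import Pool.Agent.Helper523.UF.Basic

set_option autoImplicit false

namespace Pool.Agent.Helper523.UF

open MeasureTheory Filter Topology

/-- regularised Fresnel integrand -/
noncomputable def fr (ε : ℝ) (v : ℝ) : ℂ := Complex.exp (-((ε : ℂ) - Real.pi * Complex.I) * (v : ℂ) ^ 2)

lemma fr_continuous (ε : ℝ) : Continuous (fr ε) := by unfold fr; fun_prop

lemma fr_norm (ε v : ℝ) : ‖fr ε v‖ = Real.exp (-ε * v ^ 2) := by
  unfold fr
  rw [Complex.norm_exp]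
  congr 1
  have : (-((ε : ℂ) - Real.pi * Complex.I) * (v : ℂ) ^ 2) =
      ((-ε * v ^ 2 : ℝ) : ℂ) + ((Real.pi * v ^ 2 : ℝ) : ℂ) * Complex.I := by
    push_cast; ring
  rw [this, Complex.add_re, Complex.ofReal_re, Complex.re_ofReal_mul, Complex.I_re]
  ring

lemma fr_zero (v : ℝ) : fr 0 v = e (v ^ 2 / 2) := by
  unfold fr e
  congr 1
  push_cast
  ring

lemma fr_norm_le {ε : ℝ} (hε : 0 ≤ ε) (v : ℝ) : ‖fr ε v‖ ≤ 1 := by
  rw [fr_norm]
  apply Real.exp_le_one_iff.mpr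
  nlinarith [sq_nonneg v]

lemma b_norm (ε : ℝ) : Real.pi ≤ ‖(ε : ℂ) - Real.pi * Complex.I‖ := by
  have h := Complex.abs_im_le_norm ((ε : ℂ) - Real.pi * Complex.I)
  simp at h
  rwa [abs_of_pos Real.pi_pos] at h

lemma fr_tail {ε : ℝ} (hε : 0 ≤ ε) {X Y : ℝ} (hX : 0 < X) (hXY : X ≤ Y) :
    ‖∫ v in X..Y, fr ε v‖ ≤ 1 / (Real.pi * X) := by
  set b : ℂ := (ε : ℂ) - Real.pi * Complex.I with hb
  have hbn : Real.pi ≤ ‖b‖ := b_norm ε
  have hbpos : 0 < ‖b‖ := lt_of_lt_of_le Real.pi_pos hbn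
  have hb0 : b ≠ 0 := norm_pos_iff.mp hbpos
  have hd : ∀ x ∈ Set.uIcc X Y, HasDerivAt (fun v : ℝ => fr ε v * (1 / (-2 * b * (v : ℂ))))
      (fr ε x + fr ε x * (1 / (2 * b * (x : ℂ) ^ 2))) x := by
    intro x hx
    rw [Set.uIcc_of_le hXY] at hx
    have hx0 : (x : ℂ) ≠ 0 := by
      have : 0 < x := by linarith [hx.1]
      exact_mod_cast this.ne'
    have h1 : HasDerivAt (fun v : ℝ => (v : ℂ)) 1 x := by
      simpa using (hasDerivAt_id x).ofReal_comp
    have h2 : HasDerivAt (fr ε) (fr ε x * (-b * (2 * (x : ℂ)))) x := by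
      have h3 : HasDerivAt (fun v : ℝ => (v : ℂ) ^ 2) (2 * (x : ℂ)) x := by
        have h := h1.fun_pow 2
        simpa using h
      exact (h3.const_mul (-b)).cexp
    have h4 : HasDerivAt (fun v : ℝ => 1 / (-2 * b * (v : ℂ))) (1 / (2 * b * (x : ℂ) ^ 2)) x := by
      have h5 := (h1.const_mul (-2 * b)).fun_inv (by simp [hb0, hx0])
      have e1 : -(-2 * b * 1) / (-2 * b * (x : ℂ)) ^ 2 = 1 / (2 * b * (x : ℂ) ^ 2) := by
        field_simp
      rw [e1] at h5
      simpa only [one_div] using h5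
    have h6 := h2.mul h4
    have e2 : fr ε x * (-b * (2 * (x : ℂ))) * (1 / (-2 * b * (x : ℂ))) +
        fr ε x * (1 / (2 * b * (x : ℂ) ^ 2)) = fr ε x + fr ε x * (1 / (2 * b * (x : ℂ) ^ 2)) := by
      field_simp
    rw [e2] at h6
    exact h6
  have hcont2 : ContinuousOn (fun x : ℝ => fr ε x * (1 / (2 * b * (x : ℂ) ^ 2))) (Set.uIcc X Y) := by
    rw [Set.uIcc_of_le hXY]
    apply ContinuousOn.mul (fr_continuous ε).continuousOn
    apply ContinuousOn.div continuousOn_const (by fun_prop)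
    intro x hx
    have : (x : ℂ) ≠ 0 := by
      have : 0 < x := by linarith [hx.1]
      exact_mod_cast this.ne'
    simp [hb0, this]
  have hint1 : IntervalIntegrable (fr ε) volume X Y := (fr_continuous ε).intervalIntegrable _ _
  have hint2 : IntervalIntegrable (fun x : ℝ => fr ε x * (1 / (2 * b * (x : ℂ) ^ 2))) volume X Y :=
    hcont2.intervalIntegrable
  have hftc := intervalIntegral.integral_eq_sub_of_hasDerivAt hd (hint1.add hint2)
  rw [intervalIntegral.integral_add hint1 hint2] at hftc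
  have heq : ∫ v in X..Y, fr ε v = (fr ε Y * (1 / (-2 * b * (Y : ℂ))) - fr ε X * (1 / (-2 * b * (X : ℂ)))) -
      ∫ v in X..Y, fr ε v * (1 / (2 * b * (v : ℂ) ^ 2)) := by
    rw [← hftc]; ring
  have hY : 0 < Y := by linarith
  have n1 : ‖fr ε Y * (1 / (-2 * b * (Y : ℂ)))‖ ≤ 1 / (2 * ‖b‖ * Y) := by
    rw [norm_mul, norm_div, norm_mul, norm_mul, norm_one, norm_neg, Complex.norm_ofNat,
      Complex.norm_real, Real.norm_eq_abs, abs_of_pos hY]
    have := fr_norm_le hε Y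
    calc ‖fr ε Y‖ * (1 / (2 * ‖b‖ * Y)) ≤ 1 * (1 / (2 * ‖b‖ * Y)) := by
          apply mul_le_mul_of_nonneg_right this (by positivity)
      _ = _ := one_mul _
  have n2 : ‖fr ε X * (1 / (-2 * b * (X : ℂ)))‖ ≤ 1 / (2 * ‖b‖ * X) := by
    rw [norm_mul, norm_div, norm_mul, norm_mul, norm_one, norm_neg, Complex.norm_ofNat,
      Complex.norm_real, Real.norm_eq_abs, abs_of_pos hX]
    have := fr_norm_le hε X
    calc ‖fr ε X‖ * (1 / (2 * ‖b‖ * X)) ≤ 1 * (1 / (2 * ‖b‖ * X)) := by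
          apply mul_le_mul_of_nonneg_right this (by positivity)
      _ = _ := one_mul _
  have n3 : ‖∫ v in X..Y, fr ε v * (1 / (2 * b * (v : ℂ) ^ 2))‖ ≤
      1 / (2 * ‖b‖ * X) - 1 / (2 * ‖b‖ * Y) := by
    have hd2 : ∀ x ∈ Set.uIcc X Y, HasDerivAt (fun v : ℝ => -(1 / (2 * ‖b‖ * v)))
        (1 / (2 * ‖b‖ * x ^ 2)) x := by
      intro x hx
      rw [Set.uIcc_of_le hXY] at hx
      have hx0 : x ≠ 0 := by linarith [hx.1]
      have h5 := ((((hasDerivAt_id' x).const_mul (2 * ‖b‖)).fun_inv (by simp [hb0, hx0]))).fun_neg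
      have e1 : -(-(2 * ‖b‖ * 1) / (2 * ‖b‖ * x) ^ 2) = 1 / (2 * ‖b‖ * x ^ 2) := by
        field_simp
      rw [e1] at h5
      simpa only [one_div] using h5
    have hc2 : ContinuousOn (fun x : ℝ => 1 / (2 * ‖b‖ * x ^ 2)) (Set.uIcc X Y) := by
      rw [Set.uIcc_of_le hXY]
      apply ContinuousOn.div continuousOn_const (by fun_prop)
      intro x hx
      have : 0 < x := by linarith [hx.1]
      positivity
    have h7 : ‖∫ v in X..Y, fr ε v * (1 / (2 * b * (v : ℂ) ^ 2))‖ ≤ ∫ v in X..Y, 1 / (2 * ‖b‖ * v ^ 2) := by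
      apply intervalIntegral.norm_integral_le_of_norm_le hXY
      · filter_upwards with v hv
        rw [norm_mul, norm_div, norm_mul, norm_mul, norm_one, norm_pow, Complex.norm_ofNat,
          Complex.norm_real, Real.norm_eq_abs, sq_abs]
        have h0v : 0 < v := by linarith [hv.1]
        have := fr_norm_le hε v
        calc ‖fr ε v‖ * (1 / (2 * ‖b‖ * v ^ 2)) ≤ 1 * (1 / (2 * ‖b‖ * v ^ 2)) := by
              apply mul_le_mul_of_nonneg_right this (by positivity)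
          _ = _ := one_mul _
      · exact hc2.intervalIntegrable
    rw [intervalIntegral.integral_eq_sub_of_hasDerivAt hd2 hc2.intervalIntegrable] at h7
    linarith
  rw [heq]
  calc _ ≤ ‖fr ε Y * (1 / (-2 * b * (Y : ℂ))) - fr ε X * (1 / (-2 * b * (X : ℂ)))‖ +
        ‖∫ v in X..Y, fr ε v * (1 / (2 * b * (v : ℂ) ^ 2))‖ := norm_sub_le _ _
    _ ≤ (1 / (2 * ‖b‖ * Y) + 1 / (2 * ‖b‖ * X)) + (1 / (2 * ‖b‖ * X) - 1 / (2 * ‖b‖ * Y)) := by
        have := norm_sub_le (fr ε Y * (1 / (-2 * b * (Y : ℂ)))) (fr ε X * (1 / (-2 * b * (X : ℂ))))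
        linarith
    _ = 1 / (‖b‖ * X) := by field_simp; ring
    _ ≤ 1 / (Real.pi * X) := by gcongr

lemma fr_neg (ε v : ℝ) : fr ε (-v) = fr ε v := by
  unfold fr; congr 1; push_cast; ring

lemma fr_total {ε : ℝ} (hε : 0 < ε) : ‖∫ v : ℝ, fr ε v‖ ≤ 1 := by
  have hre : 0 < ((ε : ℂ) - Real.pi * Complex.I).re := by simp [hε]
  have h := integral_gaussian_complex hre
  unfold fr
  rw [h]
  set b : ℂ := (ε : ℂ) - Real.pi * Complex.I with hb
  have hbn : Real.pi ≤ ‖b‖ := b_norm ε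
  have hbpos : 0 < ‖b‖ := lt_of_lt_of_le Real.pi_pos hbn
  have hb0 : b ≠ 0 := norm_pos_iff.mp hbpos
  have hpi : (Real.pi : ℂ) ≠ 0 := by exact_mod_cast Real.pi_ne_zero
  rw [Complex.norm_cpow_of_ne_zero (div_ne_zero hpi hb0)]
  have h1 : (1 / 2 : ℂ).im = 0 := by norm_num
  have h2 : (1 / 2 : ℂ).re = 1 / 2 := by norm_num
  rw [h1, h2, mul_zero, Real.exp_zero, div_one, norm_div, Complex.norm_real, Real.norm_eq_abs,
    abs_of_pos Real.pi_pos]
  apply Real.rpow_le_one (by positivity)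
  · rw [div_le_one hbpos]; exact hbn
  · norm_num

lemma fr_window {ε : ℝ} (hε : 0 < ε) {X : ℝ} (hX : 0 < X) :
    ‖∫ v in (-X)..X, fr ε v‖ ≤ 1 + 2 / (Real.pi * X) := by
  have hre : 0 < ((ε : ℂ) - Real.pi * Complex.I).re := by simp [hε]
  have hint : Integrable (fr ε) := integrable_cexp_neg_mul_sq hre
  have hlim : Tendsto (fun Y : ℝ => ∫ v in (-Y)..Y, fr ε v) atTop (𝓝 (∫ v : ℝ, fr ε v)) :=
    intervalIntegral_tendsto_integral hint tendsto_neg_atTop_atBot tendsto_id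
  have hbound : ∀ Y : ℝ, X ≤ Y → ‖∫ v in (-X)..X, fr ε v‖ ≤ ‖∫ v in (-Y)..Y, fr ε v‖ + 2 / (Real.pi * X) := by
    intro Y hY
    have hi : ∀ a b, IntervalIntegrable (fr ε) volume a b := fun a b =>
      (fr_continuous ε).intervalIntegrable _ _
    have h1 : ∫ v in (-Y)..Y, fr ε v = (∫ v in (-Y)..(-X), fr ε v) + (∫ v in (-X)..X, fr ε v) +
        ∫ v in X..Y, fr ε v := by
      rw [intervalIntegral.integral_add_adjacent_intervals (hi _ _) (hi _ _),
        intervalIntegral.integral_add_adjacent_intervals (hi _ _) (hi _ _)]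
    have h2 : ∫ v in (-Y)..(-X), fr ε v = ∫ v in X..Y, fr ε v := by
      rw [← intervalIntegral.integral_comp_neg]
      simp_rw [fr_neg]
    have h3 := fr_tail hε.le hX hY
    have h4 : ∫ v in (-X)..X, fr ε v = (∫ v in (-Y)..Y, fr ε v) - (∫ v in X..Y, fr ε v) -
        ∫ v in X..Y, fr ε v := by rw [h1, h2]; ring
    rw [h4]
    calc _ ≤ ‖(∫ v in (-Y)..Y, fr ε v) - (∫ v in X..Y, fr ε v)‖ + ‖∫ v in X..Y, fr ε v‖ := norm_sub_le _ _
      _ ≤ (‖∫ v in (-Y)..Y, fr ε v‖ + ‖∫ v in X..Y, fr ε v‖) + ‖∫ v in X..Y, fr ε v‖ := by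
          gcongr; exact norm_sub_le _ _
      _ ≤ ‖∫ v in (-Y)..Y, fr ε v‖ + 2 / (Real.pi * X) := by
          have : 2 / (Real.pi * X) = 2 * (1 / (Real.pi * X)) := by ring
          rw [this]; linarith
  have hlim2 : Tendsto (fun Y : ℝ => ‖∫ v in (-Y)..Y, fr ε v‖ + 2 / (Real.pi * X)) atTop
      (𝓝 (‖∫ v : ℝ, fr ε v‖ + 2 / (Real.pi * X))) := (hlim.norm).add_const _
  have h5 : ‖∫ v in (-X)..X, fr ε v‖ ≤ ‖∫ v : ℝ, fr ε v‖ + 2 / (Real.pi * X) := by
    apply ge_of_tendsto hlim2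
    filter_upwards [eventually_ge_atTop X] with Y hY
    exact hbound Y hY
  have := fr_total hε
  linarith

/-- The Fresnel integral bound with sharp constant. -/
lemma fresnel {X : ℝ} (hX : 0 < X) : ‖∫ v in (-X)..X, e (v ^ 2 / 2)‖ ≤ 1 + 2 / (Real.pi * X) := by
  have hlim : Tendsto (fun m : ℕ => ∫ v in (-X)..X, fr (1 / ((m : ℝ) + 1)) v) atTop
      (𝓝 (∫ v in (-X)..X, fr 0 v)) := by
    apply intervalIntegral.tendsto_integral_filter_of_dominated_convergence (fun _ => (1 : ℝ))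
    · filter_upwards with m
      exact (fr_continuous _).aestronglyMeasurable
    · filter_upwards with m
      filter_upwards with v _
      exact fr_norm_le (by positivity) v
    · exact intervalIntegrable_const
    · filter_upwards with v _
      have h1 : Tendsto (fun m : ℕ => (1 / ((m : ℝ) + 1) : ℝ)) atTop (𝓝 0) :=
        tendsto_one_div_add_atTop_nhds_zero_nat
      have h2 : Continuous (fun ε : ℝ => fr ε v) := by unfold fr; fun_prop
      exact (h2.tendsto 0).comp h1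
  have h3 : ‖∫ v in (-X)..X, fr 0 v‖ ≤ 1 + 2 / (Real.pi * X) := by
    apply le_of_tendsto hlim.norm
    filter_upwards with m
    exact fr_window (by positivity) hX
  simp_rw [fr_zero] at h3
  exact h3

/-- scaled version -/
lemma fresnel_scaled {lam X : ℝ} (hl : 0 < lam) (hX : 0 < X) :
    ‖∫ v in (-X)..X, e (lam * v ^ 2 / 2)‖ ≤ 1 / Real.sqrt lam + 1 / (lam * X) := by
  set S := Real.sqrt lam with hS
  have hSpos : 0 < S := Real.sqrt_pos.mpr hl
  have hS2 : S ^ 2 = lam := Real.sq_sqrt hl.le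
  have h1 : ∫ v in (-X)..X, e (lam * v ^ 2 / 2) = (1 / S) • ∫ v in (-(S * X))..(S * X), e (v ^ 2 / 2) := by
    have h2 := intervalIntegral.integral_comp_mul_left (a := -X) (b := X)
      (fun v => e (v ^ 2 / 2)) hSpos.ne'
    have h3 : ∀ v : ℝ, (S * v) ^ 2 / 2 = lam * v ^ 2 / 2 := by
      intro v; rw [mul_pow, hS2]
    simp_rw [h3] at h2
    rw [h2, mul_neg, one_div]
  rw [h1, norm_smul, Real.norm_eq_abs, abs_of_pos (by positivity)]
  have h4 := fresnel (X := S * X) (by positivity)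
  calc 1 / S * ‖∫ v in (-(S * X))..(S * X), e (v ^ 2 / 2)‖ ≤ 1 / S * (1 + 2 / (Real.pi * (S * X))) := by
        gcongr
    _ = 1 / S + (2 / Real.pi) * (1 / (S ^ 2 * X)) := by field_simp
    _ ≤ 1 / S + 1 * (1 / (S ^ 2 * X)) := by
        gcongr
        rw [div_le_one Real.pi_pos]; linarith [Real.pi_gt_three]
    _ = 1 / S + 1 / (lam * X) := by rw [hS2, one_mul]

end Pool.Agent.Helper523.UF
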