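import Mathlib
import Pool.Agent.Helper523.UF.Fresnel

set_option autoImplicit false

namespace Pool.Agent.Helper523.UF

open MeasureTheory Filter Topology

/-- First derivative test. -/
lemma first_deriv {a b Y : ℝ} (hab : a ≤ b) (hY : 0 < Y) (A y y' : ℝ → ℝ)
    (hA : ∀ x ∈ Set.Icc a b, HasDerivAt A (y x) x)
    (hy : ∀ x ∈ Set.Icc a b, HasDerivAt y (y' x) x)
    (hc : ContinuousOn y' (Set.Icc a b))
    (hyY : ∀ x ∈ Set.Icc a b, Y ≤ y x)
    (hmono : (∀ x ∈ Set.Icc a b, 0 ≤ y' x) ∨ (∀ x ∈ Set.Icc a b, y' x ≤ 0)) :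
    ‖∫ x in a..b, e (A x)‖ ≤ 1 / (Real.pi * Y) := by
  have hAc : ContinuousOn A (Set.Icc a b) := fun x hx => (hA x hx).continuousAt.continuousWithinAt
  have hyc : ContinuousOn y (Set.Icc a b) := fun x hx => (hy x hx).continuousAt.continuousWithinAt
  have hypos : ∀ x ∈ Set.Icc a b, 0 < y x := fun x hx => lt_of_lt_of_le hY (hyY x hx)
  have hpiI : (2 * Real.pi * Complex.I : ℂ) ≠ 0 := by
    have hpi : (Real.pi : ℂ) ≠ 0 := by exact_mod_cast Real.pi_ne_zero
    simp [Complex.I_ne_zero, hpi]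
  have hec : ContinuousOn (fun x => e (A x)) (Set.Icc a b) := e_continuous.comp_continuousOn hAc
  set q : ℝ → ℂ := fun x => e (A x) * ((y' x / y x ^ 2 : ℝ) : ℂ) * (1 / (2 * Real.pi * Complex.I)) with hq
  have hquot : ContinuousOn (fun x => y' x / y x ^ 2) (Set.Icc a b) :=
    hc.div (hyc.pow 2) (fun x hx => by have := hypos x hx; positivity)
  have hqc : ContinuousOn q (Set.Icc a b) := by
    simp only [hq]
    exact (hec.mul (Complex.continuous_ofReal.comp_continuousOn hquot)).mul continuousOn_const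
  have hd : ∀ x ∈ Set.uIcc a b, HasDerivAt
      (fun x => e (A x) * (1 / (y x : ℂ)) * (1 / (2 * Real.pi * Complex.I))) (e (A x) - q x) x := by
    intro x hx
    rw [Set.uIcc_of_le hab] at hx
    have hy0 : (y x : ℂ) ≠ 0 := by exact_mod_cast (hypos x hx).ne'
    have h1 := e_comp_hasDerivAt (hA x hx)
    have h2 : HasDerivAt (fun x => (1 / (y x : ℂ))) (-(y' x : ℂ) / (y x : ℂ) ^ 2) x := by
      have h3 := ((hy x hx).ofReal_comp).fun_inv hy0
      simpa only [one_div] using h3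
    have h4 := (h1.fun_mul h2).mul_const (1 / (2 * Real.pi * Complex.I : ℂ))
    have e1 : (2 * Real.pi * Complex.I * (y x : ℂ) * e (A x) * (1 / (y x : ℂ)) +
        e (A x) * (-(y' x : ℂ) / (y x : ℂ) ^ 2)) * (1 / (2 * Real.pi * Complex.I)) = e (A x) - q x := by
      simp only [hq]
      push_cast
      have hpi : (Real.pi : ℂ) ≠ 0 := by exact_mod_cast Real.pi_ne_zero
      field_simp [Complex.I_ne_zero]
      ring
    rw [e1] at h4
    exact h4
  have hint1 : IntervalIntegrable (fun x => e (A x)) volume a b := by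
    apply ContinuousOn.intervalIntegrable; rwa [Set.uIcc_of_le hab]
  have hint2 : IntervalIntegrable q volume a b := by
    apply ContinuousOn.intervalIntegrable; rwa [Set.uIcc_of_le hab]
  have hftc := intervalIntegral.integral_eq_sub_of_hasDerivAt hd (hint1.sub hint2)
  rw [intervalIntegral.integral_sub hint1 hint2] at hftc
  have heq : ∫ x in a..b, e (A x) =
      (e (A b) * (1 / (y b : ℂ)) * (1 / (2 * Real.pi * Complex.I)) -
        e (A a) * (1 / (y a : ℂ)) * (1 / (2 * Real.pi * Complex.I))) + ∫ x in a..b, q x := by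
    rw [← hftc]; ring
  have ha : a ∈ Set.Icc a b := ⟨le_rfl, hab⟩
  have hb : b ∈ Set.Icc a b := ⟨hab, le_rfl⟩
  have hn2pi : ‖(1 / (2 * Real.pi * Complex.I) : ℂ)‖ = 1 / (2 * Real.pi) := by
    rw [norm_div, norm_mul, norm_mul, Complex.norm_I, Complex.norm_real, Real.norm_eq_abs,
      abs_of_pos Real.pi_pos, norm_one, mul_one, Complex.norm_ofNat]
  have nb : ∀ x ∈ Set.Icc a b, ‖e (A x) * (1 / (y x : ℂ)) * (1 / (2 * Real.pi * Complex.I))‖ =
      1 / (2 * Real.pi) * (1 / y x) := by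
    intro x hx
    rw [norm_mul, norm_mul, e_norm, hn2pi, norm_div, norm_one, Complex.norm_real, Real.norm_eq_abs,
      abs_of_pos (hypos x hx)]
    ring
  -- the variation integral
  have hdv : ∀ x ∈ Set.uIcc a b, HasDerivAt (fun x => -(1 / y x)) (y' x / y x ^ 2) x := by
    intro x hx
    rw [Set.uIcc_of_le hab] at hx
    have h3 := ((hy x hx).fun_inv (hypos x hx).ne').fun_neg
    have e1 : -(-y' x / y x ^ 2) = y' x / y x ^ 2 := by ring
    rw [e1] at h3
    simpa only [one_div] using h3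
  have hvint : IntervalIntegrable (fun x => y' x / y x ^ 2) volume a b := by
    apply ContinuousOn.intervalIntegrable; rwa [Set.uIcc_of_le hab]
  have hvar := intervalIntegral.integral_eq_sub_of_hasDerivAt hdv hvint
  have hqn : ∀ x, ‖q x‖ = |y' x / y x ^ 2| * (1 / (2 * Real.pi)) := by
    intro x
    simp only [hq]
    rw [norm_mul, norm_mul, e_norm, hn2pi, Complex.norm_real, Real.norm_eq_abs, one_mul]
  have hqi : ‖∫ x in a..b, q x‖ ≤ 1 / (2 * Real.pi) * |1 / y a - 1 / y b| := by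
    rcases hmono with hm | hm
    · have h1 : ‖∫ x in a..b, q x‖ ≤ ∫ x in a..b, (y' x / y x ^ 2) * (1 / (2 * Real.pi)) := by
        apply intervalIntegral.norm_integral_le_of_norm_le hab
        · filter_upwards with x hx
          rw [hqn]
          have hx' : x ∈ Set.Icc a b := ⟨hx.1.le, hx.2⟩
          rw [abs_of_nonneg]
          have := hm x hx'
          have := hypos x hx'
          positivity
        · exact hvint.mul_const _
      have e3 : ∫ x in a..b, (y' x / y x ^ 2) * (1 / (2 * Real.pi)) =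
          (∫ x in a..b, (y' x / y x ^ 2)) * (1 / (2 * Real.pi)) :=
        intervalIntegral.integral_mul_const _ _
      rw [e3, hvar] at h1
      refine h1.trans ?_
      rw [mul_comm]
      apply mul_le_mul_of_nonneg_left _ (by positivity)
      calc -(1 / y b) - -(1 / y a) = 1 / y a - 1 / y b := by ring
        _ ≤ |1 / y a - 1 / y b| := le_abs_self _
    · have h1 : ‖∫ x in a..b, q x‖ ≤ ∫ x in a..b, -(y' x / y x ^ 2) * (1 / (2 * Real.pi)) := by
        apply intervalIntegral.norm_integral_le_of_norm_le hab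
        · filter_upwards with x hx
          rw [hqn]
          have hx' : x ∈ Set.Icc a b := ⟨hx.1.le, hx.2⟩
          rw [abs_of_nonpos]
          have h2 := hm x hx'
          have h3 := hypos x hx'
          apply div_nonpos_of_nonpos_of_nonneg h2 (by positivity)
        · exact hvint.neg.mul_const _
      have e3 : ∫ x in a..b, -(y' x / y x ^ 2) * (1 / (2 * Real.pi)) =
          (∫ x in a..b, -(y' x / y x ^ 2)) * (1 / (2 * Real.pi)) :=
        intervalIntegral.integral_mul_const _ _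
      have e4 : ∫ x in a..b, -(y' x / y x ^ 2) = -∫ x in a..b, (y' x / y x ^ 2) :=
        intervalIntegral.integral_neg
      rw [e3, e4, hvar] at h1
      refine h1.trans ?_
      rw [mul_comm]
      apply mul_le_mul_of_nonneg_left _ (by positivity)
      calc -(-(1 / y b) - -(1 / y a)) = -(1 / y a - 1 / y b) := by ring
        _ ≤ |1 / y a - 1 / y b| := neg_le_abs _
  rw [heq]
  have hya := hyY a ha
  have hyb := hyY b hb
  have hia : 1 / y a ≤ 1 / Y := one_div_le_one_div_of_le hY hya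
  have hib : 1 / y b ≤ 1 / Y := one_div_le_one_div_of_le hY hyb
  have hia0 : 0 < 1 / y a := by have := hypos a ha; positivity
  have hib0 : 0 < 1 / y b := by have := hypos b hb; positivity
  have hmax : 1 / y b + 1 / y a + |1 / y a - 1 / y b| ≤ 2 * (1 / Y) := by
    rcases abs_cases (1 / y a - 1 / y b) with ⟨h, _⟩ | ⟨h, _⟩ <;> rw [h] <;> linarith
  calc _ ≤ ‖e (A b) * (1 / (y b : ℂ)) * (1 / (2 * Real.pi * Complex.I)) -
        e (A a) * (1 / (y a : ℂ)) * (1 / (2 * Real.pi * Complex.I))‖ + ‖∫ x in a..b, q x‖ :=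
        norm_add_le _ _
    _ ≤ (1 / (2 * Real.pi) * (1 / y b) + 1 / (2 * Real.pi) * (1 / y a)) +
        1 / (2 * Real.pi) * |1 / y a - 1 / y b| := by
        apply add_le_add _ hqi
        refine (norm_sub_le _ _).trans ?_
        rw [nb a ha, nb b hb]
    _ = 1 / (2 * Real.pi) * (1 / y b + 1 / y a + |1 / y a - 1 / y b|) := by ring
    _ ≤ 1 / (2 * Real.pi) * (2 * (1 / Y)) := by gcongr
    _ = 1 / (Real.pi * Y) := by field_simp

lemma norm_int_neg {a b : ℝ} (A : ℝ → ℝ) :
    ‖∫ x in a..b, e (A x)‖ = ‖∫ x in a..b, e (-(A x))‖ := by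
  have h1 : ∀ x, e (-(A x)) = starRingEnd ℂ (e (A x)) := by
    intro x
    unfold e
    rw [← Complex.exp_conj]
    congr 1
    rw [map_mul, Complex.conj_I, Complex.conj_ofReal]
    push_cast
    ring
  simp_rw [h1]
  have h2 : ∫ x in a..b, starRingEnd ℂ (e (A x)) = starRingEnd ℂ (∫ x in a..b, e (A x)) :=
    intervalIntegral.intervalIntegral_conj
  rw [h2, RCLike.norm_conj]

/-- First derivative test, negative frequency. -/
lemma first_deriv_neg {a b Y : ℝ} (hab : a ≤ b) (hY : 0 < Y) (A y y' : ℝ → ℝ)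
    (hA : ∀ x ∈ Set.Icc a b, HasDerivAt A (y x) x)
    (hy : ∀ x ∈ Set.Icc a b, HasDerivAt y (y' x) x)
    (hc : ContinuousOn y' (Set.Icc a b))
    (hyY : ∀ x ∈ Set.Icc a b, y x ≤ -Y)
    (hmono : ∀ x ∈ Set.Icc a b, 0 ≤ y' x) :
    ‖∫ x in a..b, e (A x)‖ ≤ 1 / (Real.pi * Y) := by
  rw [norm_int_neg]
  exact first_deriv hab hY (fun x => -(A x)) (fun x => -(y x)) (fun x => -(y' x))
    (fun x hx => (hA x hx).fun_neg) (fun x hx => (hy x hx).fun_neg) hc.neg
    (fun x hx => by have := hyY x hx; linarith)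
    (Or.inr (fun x hx => by have := hmono x hx; linarith))

lemma norm_int_trivial {a b : ℝ} (hab : a ≤ b) (A : ℝ → ℝ) : ‖∫ x in a..b, e (A x)‖ ≤ b - a := by
  have h := intervalIntegral.norm_integral_le_of_norm_le_const (a := a) (b := b)
    (f := fun x => e (A x)) (C := 1) (fun x _ => by rw [e_norm])
  rw [one_mul, abs_of_nonneg (by linarith)] at h
  exact h

/-- derivative lower bound gives growth -/
lemma growth {a b μ : ℝ} (y y' : ℝ → ℝ) (hy : ∀ x ∈ Set.Icc a b, HasDerivAt y (y' x) x)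
    (hμ : ∀ x ∈ Set.Icc a b, μ ≤ y' x) {s t : ℝ} (hs : s ∈ Set.Icc a b) (ht : t ∈ Set.Icc a b)
    (hst : s ≤ t) : μ * (t - s) ≤ y t - y s := by
  rcases hst.eq_or_lt with h | h
  · rw [h]; simp
  · obtain ⟨c, hc, hc2⟩ := exists_hasDerivAt_eq_slope y y' h
      (fun x hx => (hy x ⟨hs.1.trans hx.1, hx.2.trans ht.2⟩).continuousAt.continuousWithinAt)
      (fun x hx => hy x ⟨hs.1.trans hx.1.le, hx.2.le.trans ht.2⟩)
    have h1 := hμ c ⟨hs.1.trans hc.1.le, hc.2.le.trans ht.2⟩
    rw [hc2, le_div_iff₀ (by linarith)] at h1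
    exact h1

/-- Second derivative test when the frequency is nonnegative at the left end. -/
lemma second_deriv_right {a b μ : ℝ} (hab : a ≤ b) (hμ : 0 < μ) (A y y' : ℝ → ℝ)
    (hA : ∀ x ∈ Set.Icc a b, HasDerivAt A (y x) x)
    (hy : ∀ x ∈ Set.Icc a b, HasDerivAt y (y' x) x)
    (hc : ContinuousOn y' (Set.Icc a b))
    (hμy : ∀ x ∈ Set.Icc a b, μ ≤ y' x) (h0 : 0 ≤ y a) :
    ‖∫ x in a..b, e (A x)‖ ≤ (1 + 1 / Real.pi) / Real.sqrt μ := by
  set S := Real.sqrt μ with hS
  have hSpos : 0 < S := Real.sqrt_pos.mpr hμ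
  have hS2 : S ^ 2 = μ := Real.sq_sqrt hμ.le
  have hpi := Real.pi_pos
  rcases le_or_gt (b - a) (1 / S) with h | h
  · refine (norm_int_trivial hab A).trans (h.trans ?_)
    gcongr
    have : 0 < 1 / Real.pi := by positivity
    linarith
  · set c := a + 1 / S with hcdef
    have hSinv : 0 < 1 / S := by positivity
    have hac : a ≤ c := by linarith
    have hcb : c ≤ b := by linarith
    have hec : ContinuousOn (fun x => e (A x)) (Set.Icc a b) :=
      e_continuous.comp_continuousOn (fun x hx => (hA x hx).continuousAt.continuousWithinAt)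
    have hi1 : IntervalIntegrable (fun x => e (A x)) volume a c := by
      apply ContinuousOn.intervalIntegrable; rw [Set.uIcc_of_le hac]
      exact hec.mono (Set.Icc_subset_Icc le_rfl hcb)
    have hi2 : IntervalIntegrable (fun x => e (A x)) volume c b := by
      apply ContinuousOn.intervalIntegrable; rw [Set.uIcc_of_le hcb]
      exact hec.mono (Set.Icc_subset_Icc hac le_rfl)
    rw [← intervalIntegral.integral_add_adjacent_intervals hi1 hi2]
    have h1 : ‖∫ x in a..c, e (A x)‖ ≤ 1 / S := by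
      refine (norm_int_trivial hac A).trans ?_
      rw [hcdef]; linarith
    have hsub : ∀ x ∈ Set.Icc c b, x ∈ Set.Icc a b := fun x hx => ⟨hac.trans hx.1, hx.2⟩
    have h2 : ‖∫ x in c..b, e (A x)‖ ≤ 1 / (Real.pi * S) := by
      apply first_deriv hcb hSpos A y y' (fun x hx => hA x (hsub x hx)) (fun x hx => hy x (hsub x hx))
        (hc.mono hsub)
      · intro x hx
        have h3 := growth y y' hy hμy (s := a) (t := x) ⟨le_rfl, hab⟩ (hsub x hx) (hac.trans hx.1)
        have h4 : μ * (1 / S) ≤ μ * (x - a) := by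
          apply mul_le_mul_of_nonneg_left _ hμ.le
          linarith [hx.1]
        have h5 : μ * (1 / S) = S := by rw [← hS2]; field_simp
        linarith
      · left
        intro x hx
        exact hμ.le.trans (hμy x (hsub x hx))
    calc _ ≤ ‖∫ x in a..c, e (A x)‖ + ‖∫ x in c..b, e (A x)‖ := norm_add_le _ _
      _ ≤ 1 / S + 1 / (Real.pi * S) := add_le_add h1 h2
      _ = (1 + 1 / Real.pi) / S := by field_simp

/-- Second derivative test when the frequency is nonpositive at the right end. -/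
lemma second_deriv_left {a b μ : ℝ} (hab : a ≤ b) (hμ : 0 < μ) (A y y' : ℝ → ℝ)
    (hA : ∀ x ∈ Set.Icc a b, HasDerivAt A (y x) x)
    (hy : ∀ x ∈ Set.Icc a b, HasDerivAt y (y' x) x)
    (hc : ContinuousOn y' (Set.Icc a b))
    (hμy : ∀ x ∈ Set.Icc a b, μ ≤ y' x) (h0 : y b ≤ 0) :
    ‖∫ x in a..b, e (A x)‖ ≤ (1 + 1 / Real.pi) / Real.sqrt μ := by
  -- reflect
  have h1 : ‖∫ x in a..b, e (A x)‖ = ‖∫ x in (-b)..(-a), e (A (-x))‖ := by
    rw [intervalIntegral.integral_comp_neg (fun x => e (A x)), neg_neg, neg_neg]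
  rw [h1]
  have hm : ∀ x ∈ Set.Icc (-b) (-a), -x ∈ Set.Icc a b := by
    intro x hx; constructor <;> linarith [hx.1, hx.2]
  apply second_deriv_right (by linarith) hμ (fun x => A (-x)) (fun x => -(y (-x))) (fun x => y' (-x))
  · intro x hx
    have h2 := (hA (-x) (hm x hx)).scomp x (hasDerivAt_neg x)
    have e1 : (-1 : ℝ) • y (-x) = -(y (-x)) := by simp
    rw [e1] at h2
    exact h2
  · intro x hx
    have h2 := ((hy (-x) (hm x hx)).scomp x (hasDerivAt_neg x)).fun_neg
    have e1 : -((-1 : ℝ) • y' (-x)) = y' (-x) := by simp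
    rw [e1] at h2
    exact h2
  · exact hc.comp continuous_neg.continuousOn hm
  · intro x hx; exact hμy (-x) (hm x hx)
  · simp only [neg_neg]; linarith

/-- Second derivative test. -/
lemma second_deriv {a b μ : ℝ} (hab : a ≤ b) (hμ : 0 < μ) (A y y' : ℝ → ℝ)
    (hA : ∀ x ∈ Set.Icc a b, HasDerivAt A (y x) x)
    (hy : ∀ x ∈ Set.Icc a b, HasDerivAt y (y' x) x)
    (hc : ContinuousOn y' (Set.Icc a b))
    (hμy : ∀ x ∈ Set.Icc a b, μ ≤ y' x) :
    ‖∫ x in a..b, e (A x)‖ ≤ 3 / Real.sqrt μ := by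
  have hSpos : 0 < Real.sqrt μ := Real.sqrt_pos.mpr hμ
  have hpi3 : 1 / Real.pi ≤ 1 / 3 := one_div_le_one_div_of_le (by norm_num) Real.pi_gt_three.le
  have hle : (1 + 1 / Real.pi) / Real.sqrt μ ≤ 3 / Real.sqrt μ := by
    gcongr; linarith
  rcases le_or_gt 0 (y a) with h | h
  · exact (second_deriv_right hab hμ A y y' hA hy hc hμy h).trans hle
  rcases le_or_gt (y b) 0 with h' | h'
  · exact (second_deriv_left hab hμ A y y' hA hy hc hμy h').trans hle
  have hyc : ContinuousOn y (Set.Icc a b) := fun x hx => (hy x hx).continuousAt.continuousWithinAt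
  obtain ⟨c, hcm, hc0⟩ := intermediate_value_Icc hab hyc ⟨h.le, h'.le⟩
  have hec : ContinuousOn (fun x => e (A x)) (Set.Icc a b) :=
    e_continuous.comp_continuousOn (fun x hx => (hA x hx).continuousAt.continuousWithinAt)
  have hs1 : Set.Icc a c ⊆ Set.Icc a b := Set.Icc_subset_Icc le_rfl hcm.2
  have hs2 : Set.Icc c b ⊆ Set.Icc a b := Set.Icc_subset_Icc hcm.1 le_rfl
  have hi1 : IntervalIntegrable (fun x => e (A x)) volume a c := by
    apply ContinuousOn.intervalIntegrable; rw [Set.uIcc_of_le hcm.1]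
    exact hec.mono hs1
  have hi2 : IntervalIntegrable (fun x => e (A x)) volume c b := by
    apply ContinuousOn.intervalIntegrable; rw [Set.uIcc_of_le hcm.2]
    exact hec.mono hs2
  rw [← intervalIntegral.integral_add_adjacent_intervals hi1 hi2]
  have h1 := second_deriv_left hcm.1 hμ A y y' (fun x hx => hA x (hs1 hx)) (fun x hx => hy x (hs1 hx))
    (hc.mono hs1) (fun x hx => hμy x (hs1 hx)) hc0.le
  have h2 := second_deriv_right hcm.2 hμ A y y' (fun x hx => hA x (hs2 hx)) (fun x hx => hy x (hs2 hx))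
    (hc.mono hs2) (fun x hx => hμy x (hs2 hx)) hc0.ge
  calc _ ≤ ‖∫ x in a..c, e (A x)‖ + ‖∫ x in c..b, e (A x)‖ := norm_add_le _ _
    _ ≤ (1 + 1 / Real.pi) / Real.sqrt μ + (1 + 1 / Real.pi) / Real.sqrt μ := add_le_add h1 h2
    _ = (2 * (1 + 1 / Real.pi)) / Real.sqrt μ := by ring
    _ ≤ 3 / Real.sqrt μ := by gcongr; linarith

/-- Stationary phase upper bound with sharp leading constant. -/
lemma stationary {T τ μ X₂ t₀ : ℝ} (hτ : 0 < τ) (hμ : 0 < μ) (hX : 0 ≤ X₂)
    (h1 : τ ≤ t₀) (h2 : t₀ ≤ T - τ) (A y y' : ℝ → ℝ)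
    (hA : ∀ x ∈ Set.Icc 0 T, HasDerivAt A (y x) x)
    (hy : ∀ x ∈ Set.Icc 0 T, HasDerivAt y (y' x) x)
    (hc : ContinuousOn y' (Set.Icc 0 T))
    (hμy : ∀ x ∈ Set.Icc 0 T, μ ≤ y' x)
    (hLip : ∀ x ∈ Set.Icc (t₀ - τ) (t₀ + τ), |y' x - y' t₀| ≤ X₂ * τ)
    (h0 : y t₀ = 0) :
    ‖∫ x in (0 : ℝ)..T, e (A x)‖ ≤ 1 / Real.sqrt (y' t₀) + 2 / (μ * τ) + 13 * X₂ * τ ^ 4 := by
  have ht0 : t₀ ∈ Set.Icc 0 T := ⟨by linarith, by linarith⟩
  set lam := y' t₀ with hlam
  have hlamμ : μ ≤ lam := hμy t₀ ht0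
  have hlampos : 0 < lam := lt_of_lt_of_le hμ hlamμ
  have hpi := Real.pi_pos
  have hec : ContinuousOn (fun x => e (A x)) (Set.Icc 0 T) :=
    e_continuous.comp_continuousOn (fun x hx => (hA x hx).continuousAt.continuousWithinAt)
  have hii : ∀ p q : ℝ, 0 ≤ p → p ≤ q → q ≤ T → IntervalIntegrable (fun x => e (A x)) volume p q := by
    intro p q hp hpq hq
    apply ContinuousOn.intervalIntegrable; rw [Set.uIcc_of_le hpq]
    exact hec.mono (Set.Icc_subset_Icc hp hq)
  have hsplit : ∫ x in (0 : ℝ)..T, e (A x) = (∫ x in (0 : ℝ)..(t₀ - τ), e (A x)) +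
      (∫ x in (t₀ - τ)..(t₀ + τ), e (A x)) + ∫ x in (t₀ + τ)..T, e (A x) := by
    rw [intervalIntegral.integral_add_adjacent_intervals (hii _ _ le_rfl (by linarith) (by linarith))
        (hii _ _ (by linarith) (by linarith) (by linarith)),
      intervalIntegral.integral_add_adjacent_intervals (hii _ _ le_rfl (by linarith) (by linarith))
        (hii _ _ (by linarith) (by linarith) le_rfl)]
  have hL : ‖∫ x in (0 : ℝ)..(t₀ - τ), e (A x)‖ ≤ 1 / (Real.pi * (μ * τ)) := by
    have hs : Set.Icc 0 (t₀ - τ) ⊆ Set.Icc 0 T := Set.Icc_subset_Icc le_rfl (by linarith)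
    apply first_deriv_neg (by linarith) (by positivity) A y y' (fun x hx => hA x (hs hx))
      (fun x hx => hy x (hs hx)) (hc.mono hs)
    · intro x hx
      have h3 := growth y y' hy hμy (s := x) (t := t₀) (hs hx) ht0 (by linarith [hx.2])
      rw [h0] at h3
      have h4 : μ * τ ≤ μ * (t₀ - x) := by
        apply mul_le_mul_of_nonneg_left _ hμ.le; linarith [hx.2]
      linarith
    · intro x hx; exact hμ.le.trans (hμy x (hs hx))
  have hR : ‖∫ x in (t₀ + τ)..T, e (A x)‖ ≤ 1 / (Real.pi * (μ * τ)) := by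
    have hs : Set.Icc (t₀ + τ) T ⊆ Set.Icc 0 T := Set.Icc_subset_Icc (by linarith) le_rfl
    apply first_deriv (by linarith) (by positivity) A y y' (fun x hx => hA x (hs hx))
      (fun x hx => hy x (hs hx)) (hc.mono hs)
    · intro x hx
      have h3 := growth y y' hy hμy (s := t₀) (t := x) ht0 (hs hx) (by linarith [hx.1])
      rw [h0] at h3
      have h4 : μ * τ ≤ μ * (x - t₀) := by
        apply mul_le_mul_of_nonneg_left _ hμ.le; linarith [hx.1]
      linarith
    · left; intro x hx; exact hμ.le.trans (hμy x (hs hx))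
  -- window
  have hwin : Set.Icc (t₀ - τ) (t₀ + τ) ⊆ Set.Icc 0 T := Set.Icc_subset_Icc (by linarith) (by linarith)
  have ht0w : t₀ ∈ Set.Icc (t₀ - τ) (t₀ + τ) := ⟨by linarith, by linarith⟩
  have hE1 : ∀ x ∈ Set.Icc (t₀ - τ) (t₀ + τ), |y x - lam * (x - t₀)| ≤ X₂ * τ ^ 2 := by
    intro x hx
    have hder : ∀ z ∈ Set.Icc (t₀ - τ) (t₀ + τ), HasDerivWithinAt (fun z => y z - lam * (z - t₀))
        (y' z - lam) (Set.Icc (t₀ - τ) (t₀ + τ)) z := by
      intro z hz
      have h3 : HasDerivAt (fun z : ℝ => lam * (z - t₀)) lam z := by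
        have := ((hasDerivAt_id' z).sub_const t₀).const_mul lam
        simpa using this
      exact ((hy z (hwin hz)).fun_sub h3).hasDerivWithinAt
    have h4 := (convex_Icc (t₀ - τ) (t₀ + τ)).norm_image_sub_le_of_norm_hasDerivWithin_le hder
      (C := X₂ * τ) (fun z hz => by rw [Real.norm_eq_abs]; exact hLip z hz) ht0w hx
    rw [h0, sub_self, mul_zero, sub_zero, sub_zero, Real.norm_eq_abs, Real.norm_eq_abs] at h4
    have h5 : |x - t₀| ≤ τ := by rw [abs_le]; constructor <;> linarith [hx.1, hx.2]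
    calc |y x - lam * (x - t₀)| ≤ X₂ * τ * |x - t₀| := h4
      _ ≤ X₂ * τ * τ := by gcongr
      _ = X₂ * τ ^ 2 := by ring
  have hE2 : ∀ x ∈ Set.Icc (t₀ - τ) (t₀ + τ), |A x - A t₀ - lam * (x - t₀) ^ 2 / 2| ≤ X₂ * τ ^ 3 := by
    intro x hx
    have hder : ∀ z ∈ Set.Icc (t₀ - τ) (t₀ + τ), HasDerivWithinAt
        (fun z => A z - lam * (z - t₀) ^ 2 / 2)
        (y z - lam * (z - t₀)) (Set.Icc (t₀ - τ) (t₀ + τ)) z := by
      intro z hz
      have h3 : HasDerivAt (fun z : ℝ => lam * (z - t₀) ^ 2 / 2) (lam * (z - t₀)) z := by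
        have h5 := ((((hasDerivAt_id' z).sub_const t₀).fun_pow 2).const_mul lam).div_const 2
        have e1 : lam * (((2 : ℕ) : ℝ) * (z - t₀) ^ (2 - 1) * 1) / 2 = lam * (z - t₀) := by
          norm_num; ring
        rw [e1] at h5
        exact h5
      exact ((hA z (hwin hz)).fun_sub h3).hasDerivWithinAt
    have h4 := (convex_Icc (t₀ - τ) (t₀ + τ)).norm_image_sub_le_of_norm_hasDerivWithin_le hder
      (C := X₂ * τ ^ 2) (fun z hz => by rw [Real.norm_eq_abs]; exact hE1 z hz) ht0w hx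
    rw [Real.norm_eq_abs, Real.norm_eq_abs] at h4
    have h5 : |x - t₀| ≤ τ := by rw [abs_le]; constructor <;> linarith [hx.1, hx.2]
    have e2 : A x - lam * (x - t₀) ^ 2 / 2 - (A t₀ - lam * (t₀ - t₀) ^ 2 / 2) =
        A x - A t₀ - lam * (x - t₀) ^ 2 / 2 := by ring
    rw [e2] at h4
    calc _ ≤ X₂ * τ ^ 2 * |x - t₀| := h4
      _ ≤ X₂ * τ ^ 2 * τ := by gcongr
      _ = X₂ * τ ^ 3 := by ring
  have hM : ‖∫ x in (t₀ - τ)..(t₀ + τ), e (A x)‖ ≤ 1 / Real.sqrt lam + 1 / (lam * τ) +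
      4 * Real.pi * X₂ * τ ^ 4 := by
    have hq : ‖∫ x in (t₀ - τ)..(t₀ + τ), e (A t₀) * e (lam * (x - t₀) ^ 2 / 2)‖ ≤
        1 / Real.sqrt lam + 1 / (lam * τ) := by
      rw [intervalIntegral.integral_const_mul, norm_mul, e_norm, one_mul]
      have h3 : ∫ x in (t₀ - τ)..(t₀ + τ), e (lam * (x - t₀) ^ 2 / 2) =
          ∫ v in (-τ)..τ, e (lam * v ^ 2 / 2) := by
        rw [intervalIntegral.integral_comp_sub_right (fun v => e (lam * v ^ 2 / 2)) t₀]
        congr 1 <;> ring
      rw [h3]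
      exact fresnel_scaled hlampos hτ
    have hcw : ContinuousOn (fun x => e (A x)) (Set.Icc (t₀ - τ) (t₀ + τ)) := hec.mono hwin
    have hcq : Continuous (fun x : ℝ => e (A t₀) * e (lam * (x - t₀) ^ 2 / 2)) :=
      continuous_const.mul (e_continuous.comp (by fun_prop))
    have hdiff : ‖(∫ x in (t₀ - τ)..(t₀ + τ), e (A x)) -
        ∫ x in (t₀ - τ)..(t₀ + τ), e (A t₀) * e (lam * (x - t₀) ^ 2 / 2)‖ ≤
        4 * Real.pi * X₂ * τ ^ 4 := by
      rw [← intervalIntegral.integral_sub]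
      · have h5 := intervalIntegral.norm_integral_le_of_norm_le_const (a := t₀ - τ) (b := t₀ + τ)
          (f := fun x => e (A x) - e (A t₀) * e (lam * (x - t₀) ^ 2 / 2))
          (C := 2 * Real.pi * (X₂ * τ ^ 3)) (by
            intro x hx
            rw [Set.uIoc_of_le (by linarith)] at hx
            have hx' : x ∈ Set.Icc (t₀ - τ) (t₀ + τ) := ⟨hx.1.le, hx.2⟩
            have e3 : e (A x) - e (A t₀) * e (lam * (x - t₀) ^ 2 / 2) =
                (e (A t₀) * e (lam * (x - t₀) ^ 2 / 2)) *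
                (e (A x - A t₀ - lam * (x - t₀) ^ 2 / 2) - 1) := by
              have : e (A x) = e (A t₀) * e (lam * (x - t₀) ^ 2 / 2) *
                  e (A x - A t₀ - lam * (x - t₀) ^ 2 / 2) := by
                rw [← e_add, ← e_add]; congr 1; ring
              rw [this]; ring
            rw [e3, norm_mul, norm_mul, e_norm, e_norm, one_mul, one_mul]
            refine (e_sub_one_norm _).trans ?_
            have := hE2 x hx'
            gcongr)
        refine h5.trans (le_of_eq ?_)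
        rw [abs_of_nonneg (by linarith)]
        ring
      · apply ContinuousOn.intervalIntegrable
        rwa [Set.uIcc_of_le (by linarith)]
      · exact hcq.intervalIntegrable _ _
    have h6 : ∫ x in (t₀ - τ)..(t₀ + τ), e (A x) =
        ((∫ x in (t₀ - τ)..(t₀ + τ), e (A x)) -
        ∫ x in (t₀ - τ)..(t₀ + τ), e (A t₀) * e (lam * (x - t₀) ^ 2 / 2)) +
        ∫ x in (t₀ - τ)..(t₀ + τ), e (A t₀) * e (lam * (x - t₀) ^ 2 / 2) := by ring
    rw [h6]
    refine (norm_add_le _ _).trans ?_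
    linarith
  rw [hsplit]
  have hfin1 : 1 / (lam * τ) ≤ 1 / (μ * τ) := by gcongr
  have hfin2 : 1 / (Real.pi * (μ * τ)) ≤ (1 / 3) * (1 / (μ * τ)) := by
    rw [one_div_mul_one_div]
    apply one_div_le_one_div_of_le (by positivity)
    gcongr
    exact Real.pi_gt_three.le
  have hfin3 : 4 * Real.pi * X₂ * τ ^ 4 ≤ 13 * X₂ * τ ^ 4 := by
    have : 4 * Real.pi ≤ 13 := by linarith [Real.pi_lt_d2]
    gcongr
  have hpos : 0 < 1 / (μ * τ) := by positivity
  have hfin4 : 2 / (μ * τ) = 2 * (1 / (μ * τ)) := by ring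
  rw [hfin4]
  calc _ ≤ ‖∫ x in (0 : ℝ)..(t₀ - τ), e (A x)‖ + ‖∫ x in (t₀ - τ)..(t₀ + τ), e (A x)‖ +
        ‖∫ x in (t₀ + τ)..T, e (A x)‖ := norm_add₃_le
    _ ≤ _ := by linarith

end Pool.Agent.Helper523.UF
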