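import Mathlib
import Pool.Agent.Helper523.UF.StatPhase

set_option autoImplicit false

namespace Pool.Agent.Helper523.UF

open MeasureTheory Filter Topology

/-- derivative of the time profile -/
noncomputable def kap' (η : ℝ) (N : ℕ) (θ : ℝ) : ℝ := (1 + η) + 64 * ((1 - θ) ^ N + θ ^ N)

/-- time profile -/
noncomputable def kap (η : ℝ) (N : ℕ) (θ : ℝ) : ℝ :=
  (1 + η) * θ + 64 / ((N : ℝ) + 1) * (1 - (1 - θ) ^ (N + 1) + θ ^ (N + 1))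

lemma kap_hasDerivAt (η : ℝ) (N : ℕ) (θ : ℝ) : HasDerivAt (kap η N) (kap' η N θ) θ := by
  unfold kap kap'
  have h1 : HasDerivAt (fun θ : ℝ => (1 + η) * θ) (1 + η) θ := by
    simpa using (hasDerivAt_id' θ).const_mul (1 + η)
  have h2 : HasDerivAt (fun θ : ℝ => (1 - θ) ^ (N + 1)) (-(((N : ℝ) + 1) * (1 - θ) ^ N)) θ := by
    have h := ((hasDerivAt_id' θ).const_sub 1).fun_pow (N + 1)
    have e1 : ((N + 1 : ℕ) : ℝ) * (1 - θ) ^ (N + 1 - 1) * -1 = -(((N : ℝ) + 1) * (1 - θ) ^ N) := by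
      push_cast; simp
    rw [e1] at h
    exact h
  have h3 : HasDerivAt (fun θ : ℝ => θ ^ (N + 1)) (((N : ℝ) + 1) * θ ^ N) θ := by
    have h := (hasDerivAt_id' θ).fun_pow (N + 1)
    have e1 : ((N + 1 : ℕ) : ℝ) * θ ^ (N + 1 - 1) * 1 = (((N : ℝ) + 1) * θ ^ N) := by
      push_cast; simp
    rw [e1] at h
    exact h
  have h4 := h1.fun_add (((h2.const_sub 1).fun_add h3).const_mul (64 / ((N : ℝ) + 1)))
  have hN : ((N : ℝ) + 1) ≠ 0 := by positivity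
  have e2 : (1 + η) + 64 / ((N : ℝ) + 1) * (-(-(((N : ℝ) + 1) * (1 - θ) ^ N)) + ((N : ℝ) + 1) * θ ^ N) =
      (1 + η) + 64 * ((1 - θ) ^ N + θ ^ N) := by
    field_simp
  rw [e2] at h4
  exact h4

lemma kap_zero (η : ℝ) (N : ℕ) : kap η N 0 = 0 := by
  unfold kap; simp

section bounds

variable {η : ℝ} {N : ℕ}

lemma kap'_lower (hη : 0 ≤ η) {θ : ℝ} (h0 : 0 ≤ θ) (h1 : θ ≤ 1) : 1 + η ≤ kap' η N θ := by
  unfold kap'
  have h2 : 0 ≤ (1 - θ) ^ N := pow_nonneg (by linarith) _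
  have h3 : 0 ≤ θ ^ N := pow_nonneg h0 _
  linarith

lemma kap'_upper (hη1 : η ≤ 1) {θ : ℝ} (h0 : 0 ≤ θ) (h1 : θ ≤ 1) : kap' η N θ ≤ 130 := by
  unfold kap'
  have h2 : (1 - θ) ^ N ≤ 1 := pow_le_one₀ (by linarith) (by linarith)
  have h3 : θ ^ N ≤ 1 := pow_le_one₀ h0 h1
  linarith

lemma kap'_left (hη : 0 ≤ η) {θ c : ℝ} (h0 : 0 ≤ θ) (h1 : θ ≤ 1) (hc : θ ≤ c) (hNc : N * c ≤ 1 / 5) :
    50 ≤ kap' η N θ := by
  unfold kap'
  have h2 : 1 - N * θ ≤ (1 - θ) ^ N := by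
    have := one_add_mul_le_pow (a := -θ) (by linarith) N
    calc 1 - N * θ = 1 + N * -θ := by ring
      _ ≤ (1 + -θ) ^ N := this
      _ = (1 - θ) ^ N := by ring
  have h3 : 0 ≤ θ ^ N := pow_nonneg h0 _
  have h4 : (N : ℝ) * θ ≤ N * c := by gcongr
  linarith

lemma kap'_right (hη : 0 ≤ η) {θ c : ℝ} (h0 : 0 ≤ θ) (h1 : θ ≤ 1) (hc : 1 - c ≤ θ)
    (hNc : N * c ≤ 1 / 5) : 50 ≤ kap' η N θ := by
  unfold kap'
  have h2 : 1 - N * (1 - θ) ≤ θ ^ N := by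
    have := one_add_mul_le_pow (a := -(1 - θ)) (by linarith) N
    calc 1 - N * (1 - θ) = 1 + N * -(1 - θ) := by ring
      _ ≤ (1 + -(1 - θ)) ^ N := this
      _ = θ ^ N := by ring
  have h3 : 0 ≤ (1 - θ) ^ N := pow_nonneg (by linarith) _
  have h4 : (N : ℝ) * (1 - θ) ≤ N * c := by
    apply mul_le_mul_of_nonneg_left _ (Nat.cast_nonneg N); linarith
  linarith

lemma kap'_lip {s t : ℝ} (hs : s ∈ Set.Icc (0 : ℝ) 1) (ht : t ∈ Set.Icc (0 : ℝ) 1) :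
    |kap' η N s - kap' η N t| ≤ 128 * N * |s - t| := by
  have hder : ∀ z ∈ Set.Icc (0 : ℝ) 1, HasDerivWithinAt (kap' η N)
      (64 * (-((N : ℝ) * (1 - z) ^ (N - 1)) + (N : ℝ) * z ^ (N - 1))) (Set.Icc (0 : ℝ) 1) z := by
    intro z _
    unfold kap'
    have h2 : HasDerivAt (fun θ : ℝ => (1 - θ) ^ N) (-((N : ℝ) * (1 - z) ^ (N - 1))) z := by
      have h := ((hasDerivAt_id' z).const_sub 1).fun_pow N
      have e1 : (N : ℝ) * (1 - z) ^ (N - 1) * -1 = -((N : ℝ) * (1 - z) ^ (N - 1)) := by ring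
      rw [e1] at h
      exact h
    have h3 : HasDerivAt (fun θ : ℝ => θ ^ N) ((N : ℝ) * z ^ (N - 1)) z := by
      have h := (hasDerivAt_id' z).fun_pow N
      have e1 : (N : ℝ) * z ^ (N - 1) * 1 = ((N : ℝ) * z ^ (N - 1)) := by ring
      rw [e1] at h
      exact h
    exact (((h2.fun_add h3).const_mul 64).const_add (1 + η)).hasDerivWithinAt
  have hb : ∀ z ∈ Set.Icc (0 : ℝ) 1,
      ‖64 * (-((N : ℝ) * (1 - z) ^ (N - 1)) + (N : ℝ) * z ^ (N - 1))‖ ≤ 128 * N := by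
    intro z hz
    have h1 : (1 - z) ^ (N - 1) ≤ 1 := pow_le_one₀ (by linarith [hz.2]) (by linarith [hz.1])
    have h2 : z ^ (N - 1) ≤ 1 := pow_le_one₀ hz.1 hz.2
    have h3 : 0 ≤ (1 - z) ^ (N - 1) := pow_nonneg (by linarith [hz.2]) _
    have h4 : 0 ≤ z ^ (N - 1) := pow_nonneg hz.1 _
    have hN : (0 : ℝ) ≤ N := Nat.cast_nonneg N
    have h5 : (N : ℝ) * (1 - z) ^ (N - 1) ≤ N := by nlinarith
    have h6 : (N : ℝ) * z ^ (N - 1) ≤ N := by nlinarith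
    have h7 : 0 ≤ (N : ℝ) * (1 - z) ^ (N - 1) := by positivity
    have h8 : 0 ≤ (N : ℝ) * z ^ (N - 1) := mul_nonneg hN h4
    rw [Real.norm_eq_abs, abs_le]
    constructor <;> linarith
  have h := (convex_Icc (0 : ℝ) 1).norm_image_sub_le_of_norm_hasDerivWithin_le hder hb ht hs
  rw [Real.norm_eq_abs, Real.norm_eq_abs] at h
  exact h

lemma kap_nonneg (hη : 0 ≤ η) {θ : ℝ} (h0 : 0 ≤ θ) (h1 : θ ≤ 1) : 0 ≤ kap η N θ := by
  unfold kap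
  have h2 : (1 - θ) ^ (N + 1) ≤ 1 := pow_le_one₀ (by linarith) (by linarith)
  have h3 : 0 ≤ θ ^ (N + 1) := pow_nonneg h0 _
  have h4 : 0 ≤ 64 / ((N : ℝ) + 1) := by positivity
  have h5 : 0 ≤ 64 / ((N : ℝ) + 1) * (1 - (1 - θ) ^ (N + 1) + θ ^ (N + 1)) :=
    mul_nonneg h4 (by linarith)
  have h6 : 0 ≤ (1 + η) * θ := by positivity
  linarith

lemma kap_upper (hη : 0 ≤ η) {θ : ℝ} (h0 : 0 ≤ θ) (h1 : θ ≤ 1) :
    kap η N θ ≤ 1 + η + 128 / ((N : ℝ) + 1) := by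
  unfold kap
  have h2 : 0 ≤ (1 - θ) ^ (N + 1) := pow_nonneg (by linarith) _
  have h3 : θ ^ (N + 1) ≤ 1 := pow_le_one₀ h0 h1
  have h4 : 0 ≤ 64 / ((N : ℝ) + 1) := by positivity
  have h5 : 64 / ((N : ℝ) + 1) * (1 - (1 - θ) ^ (N + 1) + θ ^ (N + 1)) ≤ 64 / ((N : ℝ) + 1) * 2 :=
    mul_le_mul_of_nonneg_left (by linarith) h4
  have h6 : 64 / ((N : ℝ) + 1) * 2 = 128 / ((N : ℝ) + 1) := by ring
  nlinarith

lemma kap_lower (hη : 0 ≤ η) {θ : ℝ} (h0 : 0 ≤ θ) (h1 : θ ≤ 1) : θ ≤ kap η N θ := by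
  unfold kap
  have h2 : (1 - θ) ^ (N + 1) ≤ 1 := pow_le_one₀ (by linarith) (by linarith)
  have h3 : 0 ≤ θ ^ (N + 1) := pow_nonneg h0 _
  have h4 : 0 ≤ 64 / ((N : ℝ) + 1) := by positivity
  have h5 : 0 ≤ 64 / ((N : ℝ) + 1) * (1 - (1 - θ) ^ (N + 1) + θ ^ (N + 1)) :=
    mul_nonneg h4 (by linarith)
  nlinarith

end bounds

/-- the cube of the frequency -/
noncomputable def gg (H η x₀ : ℝ) (N : ℕ) (θ : ℝ) : ℝ := x₀ ^ 3 + 3 * H ^ 2 * kap η N θ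

/-- the frequency in the main zone -/
noncomputable def xm (H η x₀ : ℝ) (N : ℕ) (θ : ℝ) : ℝ := (gg H η x₀ N θ) ^ (1 / 3 : ℝ)

/-- derivative of the frequency -/
noncomputable def xm' (H η x₀ : ℝ) (N : ℕ) (θ : ℝ) : ℝ := H ^ 2 * kap' η N θ / (xm H η x₀ N θ) ^ 2

section xmsec

variable {H η x₀ : ℝ} {N : ℕ}

lemma kap_continuous (η : ℝ) (N : ℕ) : Continuous (kap η N) :=
  continuous_iff_continuousAt.mpr fun x => (kap_hasDerivAt η N x).continuousAt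

lemma kap'_continuous (η : ℝ) (N : ℕ) : Continuous (kap' η N) := by unfold kap'; fun_prop

lemma xm_continuous (H η x₀ : ℝ) (N : ℕ) : Continuous (xm H η x₀ N) := by
  unfold xm gg
  have h1 : Continuous (fun θ => x₀ ^ 3 + 3 * H ^ 2 * kap η N θ) :=
    continuous_const.add (continuous_const.mul (kap_continuous η N))
  exact h1.rpow_const (fun _ => Or.inr (by norm_num))

lemma gg_ge (hη : 0 ≤ η) {θ : ℝ} (h0 : 0 ≤ θ) (h1 : θ ≤ 1) : x₀ ^ 3 ≤ gg H η x₀ N θ := by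
  unfold gg
  have := kap_nonneg (N := N) hη h0 h1
  have : 0 ≤ 3 * H ^ 2 * kap η N θ := by positivity
  linarith

lemma xm_cube (hx : 0 < x₀) (hη : 0 ≤ η) {θ : ℝ} (h0 : 0 ≤ θ) (h1 : θ ≤ 1) :
    (xm H η x₀ N θ) ^ 3 = gg H η x₀ N θ := by
  have hg : 0 ≤ gg H η x₀ N θ := le_trans (by positivity) (gg_ge hη h0 h1)
  unfold xm
  rw [← Real.rpow_natCast, ← Real.rpow_mul hg]
  norm_num

lemma xm_nonneg (hx : 0 < x₀) (hη : 0 ≤ η) {θ : ℝ} (h0 : 0 ≤ θ) (h1 : θ ≤ 1) :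
    0 ≤ xm H η x₀ N θ := by
  have hg : 0 ≤ gg H η x₀ N θ := le_trans (by positivity) (gg_ge hη h0 h1)
  unfold xm
  exact Real.rpow_nonneg hg _

lemma xm_ge (hx : 0 < x₀) (hη : 0 ≤ η) {θ : ℝ} (h0 : 0 ≤ θ) (h1 : θ ≤ 1) :
    x₀ ≤ xm H η x₀ N θ := by
  have h2 := xm_cube (H := H) (N := N) hx hη h0 h1
  have h3 := gg_ge (H := H) (x₀ := x₀) (N := N) hη h0 h1
  rw [← h2] at h3
  exact le_of_pow_le_pow_left₀ (by norm_num) (xm_nonneg hx hη h0 h1) h3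

lemma xm_zero (hx : 0 < x₀) (hη : 0 ≤ η) : xm H η x₀ N 0 = x₀ := by
  have h2 := xm_cube (H := H) (N := N) hx hη le_rfl zero_le_one
  unfold gg at h2
  rw [kap_zero, mul_zero, add_zero] at h2
  exact (pow_left_inj₀ (xm_nonneg hx hη le_rfl zero_le_one) hx.le (by norm_num)).mp h2

lemma xm_hasDerivAt (hx : 0 < x₀) (hη : 0 ≤ η) {θ : ℝ} (h0 : 0 ≤ θ) (h1 : θ ≤ 1) :
    HasDerivAt (xm H η x₀ N) (xm' H η x₀ N θ) θ := by
  have hg : 0 < gg H η x₀ N θ := lt_of_lt_of_le (by positivity) (gg_ge hη h0 h1)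
  have hd : HasDerivAt (gg H η x₀ N) (3 * H ^ 2 * kap' η N θ) θ := by
    unfold gg
    exact ((kap_hasDerivAt η N θ).const_mul (3 * H ^ 2)).const_add (x₀ ^ 3)
  have h2 := hd.rpow_const (p := (1 / 3 : ℝ)) (Or.inl hg.ne')
  have hxm : 0 < xm H η x₀ N θ := lt_of_lt_of_le hx (xm_ge hx hη h0 h1)
  have e1 : 3 * H ^ 2 * kap' η N θ * (1 / 3) * gg H η x₀ N θ ^ ((1 / 3 : ℝ) - 1) =
      xm' H η x₀ N θ := by
    unfold xm'
    have h3 : gg H η x₀ N θ ^ ((1 / 3 : ℝ) - 1) = 1 / (xm H η x₀ N θ) ^ 2 := by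
      rw [eq_div_iff (by positivity)]
      unfold xm
      rw [← Real.rpow_natCast, ← Real.rpow_mul hg.le, ← Real.rpow_add hg]
      norm_num
    rw [h3]; ring
  rw [e1] at h2
  exact h2

lemma xm'_lower (hx : 0 < x₀) (hη : 0 ≤ η) {θ B c : ℝ} (h0 : 0 ≤ θ) (h1 : θ ≤ 1)
    (hB : xm H η x₀ N θ ≤ B) (hc : c ≤ kap' η N θ) (hc0 : 0 ≤ c) :
    H ^ 2 * c / B ^ 2 ≤ xm' H η x₀ N θ := by
  unfold xm'
  have hxm : 0 < xm H η x₀ N θ := lt_of_lt_of_le hx (xm_ge hx hη h0 h1)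
  have hk : 0 ≤ kap' η N θ := hc0.trans hc
  have : 0 ≤ H ^ 2 * kap' η N θ := by positivity
  gcongr

lemma xm'_pos (hH : 0 < H) (hx : 0 < x₀) (hη : 0 ≤ η) {θ : ℝ} (h0 : 0 ≤ θ) (h1 : θ ≤ 1) :
    0 < xm' H η x₀ N θ := by
  unfold xm'
  have hxm : 0 < xm H η x₀ N θ := lt_of_lt_of_le hx (xm_ge hx hη h0 h1)
  have := kap'_lower (N := N) hη h0 h1
  have : 0 < kap' η N θ := by linarith
  positivity

lemma xm'_upper (hx : 0 < x₀) (hη : 0 ≤ η) (hη1 : η ≤ 1) {θ : ℝ} (h0 : 0 ≤ θ) (h1 : θ ≤ 1) :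
    xm' H η x₀ N θ ≤ 130 * H ^ 2 / x₀ ^ 2 := by
  unfold xm'
  have hxm := xm_ge (H := H) (N := N) hx hη h0 h1
  have h2 := kap'_upper (N := N) hη1 h0 h1
  have h3 := kap'_lower (N := N) hη h0 h1
  calc H ^ 2 * kap' η N θ / (xm H η x₀ N θ) ^ 2 ≤ H ^ 2 * 130 / x₀ ^ 2 := by gcongr
    _ = _ := by ring

lemma xm_mono (hH : 0 < H) (hx : 0 < x₀) (hη : 0 ≤ η) {s t : ℝ} (hs : s ∈ Set.Icc (0 : ℝ) 1)
    (ht : t ∈ Set.Icc (0 : ℝ) 1) (hst : s ≤ t) : xm H η x₀ N s ≤ xm H η x₀ N t := by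
  have h := growth (xm H η x₀ N) (xm' H η x₀ N) (a := 0) (b := 1) (μ := 0)
    (fun x hx' => xm_hasDerivAt hx hη hx'.1 hx'.2)
    (fun x hx' => (xm'_pos hH hx hη hx'.1 hx'.2).le) hs ht hst
  linarith

lemma xm_lip (hH : 0 < H) (hx : 0 < x₀) (hη : 0 ≤ η) (hη1 : η ≤ 1) {s t : ℝ}
    (hs : s ∈ Set.Icc (0 : ℝ) 1) (ht : t ∈ Set.Icc (0 : ℝ) 1) :
    |xm H η x₀ N s - xm H η x₀ N t| ≤ 130 * H ^ 2 / x₀ ^ 2 * |s - t| := by
  have h := (convex_Icc (0 : ℝ) 1).norm_image_sub_le_of_norm_hasDerivWithin_le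
    (f := xm H η x₀ N) (f' := xm' H η x₀ N) (C := 130 * H ^ 2 / x₀ ^ 2)
    (fun z hz => (xm_hasDerivAt hx hη hz.1 hz.2).hasDerivWithinAt)
    (fun z hz => by
      rw [Real.norm_eq_abs, abs_of_pos (xm'_pos hH hx hη hz.1 hz.2)]
      exact xm'_upper hx hη hη1 hz.1 hz.2) ht hs
  rw [Real.norm_eq_abs, Real.norm_eq_abs] at h
  exact h

lemma xm'_continuousOn (hx : 0 < x₀) (hη : 0 ≤ η) : ContinuousOn (xm' H η x₀ N) (Set.Icc 0 1) := by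
  unfold xm'
  apply ContinuousOn.div
  · exact (continuous_const.mul (kap'_continuous η N)).continuousOn
  · exact ((xm_continuous H η x₀ N).pow 2).continuousOn
  · intro θ hθ
    have := lt_of_lt_of_le hx (xm_ge (H := H) (N := N) hx hη hθ.1 hθ.2)
    positivity

/-- Lipschitz bound for the derivative of the frequency. -/
lemma xm'_lip (hH : 0 < H) (hx : 0 < x₀) (hη : 0 ≤ η) (hη1 : η ≤ 1) {B : ℝ}
    (hB : ∀ θ ∈ Set.Icc (0 : ℝ) 1, xm H η x₀ N θ ≤ B) {s t : ℝ}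
    (hs : s ∈ Set.Icc (0 : ℝ) 1) (ht : t ∈ Set.Icc (0 : ℝ) 1) :
    |xm' H η x₀ N s - xm' H η x₀ N t| ≤
      (128 * N * H ^ 2 / x₀ ^ 2 + 33800 * B * H ^ 4 / x₀ ^ 6) * |s - t| := by
  set a := xm H η x₀ N s with ha
  set b := xm H η x₀ N t with hb
  have ha0 : x₀ ≤ a := xm_ge hx hη hs.1 hs.2
  have hb0 : x₀ ≤ b := xm_ge hx hη ht.1 ht.2
  have hapos : 0 < a := lt_of_lt_of_le hx ha0
  have hbpos : 0 < b := lt_of_lt_of_le hx hb0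
  have haB : a ≤ B := hB s hs
  have hbB : b ≤ B := hB t ht
  have hk1 := kap'_lip (η := η) (N := N) hs ht
  have hk2 := kap'_upper (N := N) hη1 ht.1 ht.2
  have hk3 := kap'_lower (N := N) hη ht.1 ht.2
  have hk3' : 0 ≤ kap' η N t := by linarith
  have hab := xm_lip (N := N) hH hx hη hη1 hs ht
  rw [← ha, ← hb] at hab
  have e1 : xm' H η x₀ N s - xm' H η x₀ N t = H ^ 2 * ((kap' η N s - kap' η N t) / a ^ 2) +
      H ^ 2 * (kap' η N t * ((b - a) * (b + a) / (a ^ 2 * b ^ 2))) := by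
    unfold xm'
    rw [← ha, ← hb]
    field_simp
    ring
  rw [e1]
  have t1 : |H ^ 2 * ((kap' η N s - kap' η N t) / a ^ 2)| ≤ 128 * N * H ^ 2 / x₀ ^ 2 * |s - t| := by
    rw [abs_mul, abs_div, abs_of_pos (by positivity : (0:ℝ) < H ^ 2), abs_of_pos (by positivity : (0:ℝ) < a ^ 2)]
    calc H ^ 2 * (|kap' η N s - kap' η N t| / a ^ 2) ≤ H ^ 2 * ((128 * N * |s - t|) / x₀ ^ 2) := by
          gcongr
      _ = _ := by ring
  have t2 : |H ^ 2 * (kap' η N t * ((b - a) * (b + a) / (a ^ 2 * b ^ 2)))| ≤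
      33800 * B * H ^ 4 / x₀ ^ 6 * |s - t| := by
    rw [abs_mul, abs_mul, abs_div, abs_mul, abs_of_pos (by positivity : (0:ℝ) < H ^ 2),
      abs_of_nonneg hk3', abs_of_pos (by positivity : (0:ℝ) < b + a),
      abs_of_pos (by positivity : (0:ℝ) < a ^ 2 * b ^ 2)]
    have h1 : |b - a| ≤ 130 * H ^ 2 / x₀ ^ 2 * |s - t| := by rw [abs_sub_comm]; exact hab
    have h2 : b + a ≤ 2 * B := by linarith
    have h3 : x₀ ^ 2 * x₀ ^ 2 ≤ a ^ 2 * b ^ 2 := by gcongr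
    have hBpos : 0 < B := by linarith
    calc H ^ 2 * (kap' η N t * (|b - a| * (b + a) / (a ^ 2 * b ^ 2)))
        ≤ H ^ 2 * (130 * ((130 * H ^ 2 / x₀ ^ 2 * |s - t|) * (2 * B) / (x₀ ^ 2 * x₀ ^ 2))) := by
          gcongr
      _ = _ := by field_simp; ring
  calc _ ≤ |H ^ 2 * ((kap' η N s - kap' η N t) / a ^ 2)| +
        |H ^ 2 * (kap' η N t * ((b - a) * (b + a) / (a ^ 2 * b ^ 2)))| := abs_add_le _ _
    _ ≤ _ := by rw [add_mul]; exact add_le_add t1 t2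

end xmsec

end Pool.Agent.Helper523.UF
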