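import Mathlib
import Pool.Agent.Helper523.UF.Profile

set_option autoImplicit false

namespace Pool.Agent.Helper523.UF

open MeasureTheory Filter Topology

/-- the phase with frequency shifted by `J` -/
noncomputable def AJ (H η x₀ : ℝ) (N : ℕ) (J s : ℝ) : ℝ := ∫ u in (0:ℝ)..s, (xm H η x₀ N u - J)

lemma AJ_hasDerivAt (H η x₀ : ℝ) (N : ℕ) (J s : ℝ) :
    HasDerivAt (AJ H η x₀ N J) (xm H η x₀ N s - J) s := by
  have hc : Continuous (fun u => xm H η x₀ N u - J) := (xm_continuous H η x₀ N).sub continuous_const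
  exact intervalIntegral.integral_hasDerivAt_right (hc.intervalIntegrable _ _)
    (hc.stronglyMeasurableAtFilter _ _) hc.continuousAt

/-- basic positivity conditions on the parameters -/
structure Pars (H η x₀ B τ δ : ℝ) (N : ℕ) : Prop where
  hH : 0 < H
  hx : 0 < x₀
  hη : 0 < η
  hη1 : η ≤ 1
  hτ : 0 < τ
  hδ : 0 < δ
  hsmall : 4 * τ + δ ≤ 1
  hBpos : 0 < B
  hB : ∀ θ ∈ Set.Icc (0 : ℝ) 1, xm H η x₀ N θ ≤ B
  hN : N * (δ + 2 * τ) ≤ 1 / 5

section cases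

variable {H η x₀ B τ δ : ℝ} {N : ℕ}

lemma Pars.mu_le (P : Pars H η x₀ B τ δ N) {θ : ℝ} (hθ : θ ∈ Set.Icc (0 : ℝ) 1) :
    H ^ 2 / B ^ 2 ≤ xm' H η x₀ N θ := by
  have h := xm'_lower (H := H) (N := N) P.hx P.hη.le (c := 1) hθ.1 hθ.2 (P.hB θ hθ)
    ((by linarith [P.hη] : (1 : ℝ) ≤ 1 + η).trans (kap'_lower P.hη.le hθ.1 hθ.2)) zero_le_one
  rwa [mul_one] at h

lemma case_one (P : Pars H η x₀ B τ δ N) {J : ℝ} (hJ : 2 * J ≤ x₀) :
    ‖∫ s in (0 : ℝ)..(1 - δ), e (AJ H η x₀ N J s)‖ ≤ 1 / x₀ := by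
  have hδ := P.hδ
  have hτ := P.hτ
  have hx := P.hx
  have hs := P.hsmall
  have hsub : Set.Icc (0 : ℝ) (1 - δ) ⊆ Set.Icc 0 1 := Set.Icc_subset_Icc le_rfl (by linarith)
  have h := first_deriv (a := 0) (b := 1 - δ) (Y := x₀ / 2) (by linarith) (by positivity)
    (AJ H η x₀ N J) (fun s => xm H η x₀ N s - J) (xm' H η x₀ N)
    (fun s _ => AJ_hasDerivAt H η x₀ N J s)
    (fun s hs => (xm_hasDerivAt P.hx P.hη.le (hsub hs).1 (hsub hs).2).sub_const J)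
    ((xm'_continuousOn P.hx P.hη.le).mono hsub)
    (fun s hs => by
      have := xm_ge (H := H) (N := N) P.hx P.hη.le (hsub hs).1 (hsub hs).2
      linarith)
    (Or.inl (fun s hs => (xm'_pos P.hH P.hx P.hη.le (hsub hs).1 (hsub hs).2).le))
  refine h.trans ?_
  apply one_div_le_one_div_of_le hx
  have := Real.pi_gt_three
  nlinarith

lemma int_split {f : ℝ → ℝ} (hf : Continuous f) (a b c : ℝ) :
    ‖∫ s in a..c, e (f s)‖ ≤ ‖∫ s in a..b, e (f s)‖ + ‖∫ s in b..c, e (f s)‖ := by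
  have hc : Continuous (fun s => e (f s)) := e_continuous.comp hf
  rw [← intervalIntegral.integral_add_adjacent_intervals (hc.intervalIntegrable a b)
    (hc.intervalIntegrable b c)]
  exact norm_add_le _ _

lemma AJ_continuous (H η x₀ : ℝ) (N : ℕ) (J : ℝ) : Continuous (AJ H η x₀ N J) :=
  continuous_iff_continuousAt.mpr fun s => (AJ_hasDerivAt H η x₀ N J s).continuousAt

lemma inv_pi_le {x : ℝ} (hx : 0 < x) : 1 / (Real.pi * x) ≤ 1 / x := by
  apply one_div_le_one_div_of_le hx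
  nlinarith [Real.pi_gt_three]

lemma case_two (P : Pars H η x₀ B τ δ N) {J : ℝ} (hJ : J ≤ xm H η x₀ N τ) :
    ‖∫ s in (0 : ℝ)..(1 - δ), e (AJ H η x₀ N J s)‖ ≤
      3 / 7 * xm H η x₀ N (2 * τ) / H + 1 / (H ^ 2 / B ^ 2 * τ) := by
  have hδ := P.hδ
  have hτ := P.hτ
  have hx := P.hx
  have hs := P.hsmall
  have hH := P.hH
  have hB := P.hBpos
  have hN := P.hN
  have h2τ : (2 * τ) ∈ Set.Icc (0 : ℝ) 1 := ⟨by linarith, by linarith⟩
  have h1τ : τ ∈ Set.Icc (0 : ℝ) 1 := ⟨by linarith, by linarith⟩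
  set B₁ := xm H η x₀ N (2 * τ) with hB1
  have hB1pos : 0 < B₁ := lt_of_lt_of_le hx (xm_ge P.hx P.hη.le h2τ.1 h2τ.2)
  have hsub : Set.Icc (0 : ℝ) (2 * τ) ⊆ Set.Icc 0 1 := Set.Icc_subset_Icc le_rfl (by linarith)
  have hsub2 : Set.Icc (2 * τ) (1 - δ) ⊆ Set.Icc (0 : ℝ) 1 := Set.Icc_subset_Icc (by linarith) (by linarith)
  have h1 : ‖∫ s in (0 : ℝ)..(2 * τ), e (AJ H η x₀ N J s)‖ ≤ 3 / Real.sqrt ((7 * H / B₁) ^ 2) := by
    apply second_deriv (by linarith) (by positivity) (AJ H η x₀ N J) (fun s => xm H η x₀ N s - J)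
      (xm' H η x₀ N) (fun s _ => AJ_hasDerivAt H η x₀ N J s)
      (fun s hs => (xm_hasDerivAt P.hx P.hη.le (hsub hs).1 (hsub hs).2).sub_const J)
      ((xm'_continuousOn P.hx P.hη.le).mono hsub)
    intro s hs
    have h3 := xm'_lower (H := H) (N := N) P.hx P.hη.le (B := B₁) (c := 49) (hsub hs).1 (hsub hs).2
      (xm_mono hH hx P.hη.le (hsub hs) h2τ hs.2)
      ((by norm_num : (49 : ℝ) ≤ 50).trans (kap'_left P.hη.le (hsub hs).1 (hsub hs).2 (c := δ + 2 * τ)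
        (by linarith [hs.2]) hN)) (by norm_num)
    calc (7 * H / B₁) ^ 2 = H ^ 2 * 49 / B₁ ^ 2 := by field_simp; ring
      _ ≤ _ := h3
  rw [Real.sqrt_sq (by positivity)] at h1
  have e1 : 3 / (7 * H / B₁) = 3 / 7 * B₁ / H := by field_simp
  rw [e1] at h1
  have h2 : ‖∫ s in (2 * τ)..(1 - δ), e (AJ H η x₀ N J s)‖ ≤ 1 / (Real.pi * (H ^ 2 / B ^ 2 * τ)) := by
    apply first_deriv (by linarith) (by positivity) (AJ H η x₀ N J) (fun s => xm H η x₀ N s - J)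
      (xm' H η x₀ N) (fun s _ => AJ_hasDerivAt H η x₀ N J s)
      (fun s hs => (xm_hasDerivAt P.hx P.hη.le (hsub2 hs).1 (hsub2 hs).2).sub_const J)
      ((xm'_continuousOn P.hx P.hη.le).mono hsub2)
    · intro s hs
      have h4 := growth (xm H η x₀ N) (xm' H η x₀ N) (a := 0) (b := 1) (μ := H ^ 2 / B ^ 2)
        (fun x hx' => xm_hasDerivAt hx P.hη.le hx'.1 hx'.2)
        (fun x hx' => P.mu_le hx') h1τ (hsub2 hs) (by linarith [hs.1])
      have h5 : H ^ 2 / B ^ 2 * τ ≤ H ^ 2 / B ^ 2 * (s - τ) := by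
        apply mul_le_mul_of_nonneg_left _ (by positivity); linarith [hs.1]
      linarith
    · left
      intro s hs
      exact (xm'_pos P.hH P.hx P.hη.le (hsub2 hs).1 (hsub2 hs).2).le
  have h3 := inv_pi_le (x := H ^ 2 / B ^ 2 * τ) (by positivity)
  have h4 := int_split (AJ_continuous H η x₀ N J) 0 (2 * τ) (1 - δ)
  linarith

lemma case_four (P : Pars H η x₀ B τ δ N) {J : ℝ} (hJ : xm H η x₀ N (1 - δ - τ) ≤ J) :
    ‖∫ s in (0 : ℝ)..(1 - δ), e (AJ H η x₀ N J s)‖ ≤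
      3 / 7 * xm H η x₀ N (1 - δ) / H + 1 / (H ^ 2 / B ^ 2 * τ) := by
  have hδ := P.hδ
  have hτ := P.hτ
  have hx := P.hx
  have hs := P.hsmall
  have hH := P.hH
  have hB := P.hBpos
  have hN := P.hN
  have h2τ : (1 - δ) ∈ Set.Icc (0 : ℝ) 1 := ⟨by linarith, by linarith⟩
  have h1τ : (1 - δ - τ) ∈ Set.Icc (0 : ℝ) 1 := ⟨by linarith, by linarith⟩
  set B₁ := xm H η x₀ N (1 - δ) with hB1
  have hB1pos : 0 < B₁ := lt_of_lt_of_le hx (xm_ge P.hx P.hη.le h2τ.1 h2τ.2)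
  have hsub : Set.Icc (1 - δ - 2 * τ) (1 - δ) ⊆ Set.Icc (0 : ℝ) 1 :=
    Set.Icc_subset_Icc (by linarith) (by linarith)
  have hsub2 : Set.Icc 0 (1 - δ - 2 * τ) ⊆ Set.Icc (0 : ℝ) 1 := Set.Icc_subset_Icc (by linarith) (by linarith)
  have h1 : ‖∫ s in (1 - δ - 2 * τ)..(1 - δ), e (AJ H η x₀ N J s)‖ ≤ 3 / Real.sqrt ((7 * H / B₁) ^ 2) := by
    apply second_deriv (by linarith) (by positivity) (AJ H η x₀ N J) (fun s => xm H η x₀ N s - J)
      (xm' H η x₀ N) (fun s _ => AJ_hasDerivAt H η x₀ N J s)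
      (fun s hs => (xm_hasDerivAt P.hx P.hη.le (hsub hs).1 (hsub hs).2).sub_const J)
      ((xm'_continuousOn P.hx P.hη.le).mono hsub)
    intro s hs
    have h3 := xm'_lower (H := H) (N := N) P.hx P.hη.le (B := B₁) (c := 49) (hsub hs).1 (hsub hs).2
      (xm_mono hH hx P.hη.le (hsub hs) h2τ hs.2)
      ((by norm_num : (49 : ℝ) ≤ 50).trans (kap'_right P.hη.le (hsub hs).1 (hsub hs).2 (c := δ + 2 * τ)
        (by linarith [hs.1]) hN)) (by norm_num)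
    calc (7 * H / B₁) ^ 2 = H ^ 2 * 49 / B₁ ^ 2 := by field_simp; ring
      _ ≤ _ := h3
  rw [Real.sqrt_sq (by positivity)] at h1
  have e1 : 3 / (7 * H / B₁) = 3 / 7 * B₁ / H := by field_simp
  rw [e1] at h1
  have h2 : ‖∫ s in (0 : ℝ)..(1 - δ - 2 * τ), e (AJ H η x₀ N J s)‖ ≤
      1 / (Real.pi * (H ^ 2 / B ^ 2 * τ)) := by
    apply first_deriv_neg (by linarith) (by positivity) (AJ H η x₀ N J) (fun s => xm H η x₀ N s - J)
      (xm' H η x₀ N) (fun s _ => AJ_hasDerivAt H η x₀ N J s)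
      (fun s hs => (xm_hasDerivAt P.hx P.hη.le (hsub2 hs).1 (hsub2 hs).2).sub_const J)
      ((xm'_continuousOn P.hx P.hη.le).mono hsub2)
    · intro s hs
      have h4 := growth (xm H η x₀ N) (xm' H η x₀ N) (a := 0) (b := 1) (μ := H ^ 2 / B ^ 2)
        (fun x hx' => xm_hasDerivAt hx P.hη.le hx'.1 hx'.2)
        (fun x hx' => P.mu_le hx') (hsub2 hs) h1τ (by linarith [hs.2])
      have h5 : H ^ 2 / B ^ 2 * τ ≤ H ^ 2 / B ^ 2 * (1 - δ - τ - s) := by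
        apply mul_le_mul_of_nonneg_left _ (by positivity); linarith [hs.2]
      linarith
    · intro s hs
      exact (xm'_pos P.hH P.hx P.hη.le (hsub2 hs).1 (hsub2 hs).2).le
  have h3 := inv_pi_le (x := H ^ 2 / B ^ 2 * τ) (by positivity)
  have h4 := int_split (AJ_continuous H η x₀ N J) 0 (1 - δ - 2 * τ) (1 - δ)
  linarith

lemma one_div_sqrt_le (hη : 0 ≤ η) (hη1 : η ≤ 1) : 1 / Real.sqrt (1 + η) ≤ 1 - η / 4 := by
  have h1 : 0 < Real.sqrt (1 + η) := Real.sqrt_pos.mpr (by linarith)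
  rw [div_le_iff₀ h1]
  have h2 : 1 / (1 - η / 4) ≤ Real.sqrt (1 + η) := by
    apply Real.le_sqrt_of_sq_le
    rw [div_pow, one_pow, div_le_iff₀ (by apply pow_pos; linarith)]
    nlinarith [mul_nonneg hη (sub_nonneg.mpr hη1), mul_nonneg (mul_nonneg hη hη) hη]
  rw [div_le_iff₀ (by linarith)] at h2
  linarith

lemma case_three (P : Pars H η x₀ B τ δ N) {J : ℝ} (hJ1 : xm H η x₀ N τ ≤ J)
    (hJ2 : J ≤ xm H η x₀ N (1 - δ - τ)) :
    ‖∫ s in (0 : ℝ)..(1 - δ), e (AJ H η x₀ N J s)‖ ≤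
      J * (1 - η / 4) / H + 2 / (H ^ 2 / B ^ 2 * τ) +
        13 * (128 * N * H ^ 2 / x₀ ^ 2 + 33800 * B * H ^ 4 / x₀ ^ 6) * τ ^ 4 := by
  have hδ := P.hδ
  have hτ := P.hτ
  have hx := P.hx
  have hs := P.hsmall
  have hH := P.hH
  have hB := P.hBpos
  have hN := P.hN
  have h1τ : τ ∈ Set.Icc (0 : ℝ) 1 := ⟨by linarith, by linarith⟩
  have hivt := intermediate_value_Icc (a := τ) (b := 1 - δ - τ) (by linarith)
    (xm_continuous H η x₀ N).continuousOn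
  obtain ⟨t₀, ht₀, hJt⟩ := hivt ⟨hJ1, hJ2⟩
  have ht01 : t₀ ∈ Set.Icc (0 : ℝ) 1 := ⟨by linarith [ht₀.1], by linarith [ht₀.2]⟩
  have hsub : Set.Icc (0 : ℝ) (1 - δ) ⊆ Set.Icc 0 1 := Set.Icc_subset_Icc le_rfl (by linarith)
  have hJpos : 0 < J := lt_of_lt_of_le hx ((xm_ge P.hx P.hη.le h1τ.1 h1τ.2).trans hJ1)
  have h := stationary (T := 1 - δ) (τ := τ) (μ := H ^ 2 / B ^ 2)
    (X₂ := 128 * N * H ^ 2 / x₀ ^ 2 + 33800 * B * H ^ 4 / x₀ ^ 6) (t₀ := t₀) hτ (by positivity)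
    (by positivity) ht₀.1 (by linarith [ht₀.2])
    (AJ H η x₀ N J) (fun s => xm H η x₀ N s - J)
    (xm' H η x₀ N) (fun s _ => AJ_hasDerivAt H η x₀ N J s)
    (fun s hs => (xm_hasDerivAt P.hx P.hη.le (hsub hs).1 (hsub hs).2).sub_const J)
    ((xm'_continuousOn P.hx P.hη.le).mono hsub)
    (fun s hs => P.mu_le (hsub hs))
    (fun s hs => by
      have hs1 : s ∈ Set.Icc (0 : ℝ) 1 := ⟨by linarith [hs.1, ht₀.1], by linarith [hs.2, ht₀.2]⟩
      refine (xm'_lip hH hx P.hη.le P.hη1 P.hB hs1 ht01).trans ?_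
      apply mul_le_mul_of_nonneg_left _ (by positivity)
      rw [abs_le]; constructor <;> linarith [hs.1, hs.2])
    (by rw [hJt, sub_self])
  have h2 : 1 / Real.sqrt (xm' H η x₀ N t₀) ≤ J * (1 - η / 4) / H := by
    have h3 := xm'_lower (H := H) (N := N) P.hx P.hη.le (B := J) (c := 1 + η) ht01.1 ht01.2
      hJt.le (kap'_lower P.hη.le ht01.1 ht01.2) (by linarith [P.hη])
    have hη' := P.hη
    have h4 : Real.sqrt ((H / J) ^ 2 * (1 + η)) ≤ Real.sqrt (xm' H η x₀ N t₀) := by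
      apply Real.sqrt_le_sqrt
      calc (H / J) ^ 2 * (1 + η) = H ^ 2 * (1 + η) / J ^ 2 := by field_simp
        _ ≤ _ := h3
    rw [Real.sqrt_mul (by positivity), Real.sqrt_sq (by positivity)] at h4
    have h5 : 0 < Real.sqrt (1 + η) := Real.sqrt_pos.mpr (by linarith)
    have h6 : 1 / Real.sqrt (xm' H η x₀ N t₀) ≤ 1 / (H / J * Real.sqrt (1 + η)) :=
      one_div_le_one_div_of_le (by positivity) h4
    refine h6.trans ?_
    have h7 := one_div_sqrt_le P.hη.le P.hη1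
    calc 1 / (H / J * Real.sqrt (1 + η)) = J * (1 / Real.sqrt (1 + η)) / H := by field_simp
      _ ≤ J * (1 - η / 4) / H := by gcongr
  linarith

/-- numeric conditions on the parameters -/
structure Conds (H η x₀ B τ δ : ℝ) (N w : ℕ) : Prop where
  hw : 0 < w
  c1 : H * (1 / x₀ + δ) ≤ w
  c2 : 3 / 7 * xm H η x₀ N (2 * τ) + H * (1 / (H ^ 2 / B ^ 2 * τ)) + H * δ ≤ x₀ / 2 - 1
  c3 : 1 + H * (2 / (H ^ 2 / B ^ 2 * τ) +
    13 * (128 * N * H ^ 2 / x₀ ^ 2 + 33800 * B * H ^ 4 / x₀ ^ 6) * τ ^ 4 + δ) ≤ x₀ * (η / 4)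
  c4 : 3 / 7 * xm H η x₀ N (1 - δ) + H * (1 / (H ^ 2 / B ^ 2 * τ)) + H * δ + 1 ≤
    xm H η x₀ N (1 - δ - τ)

lemma coef_bound (P : Pars H η x₀ B τ δ N) {w : ℕ} (Q : Conds H η x₀ B τ δ N w) {k J v : ℝ}
    (hk : 0 ≤ k) (hJk : J ≤ k + 1) (hv0 : 0 ≤ v) (hv1 : v ≤ 1) (hvk : v ≤ k / w) :
    H * (v * (‖∫ s in (0 : ℝ)..(1 - δ), e (AJ H η x₀ N J s)‖ + δ)) ≤ k := by
  have hδ := P.hδ
  have hτ := P.hτ
  have hx := P.hx
  have hs := P.hsmall
  have hH := P.hH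
  have hB := P.hBpos
  have hη := P.hη
  have hwpos : (0 : ℝ) < w := by exact_mod_cast Q.hw
  set I := ‖∫ s in (0 : ℝ)..(1 - δ), e (AJ H η x₀ N J s)‖ with hI
  have hI0 : 0 ≤ I := norm_nonneg _
  rcases le_or_gt (2 * J) x₀ with h1 | h1
  · have h2 := case_one P h1
    rw [← hI] at h2
    have h3 := Q.c1
    calc H * (v * (I + δ)) ≤ H * (k / w * (1 / x₀ + δ)) := by gcongr
      _ = k / w * (H * (1 / x₀ + δ)) := by ring
      _ ≤ k / w * w := by gcongr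
      _ = k := by field_simp
  have hstep : H * (v * (I + δ)) ≤ H * I + H * δ := by
    have : v * (I + δ) ≤ 1 * (I + δ) := by gcongr
    calc H * (v * (I + δ)) ≤ H * (1 * (I + δ)) := by gcongr
      _ = H * I + H * δ := by ring
  refine hstep.trans ?_
  rcases le_or_gt J (xm H η x₀ N τ) with h2 | h2
  · have h3 := case_two P h2
    rw [← hI] at h3
    have h4 := Q.c2
    have h5 : H * I ≤ 3 / 7 * xm H η x₀ N (2 * τ) + H * (1 / (H ^ 2 / B ^ 2 * τ)) := by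
      calc H * I ≤ H * (3 / 7 * xm H η x₀ N (2 * τ) / H + 1 / (H ^ 2 / B ^ 2 * τ)) := by gcongr
        _ = _ := by rw [mul_add]; congr 1; field_simp
    linarith
  rcases le_or_gt J (xm H η x₀ N (1 - δ - τ)) with h3 | h3
  · have h4 := case_three P h2.le h3
    rw [← hI] at h4
    have h5 := Q.c3
    have h6 : x₀ ≤ J := (xm_ge (H := H) (N := N) hx hη.le hτ.le (by linarith)).trans h2.le
    set E := 2 / (H ^ 2 / B ^ 2 * τ) with hE
    set F := 13 * (128 * N * H ^ 2 / x₀ ^ 2 + 33800 * B * H ^ 4 / x₀ ^ 6) * τ ^ 4 with hF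
    have h7 : H * I ≤ J * (1 - η / 4) + H * (E + F) := by
      calc H * I ≤ H * (J * (1 - η / 4) / H + E + F) := by gcongr
        _ = _ := by field_simp; ring
    have h8 : x₀ * (η / 4) ≤ J * (η / 4) := by gcongr
    have h9 : H * (E + F + δ) = H * (E + F) + H * δ := by ring
    nlinarith
  · have h4 := case_four P h3.le
    rw [← hI] at h4
    have h5 := Q.c4
    have h6 : H * I ≤ 3 / 7 * xm H η x₀ N (1 - δ) + H * (1 / (H ^ 2 / B ^ 2 * τ)) := by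
      calc H * I ≤ H * (3 / 7 * xm H η x₀ N (1 - δ) / H + 1 / (H ^ 2 / B ^ 2 * τ)) := by gcongr
        _ = _ := by rw [mul_add]; congr 1; field_simp
    linarith

end cases

end Pool.Agent.Helper523.UF
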