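import Mathlib
import Pool.Agent.Helper523.UF.Coef
import Pool.Agent.Helper523.UF.Kernel

set_option autoImplicit false

namespace Pool.Agent.Helper523.UF

open MeasureTheory Filter Topology Finset

lemma fract_lip_aux (f : ℝ → ℝ) (L : ℝ) (hL : 0 ≤ L)
    (hf : ∀ s ∈ Set.Icc (0 : ℝ) 1, ∀ t ∈ Set.Icc (0 : ℝ) 1, |f s - f t| ≤ L * |s - t|)
    (h01 : f 0 = f 1) (s t : ℝ) (hst : s ≤ t) :
    |f (Int.fract s) - f (Int.fract t)| ≤ L * (t - s) := by
  have hfs : Int.fract s ∈ Set.Icc (0 : ℝ) 1 := ⟨Int.fract_nonneg s, (Int.fract_lt_one s).le⟩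
  have hft : Int.fract t ∈ Set.Icc (0 : ℝ) 1 := ⟨Int.fract_nonneg t, (Int.fract_lt_one t).le⟩
  have h0 : (0 : ℝ) ∈ Set.Icc (0 : ℝ) 1 := ⟨le_rfl, zero_le_one⟩
  have h1 : (1 : ℝ) ∈ Set.Icc (0 : ℝ) 1 := ⟨zero_le_one, le_rfl⟩
  have es : s = ⌊s⌋ + Int.fract s := (Int.floor_add_fract s).symm
  have et : t = ⌊t⌋ + Int.fract t := (Int.floor_add_fract t).symm
  rcases le_or_gt 1 (t - s) with h | h
  · refine (hf _ hfs _ hft).trans ?_
    apply mul_le_mul_of_nonneg_left _ hL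
    rw [abs_le]
    constructor <;> linarith [hfs.1, hfs.2, hft.1, hft.2]
  · have hfl : ⌊s⌋ ≤ ⌊t⌋ := Int.floor_le_floor hst
    have hfl2 : ⌊t⌋ ≤ ⌊s⌋ + 1 := by
      have : ⌊t⌋ < ⌊s⌋ + 2 := by
        have h3 : (⌊t⌋ : ℝ) < ⌊s⌋ + 2 := by
          have := Int.fract_lt_one s
          have := Int.fract_nonneg t
          linarith
        exact_mod_cast h3
      omega
    rcases hfl.eq_or_lt with h2 | h2
    · refine (hf _ hfs _ hft).trans ?_
      apply mul_le_mul_of_nonneg_left _ hL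
      have h3 : (⌊s⌋ : ℝ) = ⌊t⌋ := by exact_mod_cast h2
      have h4 : Int.fract s - Int.fract t = s - t := by linarith
      rw [h4, abs_of_nonpos (by linarith)]
      linarith
    · have h3 : ⌊t⌋ = ⌊s⌋ + 1 := by omega
      have h3' : (⌊t⌋ : ℝ) = ⌊s⌋ + 1 := by exact_mod_cast h3
      have h4 := hf _ hfs _ h1
      have h5 := hf _ h0 _ hft
      have h6 : |Int.fract s - 1| = 1 - Int.fract s := by
        rw [abs_of_nonpos (by linarith [hfs.2])]; ring
      have h7 : |0 - Int.fract t| = Int.fract t := by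
        rw [zero_sub, abs_neg, abs_of_nonneg hft.1]
      rw [h6] at h4
      rw [h7] at h5
      calc |f (Int.fract s) - f (Int.fract t)|
          = |(f (Int.fract s) - f 1) + (f 0 - f (Int.fract t))| := by rw [h01]; congr 1; ring
        _ ≤ |f (Int.fract s) - f 1| + |f 0 - f (Int.fract t)| := abs_add_le _ _
        _ ≤ L * (1 - Int.fract s) + L * Int.fract t := add_le_add h4 h5
        _ = L * (t - s) := by
            rw [← mul_add]; congr 1; linarith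

lemma fract_lip (f : ℝ → ℝ) (L : ℝ) (hL : 0 ≤ L)
    (hf : ∀ s ∈ Set.Icc (0 : ℝ) 1, ∀ t ∈ Set.Icc (0 : ℝ) 1, |f s - f t| ≤ L * |s - t|)
    (h01 : f 0 = f 1) (s t : ℝ) :
    |f (Int.fract s) - f (Int.fract t)| ≤ L * |s - t| := by
  rcases le_total s t with h | h
  · rw [abs_of_nonpos (sub_nonpos.mpr h), neg_sub]
    exact fract_lip_aux f L hL hf h01 s t h
  · rw [abs_of_nonneg (sub_nonneg.mpr h), abs_sub_comm]
    exact fract_lip_aux f L hL hf h01 t s h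

/-- a Lipschitz function is continuous -/
lemma cont_of_lip (f : ℝ → ℝ) (L : ℝ) (hL : 0 ≤ L) (hf : ∀ s t, |f s - f t| ≤ L * |s - t|) :
    Continuous f := by
  have : LipschitzWith ⟨L, hL⟩ f := by
    apply LipschitzWith.of_dist_le_mul
    intro x y
    rw [Real.dist_eq, Real.dist_eq]
    exact hf x y
  exact this.continuous

/-- the frequency on a period -/
noncomputable def Xf (H η x₀ δ : ℝ) (N : ℕ) (θ : ℝ) : ℝ :=
  xm H η x₀ N (min θ (1 - δ)) +
    (x₀ - xm H η x₀ N (1 - δ)) / δ * max 0 (θ - (1 - δ))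

/-- periodic frequency -/
noncomputable def Xp (H η x₀ δ : ℝ) (N : ℕ) (θ : ℝ) : ℝ := Xf H η x₀ δ N (Int.fract θ)

section

variable {H η x₀ B τ δ : ℝ} {N : ℕ}

lemma Xf_lip (P : Pars H η x₀ B τ δ N) {s t : ℝ} (hs : s ∈ Set.Icc (0 : ℝ) 1)
    (ht : t ∈ Set.Icc (0 : ℝ) 1) :
    |Xf H η x₀ δ N s - Xf H η x₀ δ N t| ≤
      (130 * H ^ 2 / x₀ ^ 2 + (xm H η x₀ N (1 - δ) - x₀) / δ) * |s - t| := by
  have hδ := P.hδ
  have hsm := P.hsmall
  have hτ := P.hτ
  have hT : (1 - δ) ∈ Set.Icc (0 : ℝ) 1 := ⟨by linarith, by linarith⟩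
  have hx1 := xm_ge (H := H) (N := N) P.hx P.hη.le hT.1 hT.2
  have hms : min s (1 - δ) ∈ Set.Icc (0 : ℝ) 1 := ⟨le_min hs.1 hT.1, (min_le_left _ _).trans hs.2⟩
  have hmt : min t (1 - δ) ∈ Set.Icc (0 : ℝ) 1 := ⟨le_min ht.1 hT.1, (min_le_left _ _).trans ht.2⟩
  have h1 := xm_lip (N := N) P.hH P.hx P.hη.le P.hη1 hms hmt
  have h2 : |min s (1 - δ) - min t (1 - δ)| ≤ |s - t| := by
    have := abs_min_sub_min_le_max s (1 - δ) t (1 - δ)
    simpa using this
  have h3 : |max 0 (s - (1 - δ)) - max 0 (t - (1 - δ))| ≤ |s - t| := by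
    have := abs_max_sub_max_le_max 0 (s - (1 - δ)) 0 (t - (1 - δ))
    simpa using this
  have hpos : 0 ≤ 130 * H ^ 2 / x₀ ^ 2 := by positivity
  have h4 : 0 ≤ (xm H η x₀ N (1 - δ) - x₀) / δ := div_nonneg (by linarith) hδ.le
  unfold Xf
  set r := (x₀ - xm H η x₀ N (1 - δ)) / δ with hr
  have hrr : |r| = (xm H η x₀ N (1 - δ) - x₀) / δ := by
    rw [hr, abs_of_nonpos]
    · ring
    · apply div_nonpos_of_nonpos_of_nonneg (by linarith) hδ.le
  calc _ = |(xm H η x₀ N (min s (1 - δ)) - xm H η x₀ N (min t (1 - δ))) +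
        r * (max 0 (s - (1 - δ)) - max 0 (t - (1 - δ)))| := by congr 1; ring
    _ ≤ |xm H η x₀ N (min s (1 - δ)) - xm H η x₀ N (min t (1 - δ))| +
        |r * (max 0 (s - (1 - δ)) - max 0 (t - (1 - δ)))| := abs_add_le _ _
    _ ≤ 130 * H ^ 2 / x₀ ^ 2 * |s - t| + (xm H η x₀ N (1 - δ) - x₀) / δ * |s - t| := by
        apply add_le_add
        · exact h1.trans (mul_le_mul_of_nonneg_left h2 hpos)
        · rw [abs_mul, hrr]
          exact mul_le_mul_of_nonneg_left h3 h4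
    _ = _ := by ring

lemma Xf_zero (P : Pars H η x₀ B τ δ N) : Xf H η x₀ δ N 0 = x₀ := by
  have hδ := P.hδ
  have hsm := P.hsmall
  have hτ := P.hτ
  unfold Xf
  rw [min_eq_left (by linarith), max_eq_left (by linarith), mul_zero, add_zero,
    xm_zero P.hx P.hη.le]

lemma Xf_one (P : Pars H η x₀ B τ δ N) : Xf H η x₀ δ N 1 = x₀ := by
  have hδ := P.hδ
  have hsm := P.hsmall
  have hτ := P.hτ
  unfold Xf
  rw [min_eq_right (by linarith), max_eq_right (by linarith)]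
  field_simp
  ring

lemma Xf_main (P : Pars H η x₀ B τ δ N) {s : ℝ} (hs1 : s ≤ 1 - δ) :
    Xf H η x₀ δ N s = xm H η x₀ N s := by
  have hδ := P.hδ
  unfold Xf
  rw [min_eq_left hs1, max_eq_left (by linarith), mul_zero, add_zero]

lemma Xf_bounds (P : Pars H η x₀ B τ δ N) {s : ℝ} (hs : s ∈ Set.Icc (0 : ℝ) 1) :
    x₀ ≤ Xf H η x₀ δ N s ∧ Xf H η x₀ δ N s ≤ xm H η x₀ N (1 - δ) := by
  have hδ := P.hδ
  have hsm := P.hsmall
  have hτ := P.hτ
  have hT : (1 - δ) ∈ Set.Icc (0 : ℝ) 1 := ⟨by linarith, by linarith⟩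
  have hx1 := xm_ge (H := H) (N := N) P.hx P.hη.le hT.1 hT.2
  rcases le_or_gt s (1 - δ) with h | h
  · rw [Xf_main P h]
    exact ⟨xm_ge P.hx P.hη.le hs.1 hs.2, xm_mono P.hH P.hx P.hη.le hs hT h⟩
  · unfold Xf
    rw [min_eq_right h.le, max_eq_right (by linarith)]
    set x₁ := xm H η x₀ N (1 - δ)
    have h1 : (x₀ - x₁) / δ * (s - (1 - δ)) = (x₀ - x₁) * ((s - (1 - δ)) / δ) := by ring
    rw [h1]
    have h2 : 0 ≤ (s - (1 - δ)) / δ := div_nonneg (by linarith) hδ.le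
    have h3 : (s - (1 - δ)) / δ ≤ 1 := by rw [div_le_one hδ]; linarith [hs.2]
    constructor <;> nlinarith

/-- The periodic phase. -/
noncomputable def alph (H η x₀ δ : ℝ) (N : ℕ) (ξ : ℝ) (θ : ℝ) : ℝ :=
  ∫ u in (0 : ℝ)..θ, (Xp H η x₀ δ N u - ξ)

lemma Xp_lip (P : Pars H η x₀ B τ δ N) (s t : ℝ) :
    |Xp H η x₀ δ N s - Xp H η x₀ δ N t| ≤
      (130 * H ^ 2 / x₀ ^ 2 + (xm H η x₀ N (1 - δ) - x₀) / δ) * |s - t| := by
  have hδ := P.hδ
  have hsm := P.hsmall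
  have hτ := P.hτ
  have hT : (1 - δ) ∈ Set.Icc (0 : ℝ) 1 := ⟨by linarith, by linarith⟩
  have hx1 := xm_ge (H := H) (N := N) P.hx P.hη.le hT.1 hT.2
  have h4 : 0 ≤ (xm H η x₀ N (1 - δ) - x₀) / δ := div_nonneg (by linarith) hδ.le
  exact fract_lip (Xf H η x₀ δ N) _ (by positivity) (fun s hs t ht => Xf_lip P hs ht)
    (by rw [Xf_zero P, Xf_one P]) s t

lemma Xp_continuous (P : Pars H η x₀ B τ δ N) : Continuous (Xp H η x₀ δ N) := by
  have hδ := P.hδ
  have hsm := P.hsmall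
  have hτ := P.hτ
  have hT : (1 - δ) ∈ Set.Icc (0 : ℝ) 1 := ⟨by linarith, by linarith⟩
  have hx1 := xm_ge (H := H) (N := N) P.hx P.hη.le hT.1 hT.2
  have h4 : 0 ≤ (xm H η x₀ N (1 - δ) - x₀) / δ := div_nonneg (by linarith) hδ.le
  exact cont_of_lip _ _ (by positivity) (Xp_lip P)

lemma Xp_periodic (H η x₀ δ : ℝ) (N : ℕ) (θ : ℝ) : Xp H η x₀ δ N (θ + 1) = Xp H η x₀ δ N θ := by
  unfold Xp; rw [Int.fract_add_one]

lemma Xp_bounds (P : Pars H η x₀ B τ δ N) (s : ℝ) :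
    x₀ ≤ Xp H η x₀ δ N s ∧ Xp H η x₀ δ N s ≤ xm H η x₀ N (1 - δ) :=
  Xf_bounds P ⟨Int.fract_nonneg s, (Int.fract_lt_one s).le⟩

lemma alph_hasDerivAt (P : Pars H η x₀ B τ δ N) (ξ θ : ℝ) :
    HasDerivAt (alph H η x₀ δ N ξ) (Xp H η x₀ δ N θ - ξ) θ := by
  have hc : Continuous (fun u => Xp H η x₀ δ N u - ξ) := (Xp_continuous P).sub continuous_const
  exact intervalIntegral.integral_hasDerivAt_right (hc.intervalIntegrable _ _)
    (hc.stronglyMeasurableAtFilter _ _) hc.continuousAt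

/-- the fractional part of the mean frequency -/
noncomputable def xi (H η x₀ δ : ℝ) (N : ℕ) : ℝ :=
  Int.fract (∫ u in (0 : ℝ)..1, Xp H η x₀ δ N u)

lemma alph_per (P : Pars H η x₀ B τ δ N) (θ : ℝ) :
    e (alph H η x₀ δ N (xi H η x₀ δ N) (θ + 1)) = e (alph H η x₀ δ N (xi H η x₀ δ N) θ) := by
  set ξ := xi H η x₀ δ N with hξ
  have hc : Continuous (fun u => Xp H η x₀ δ N u - ξ) := (Xp_continuous P).sub continuous_const
  have h1 : alph H η x₀ δ N ξ (θ + 1) = alph H η x₀ δ N ξ θ +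
      ∫ u in θ..(θ + 1), (Xp H η x₀ δ N u - ξ) := by
    unfold alph
    rw [intervalIntegral.integral_add_adjacent_intervals (hc.intervalIntegrable _ _)
      (hc.intervalIntegrable _ _)]
  have hper : Function.Periodic (fun u => Xp H η x₀ δ N u - ξ) 1 := by
    intro u
    simp only [Xp_periodic]
  have h2 : ∫ u in θ..(θ + 1), (Xp H η x₀ δ N u - ξ) = ∫ u in (0 : ℝ)..(0 + 1), (Xp H η x₀ δ N u - ξ) :=
    hper.intervalIntegral_add_eq θ 0
  have h3 : ∫ u in (0 : ℝ)..(0 + 1), (Xp H η x₀ δ N u - ξ) =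
      ((⌊∫ u in (0 : ℝ)..1, Xp H η x₀ δ N u⌋ : ℤ) : ℝ) := by
    rw [zero_add, intervalIntegral.integral_sub ((Xp_continuous P).intervalIntegrable _ _)
      (continuous_const.intervalIntegrable _ _)]
    rw [intervalIntegral.integral_const, hξ]
    unfold xi
    simp only [sub_zero, one_smul]
    linarith [Int.floor_add_fract (∫ u in (0 : ℝ)..1, Xp H η x₀ δ N u)]
  rw [h1, h2, h3, e_add_int]

lemma alph_main (P : Pars H η x₀ B τ δ N) (ξ : ℝ) (k : ℕ) {s : ℝ} (hs0 : 0 ≤ s) (hs1 : s ≤ 1 - δ) :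
    e (alph H η x₀ δ N ξ s) * e (-(k * s)) = e (AJ H η x₀ N (k + ξ) s) := by
  rw [← e_add]
  congr 1
  have hδ := P.hδ
  have h1 : alph H η x₀ δ N ξ s = ∫ u in (0 : ℝ)..s, (xm H η x₀ N u - ξ) := by
    unfold alph
    apply intervalIntegral.integral_congr
    intro u hu
    rw [Set.uIcc_of_le hs0] at hu
    have h2 : Int.fract u = u := Int.fract_eq_self.mpr ⟨hu.1, by linarith [hu.2]⟩
    simp only
    unfold Xp
    rw [h2, Xf_main P (hu.2.trans hs1)]
  rw [h1]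
  unfold AJ
  have h3 : ∀ u, xm H η x₀ N u - (k + ξ) = (xm H η x₀ N u - ξ) - k := fun u => by ring
  simp_rw [h3]
  rw [intervalIntegral.integral_sub (f := fun u => xm H η x₀ N u - ξ)
    (((xm_continuous H η x₀ N).sub continuous_const).intervalIntegrable _ _)
    (continuous_const.intervalIntegrable _ _), intervalIntegral.integral_const]
  simp only [sub_zero, smul_eq_mul]
  ring

lemma alph_coef (P : Pars H η x₀ B τ δ N) (ξ : ℝ) (k : ℕ) :
    ‖∫ s in (0 : ℝ)..1, e (alph H η x₀ δ N ξ s) * e (-(k * s))‖ ≤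
      ‖∫ s in (0 : ℝ)..(1 - δ), e (AJ H η x₀ N (k + ξ) s)‖ + δ := by
  have hδ := P.hδ
  have hsm := P.hsmall
  have hτ := P.hτ
  have hac : Continuous (alph H η x₀ δ N ξ) :=
    continuous_iff_continuousAt.mpr fun s => (alph_hasDerivAt P ξ s).continuousAt
  have hc : Continuous (fun s : ℝ => e (alph H η x₀ δ N ξ s) * e (-(k * s))) :=
    (e_continuous.comp hac).mul (e_continuous.comp (by fun_prop))
  rw [← intervalIntegral.integral_add_adjacent_intervals (hc.intervalIntegrable 0 (1 - δ))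
    (hc.intervalIntegrable (1 - δ) 1)]
  refine (norm_add_le _ _).trans ?_
  apply add_le_add
  · apply le_of_eq
    congr 1
    apply intervalIntegral.integral_congr
    intro s hs
    rw [Set.uIcc_of_le (by linarith)] at hs
    exact alph_main P ξ k hs.1 hs.2
  · have h := intervalIntegral.norm_integral_le_of_norm_le_const (a := 1 - δ) (b := 1)
      (f := fun s => e (alph H η x₀ δ N ξ s) * e (-(k * s))) (C := 1)
      (fun s _ => by rw [norm_mul, e_norm, e_norm, one_mul])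
    have h2 : |1 - (1 - δ)| = δ := by rw [abs_of_nonneg (by linarith)]; ring
    rw [h2, one_mul] at h
    exact h

end

end Pool.Agent.Helper523.UF
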