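import Mathlib
import Pool.Agent.Helper523.UF.Basic

set_option autoImplicit false

namespace Pool.Agent.Helper523.UF

open Finset

lemma cosh_step (t x y : ℝ) :
    Real.cosh (t * (x + y)) + Real.cosh (t * (x - y)) ≤
      2 * (Real.cosh (t * x) * Real.exp (t ^ 2 * y ^ 2 / 2)) := by
  have h1 : Real.cosh (t * (x + y)) + Real.cosh (t * (x - y)) =
      2 * (Real.cosh (t * x) * Real.cosh (t * y)) := by
    rw [mul_add, mul_sub, Real.cosh_add, Real.cosh_sub]; ring
  rw [h1]
  have h2 : Real.cosh (t * y) ≤ Real.exp ((t * y) ^ 2 / 2) := Real.cosh_le_exp_half_sq _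
  have h3 : (t * y) ^ 2 / 2 = t ^ 2 * y ^ 2 / 2 := by ring
  rw [h3] at h2
  have h4 : 0 < Real.cosh (t * x) := Real.cosh_pos _
  gcongr

/-- Existence of signs by the method of conditional expectations. -/
lemma exists_signs {ι : Type*} (I : Finset ι) (v : ι → ℕ → ℝ) (t : ℝ) (n : ℕ) (B : ℝ)
    (hB : ∀ i ∈ I, ∀ m ≤ n, ∑ k ∈ range m, v i k ^ 2 ≤ B) :
    ∃ s : ℕ → ℝ, (∀ k, s k = 1 ∨ s k = -1) ∧
      ∑ i ∈ I, Real.cosh (t * ∑ k ∈ range n, s k * v i k) ≤ I.card * Real.exp (t ^ 2 * B / 2) := by
  have main : ∀ m ≤ n, ∃ s : ℕ → ℝ, (∀ k, s k = 1 ∨ s k = -1) ∧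
      ∑ i ∈ I, Real.cosh (t * ∑ k ∈ range m, s k * v i k) *
        Real.exp (- (t ^ 2 * (∑ k ∈ range m, v i k ^ 2) / 2)) ≤ I.card := by
    intro m
    induction m with
    | zero =>
      intro _
      exact ⟨fun _ => 1, fun _ => Or.inl rfl, by simp⟩
    | succ m ih =>
      intro hm
      obtain ⟨s, hs, hsum⟩ := ih (by omega)
      -- the two extensions
      set sp : ℕ → ℝ := fun k => if k = m then 1 else s k with hsp
      set sm : ℕ → ℝ := fun k => if k = m then -1 else s k with hsm
      have hp : ∀ i, ∑ k ∈ range (m + 1), sp k * v i k = (∑ k ∈ range m, s k * v i k) + v i m := by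
        intro i
        rw [sum_range_succ]
        congr 1
        · apply sum_congr rfl
          intro k hk
          have : k ≠ m := by simp at hk; omega
          simp [hsp, this]
        · simp [hsp]
      have hmm : ∀ i, ∑ k ∈ range (m + 1), sm k * v i k = (∑ k ∈ range m, s k * v i k) - v i m := by
        intro i
        rw [sum_range_succ, sub_eq_add_neg]
        congr 1
        · apply sum_congr rfl
          intro k hk
          have : k ≠ m := by simp at hk; omega
          simp [hsm, this]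
        · simp [hsm]
      have hspv : ∀ k, sp k = 1 ∨ sp k = -1 := by
        intro k; simp only [hsp]; split_ifs
        · left; rfl
        · exact hs k
      have hsmv : ∀ k, sm k = 1 ∨ sm k = -1 := by
        intro k; simp only [hsm]; split_ifs
        · right; rfl
        · exact hs k
      have havg : ∑ i ∈ I, Real.cosh (t * ∑ k ∈ range (m + 1), sp k * v i k) *
          Real.exp (- (t ^ 2 * (∑ k ∈ range (m + 1), v i k ^ 2) / 2)) +
          ∑ i ∈ I, Real.cosh (t * ∑ k ∈ range (m + 1), sm k * v i k) *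
          Real.exp (- (t ^ 2 * (∑ k ∈ range (m + 1), v i k ^ 2) / 2)) ≤ 2 * I.card := by
        rw [← sum_add_distrib]
        calc _ ≤ ∑ i ∈ I, 2 * (Real.cosh (t * ∑ k ∈ range m, s k * v i k) *
            Real.exp (- (t ^ 2 * (∑ k ∈ range m, v i k ^ 2) / 2))) := by
              apply sum_le_sum
              intro i _
              rw [hp, hmm, ← add_mul]
              have h := cosh_step t (∑ k ∈ range m, s k * v i k) (v i m)
              have he : 0 < Real.exp (- (t ^ 2 * (∑ k ∈ range (m + 1), v i k ^ 2) / 2)) :=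
                Real.exp_pos _
              calc _ ≤ 2 * (Real.cosh (t * (∑ k ∈ range m, s k * v i k)) *
                    Real.exp (t ^ 2 * v i m ^ 2 / 2)) *
                    Real.exp (- (t ^ 2 * (∑ k ∈ range (m + 1), v i k ^ 2) / 2)) :=
                    mul_le_mul_of_nonneg_right h he.le
                _ = 2 * (Real.cosh (t * (∑ k ∈ range m, s k * v i k)) *
                    (Real.exp (t ^ 2 * v i m ^ 2 / 2) *
                    Real.exp (- (t ^ 2 * (∑ k ∈ range (m + 1), v i k ^ 2) / 2)))) := by ring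
                _ = _ := by
                    rw [← Real.exp_add]
                    congr 3
                    rw [sum_range_succ]; ring_nf
          _ = 2 * ∑ i ∈ I, (Real.cosh (t * ∑ k ∈ range m, s k * v i k) *
            Real.exp (- (t ^ 2 * (∑ k ∈ range m, v i k ^ 2) / 2))) := by rw [mul_sum]
          _ ≤ 2 * I.card := by linarith
      by_cases hcase : ∑ i ∈ I, Real.cosh (t * ∑ k ∈ range (m + 1), sp k * v i k) *
          Real.exp (- (t ^ 2 * (∑ k ∈ range (m + 1), v i k ^ 2) / 2)) ≤ I.card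
      · exact ⟨sp, hspv, hcase⟩
      · push Not at hcase
        exact ⟨sm, hsmv, by linarith⟩
  obtain ⟨s, hs, hsum⟩ := main n le_rfl
  refine ⟨s, hs, ?_⟩
  have hE : 0 < Real.exp (t ^ 2 * B / 2) := Real.exp_pos _
  calc ∑ i ∈ I, Real.cosh (t * ∑ k ∈ range n, s k * v i k)
      ≤ ∑ i ∈ I, (Real.cosh (t * ∑ k ∈ range n, s k * v i k) *
        Real.exp (- (t ^ 2 * (∑ k ∈ range n, v i k ^ 2) / 2))) * Real.exp (t ^ 2 * B / 2) := by
        apply sum_le_sum
        intro i hi
        rw [mul_assoc, ← Real.exp_add]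
        have h1 := hB i hi n le_rfl
        have h2 : 1 ≤ Real.exp (-(t ^ 2 * (∑ k ∈ range n, v i k ^ 2) / 2) + t ^ 2 * B / 2) := by
          apply Real.one_le_exp
          nlinarith [sq_nonneg t]
        have h3 : 0 < Real.cosh (t * ∑ k ∈ range n, s k * v i k) := Real.cosh_pos _
        nlinarith
    _ = (∑ i ∈ I, Real.cosh (t * ∑ k ∈ range n, s k * v i k) *
        Real.exp (- (t ^ 2 * (∑ k ∈ range n, v i k ^ 2) / 2))) * Real.exp (t ^ 2 * B / 2) := by
        rw [sum_mul]
    _ ≤ I.card * Real.exp (t ^ 2 * B / 2) := by gcongr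

/-- Signs making all linear forms small. -/
lemma signs_small {ι : Type*} (I : Finset ι) (v : ι → ℕ → ℝ) (n : ℕ) (B L : ℝ) (hBpos : 0 < B)
    (hL : 0 < L) (hcard : (2 * I.card : ℝ) ≤ Real.exp L)
    (hB : ∀ i ∈ I, ∀ m ≤ n, ∑ k ∈ range m, v i k ^ 2 ≤ B) :
    ∃ s : ℕ → ℝ, (∀ k, s k = 1 ∨ s k = -1) ∧
      ∀ i ∈ I, |∑ k ∈ range n, s k * v i k| ≤ Real.sqrt (2 * L * B) := by
  set t := Real.sqrt (2 * L / B) with ht
  have htpos : 0 < t := Real.sqrt_pos.mpr (by positivity)
  have ht2 : t ^ 2 = 2 * L / B := Real.sq_sqrt (by positivity)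
  obtain ⟨s, hs, hsum⟩ := exists_signs I v t n B hB
  refine ⟨s, hs, ?_⟩
  intro i hi
  set y := ∑ k ∈ range n, s k * v i k with hy
  have h1 : Real.cosh (t * y) ≤ I.card * Real.exp (t ^ 2 * B / 2) :=
    le_trans (single_le_sum (f := fun i => Real.cosh (t * ∑ k ∈ range n, s k * v i k))
      (fun j _ => (Real.cosh_pos _).le) hi) hsum
  have h2 : t ^ 2 * B / 2 = L := by rw [ht2]; field_simp
  rw [h2] at h1
  have h3 : Real.exp (t * |y|) ≤ 2 * Real.cosh (t * y) := by
    have : Real.cosh (t * y) = Real.cosh (t * |y|) := by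
      rcases abs_choice y with h | h
      · rw [h]
      · rw [h, mul_neg, Real.cosh_neg]
    rw [this, Real.cosh_eq]
    have := Real.exp_pos (-(t * |y|))
    linarith
  have h4 : Real.exp (t * |y|) ≤ Real.exp (L + L) := by
    rw [Real.exp_add]
    calc Real.exp (t * |y|) ≤ 2 * Real.cosh (t * y) := h3
      _ ≤ 2 * (I.card * Real.exp L) := by linarith
      _ = (2 * I.card) * Real.exp L := by ring
      _ ≤ Real.exp L * Real.exp L := by gcongr
  have h5 : t * |y| ≤ 2 * L := by
    have := Real.exp_le_exp.mp h4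
    linarith
  have h6 : 2 * L = t * Real.sqrt (2 * L * B) := by
    rw [ht, ← Real.sqrt_mul (by positivity)]
    have : 2 * L / B * (2 * L * B) = (2 * L) ^ 2 := by field_simp
    rw [this, Real.sqrt_sq (by positivity)]
  rw [h6] at h5
  exact le_of_mul_le_mul_left h5 htpos

end Pool.Agent.Helper523.UF
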