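import Mathlib
import Pool.Agent.Helper523.UF.RandSigns

set_option autoImplicit false

namespace Pool.Agent.Helper523.UF

open Finset

/-- Signs for a trigonometric polynomial, uniformly on the circle. -/
theorem salem_zygmund (n : ℕ) (b : ℕ → ℂ) (D L : ℝ) (hD : 0 < D) (hL : 0 < L)
    (hLn : (4 * ((n : ℝ) + 1) ^ 2) ≤ Real.exp L)
    (hb : ∑ k ∈ range (n + 1), ‖b k‖ ^ 2 ≤ D) :
    ∃ s : ℕ → ℝ, (∀ k, s k = 1 ∨ s k = -1) ∧
      ∀ θ : ℝ, ‖∑ k ∈ range (n + 1), (s k : ℂ) * b k * e (k * θ)‖ ≤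
        (2 * Real.sqrt L + 7) * Real.sqrt D := by
  set M : ℕ := (n + 1) ^ 2 with hM
  have hMpos : 0 < M := by positivity
  have hMr : (0 : ℝ) < M := by exact_mod_cast hMpos
  have hMr' : (M : ℝ) = ((n : ℝ) + 1) ^ 2 := by rw [hM]; push_cast; ring
  set v : ℕ × Bool → ℕ → ℝ := fun p k =>
    if p.2 then (b k * e (k * ((p.1 : ℝ) / M))).re else (b k * e (k * ((p.1 : ℝ) / M))).im with hv
  obtain ⟨s, hs, hsm⟩ := signs_small (range M ×ˢ (univ : Finset Bool)) v (n + 1) D L hD hL
    (by
      rw [card_product, card_range]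
      have : (univ : Finset Bool).card = 2 := rfl
      rw [this]
      push_cast
      rw [hMr']
      linarith)
    (by
      intro p _ m hm
      calc ∑ k ∈ range m, v p k ^ 2 ≤ ∑ k ∈ range m, ‖b k‖ ^ 2 := by
            apply sum_le_sum
            intro k _
            have h1 : ‖b k‖ = ‖b k * e (k * ((p.1 : ℝ) / M))‖ := by
              rw [norm_mul, e_norm, mul_one]
            rw [h1]
            have h2 : |v p k| ≤ ‖b k * e (k * ((p.1 : ℝ) / M))‖ := by
              simp only [hv]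
              split_ifs
              · exact Complex.abs_re_le_norm _
              · exact Complex.abs_im_le_norm _
            calc v p k ^ 2 = |v p k| ^ 2 := (sq_abs _).symm
              _ ≤ _ := pow_le_pow_left₀ (abs_nonneg _) h2 2
        _ ≤ ∑ k ∈ range (n + 1), ‖b k‖ ^ 2 := by
            apply sum_le_sum_of_subset_of_nonneg
            · intro i hi; simp at hi ⊢; omega
            · intro i _ _; positivity
        _ ≤ D := hb)
  refine ⟨s, hs, ?_⟩
  -- values at grid points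
  have hgrid : ∀ l < M, ‖∑ k ∈ range (n + 1), (s k : ℂ) * b k * e (k * ((l : ℝ) / M))‖ ≤
      2 * Real.sqrt L * Real.sqrt D := by
    intro l hl
    set Z := ∑ k ∈ range (n + 1), (s k : ℂ) * b k * e (k * ((l : ℝ) / M)) with hZ
    have hre : Z.re = ∑ k ∈ range (n + 1), s k * v (l, true) k := by
      rw [hZ, Complex.re_sum]
      apply sum_congr rfl
      intro k _
      simp only [hv, if_true]
      rw [mul_assoc, Complex.re_ofReal_mul]
    have him : Z.im = ∑ k ∈ range (n + 1), s k * v (l, false) k := by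
      rw [hZ, Complex.im_sum]
      apply sum_congr rfl
      intro k _
      simp only [hv]
      rw [mul_assoc, Complex.im_ofReal_mul]
      simp
    have h1 := hsm (l, true) (by simp [hl])
    have h2 := hsm (l, false) (by simp [hl])
    rw [← hre] at h1
    rw [← him] at h2
    have hLD : 0 ≤ 2 * L * D := by positivity
    have h3 : ‖Z‖ ^ 2 ≤ (2 * Real.sqrt L * Real.sqrt D) ^ 2 := by
      rw [Complex.sq_norm, Complex.normSq_apply]
      have e1 : Z.re * Z.re ≤ 2 * L * D := by
        have := pow_le_pow_left₀ (abs_nonneg _) h1 2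
        rw [sq_abs, Real.sq_sqrt hLD] at this
        nlinarith
      have e2 : Z.im * Z.im ≤ 2 * L * D := by
        have := pow_le_pow_left₀ (abs_nonneg _) h2 2
        rw [sq_abs, Real.sq_sqrt hLD] at this
        nlinarith
      have e3 : (2 * Real.sqrt L * Real.sqrt D) ^ 2 = 4 * L * D := by
        rw [mul_pow, mul_pow, Real.sq_sqrt hL.le, Real.sq_sqrt hD.le]; ring
      rw [e3]; linarith
    exact le_of_sq_le_sq h3 (by positivity)
  -- sum of moduli
  have hl1 : ∑ k ∈ range (n + 1), ‖b k‖ ≤ Real.sqrt (n + 1) * Real.sqrt D := by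
    rw [← Real.sqrt_mul (by positivity)]
    apply Real.le_sqrt_of_sq_le
    have h := sq_sum_le_card_mul_sum_sq (s := range (n + 1)) (f := fun k => ‖b k‖)
    rw [card_range] at h
    push_cast at h
    calc (∑ k ∈ range (n + 1), ‖b k‖) ^ 2 ≤ ((n : ℝ) + 1) * ∑ k ∈ range (n + 1), ‖b k‖ ^ 2 := h
      _ ≤ ((n : ℝ) + 1) * D := by gcongr
  intro θ
  set φ := Int.fract θ with hφ
  have hφ0 : 0 ≤ φ := Int.fract_nonneg θ
  have hφ1 : φ < 1 := Int.fract_lt_one θ
  have hper : ∀ k : ℕ, e (k * θ) = e (k * φ) := by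
    intro k
    have : (k : ℝ) * θ = k * φ + ((k * ⌊θ⌋ : ℤ) : ℝ) := by
      push_cast
      rw [← mul_add, hφ, add_comm, Int.floor_add_fract]
    rw [this, e_add_int]
  set l : ℕ := ⌊(M : ℝ) * φ⌋₊ with hl
  have hlM : l < M := by
    rw [hl, Nat.floor_lt (by positivity)]
    nlinarith
  have hl1' : (l : ℝ) ≤ M * φ := Nat.floor_le (by positivity)
  have hl2 : (M : ℝ) * φ < l + 1 := Nat.lt_floor_add_one _
  have hdist : |φ - (l : ℝ) / M| ≤ 1 / M := by
    rw [abs_le]
    constructor
    · have : (l : ℝ) / M ≤ φ := by rw [div_le_iff₀ hMr]; linarith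
      have : 0 < 1 / (M : ℝ) := by positivity
      linarith
    · have : φ ≤ (l : ℝ) / M + 1 / M := by
        rw [← add_div, le_div_iff₀ hMr]; linarith
      linarith
  have hdiff : ‖∑ k ∈ range (n + 1), (s k : ℂ) * b k * e (k * θ) -
      ∑ k ∈ range (n + 1), (s k : ℂ) * b k * e (k * ((l : ℝ) / M))‖ ≤ 7 * Real.sqrt D := by
    rw [← sum_sub_distrib]
    calc _ ≤ ∑ k ∈ range (n + 1), ‖(s k : ℂ) * b k * e (k * θ) -
          (s k : ℂ) * b k * e (k * ((l : ℝ) / M))‖ := norm_sum_le _ _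
      _ ≤ ∑ k ∈ range (n + 1), ‖b k‖ * (2 * Real.pi * (((n : ℝ) + 1) / M)) := by
          apply sum_le_sum
          intro k hk
          have hk' : (k : ℝ) ≤ n + 1 := by
            have : k < n + 1 := by simpa using hk
            have : k ≤ n + 1 := this.le
            exact_mod_cast this
          rw [hper k]
          have h1 : (s k : ℂ) * b k * e (k * φ) - (s k : ℂ) * b k * e (k * ((l : ℝ) / M)) =
              (s k : ℂ) * b k * e (k * ((l : ℝ) / M)) * (e (k * (φ - (l : ℝ) / M)) - 1) := by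
            have : (k : ℝ) * φ = k * ((l : ℝ) / M) + k * (φ - (l : ℝ) / M) := by ring
            rw [this, e_add]; ring
          rw [h1, norm_mul, norm_mul, norm_mul, e_norm]
          have h2 : ‖(s k : ℂ)‖ = 1 := by
            rcases hs k with h | h <;> rw [h] <;> simp
          rw [h2, one_mul, mul_one]
          apply mul_le_mul_of_nonneg_left _ (norm_nonneg _)
          refine (e_sub_one_norm _).trans ?_
          apply mul_le_mul_of_nonneg_left _ (by positivity)
          rw [abs_mul, abs_of_nonneg (by positivity : (0 : ℝ) ≤ k)]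
          calc (k : ℝ) * |φ - (l : ℝ) / M| ≤ ((n : ℝ) + 1) * (1 / M) := by
                apply mul_le_mul hk' hdist (abs_nonneg _) (by positivity)
            _ = ((n : ℝ) + 1) / M := by ring
      _ = (∑ k ∈ range (n + 1), ‖b k‖) * (2 * Real.pi * (((n : ℝ) + 1) / M)) := by rw [sum_mul]
      _ ≤ (Real.sqrt (n + 1) * Real.sqrt D) * (2 * Real.pi * (((n : ℝ) + 1) / M)) := by
          gcongr
      _ ≤ 7 * Real.sqrt D := by
          rw [hMr']
          have h1 : ((n : ℝ) + 1) / ((n : ℝ) + 1) ^ 2 = 1 / ((n : ℝ) + 1) := by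
            field_simp
          rw [h1]
          have h2 : Real.sqrt ((n : ℝ) + 1) ≤ (n : ℝ) + 1 := by
            rw [Real.sqrt_le_left (by positivity)]
            nlinarith [(Nat.cast_nonneg n : (0 : ℝ) ≤ n)]
          have h3 : Real.sqrt ((n : ℝ) + 1) * (1 / ((n : ℝ) + 1)) ≤ 1 := by
            rw [mul_one_div, div_le_one (by positivity)]
            exact h2
          have hpi : 2 * Real.pi ≤ 7 := by linarith [Real.pi_lt_d2]
          have hsD : 0 ≤ Real.sqrt D := Real.sqrt_nonneg _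
          calc Real.sqrt ((n : ℝ) + 1) * Real.sqrt D * (2 * Real.pi * (1 / ((n : ℝ) + 1)))
              = (Real.sqrt ((n : ℝ) + 1) * (1 / ((n : ℝ) + 1))) * ((2 * Real.pi) * Real.sqrt D) := by ring
            _ ≤ 1 * (7 * Real.sqrt D) := by gcongr
            _ = 7 * Real.sqrt D := one_mul _
  have hg := hgrid l hlM
  calc ‖∑ k ∈ range (n + 1), (s k : ℂ) * b k * e (k * θ)‖
      = ‖(∑ k ∈ range (n + 1), (s k : ℂ) * b k * e (k * θ) -
        ∑ k ∈ range (n + 1), (s k : ℂ) * b k * e (k * ((l : ℝ) / M))) +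
        ∑ k ∈ range (n + 1), (s k : ℂ) * b k * e (k * ((l : ℝ) / M))‖ := by rw [sub_add_cancel]
    _ ≤ 7 * Real.sqrt D + 2 * Real.sqrt L * Real.sqrt D :=
        (norm_add_le _ _).trans (add_le_add hdiff hg)
    _ = _ := by ring

/-- From prescribed means c_k with |c_k| ≤ k to unimodular coefficients. -/
theorem unimodularize (n : ℕ) (c : ℕ → ℂ) (hc : ∀ k, ‖c k‖ ≤ k) (D L : ℝ) (hD : 0 < D)
    (hL : 0 < L) (hLn : (4 * ((n : ℝ) + 1) ^ 2) ≤ Real.exp L)
    (hdef : ∑ k ∈ range (n + 1), ((k : ℝ) ^ 2 - ‖c k‖ ^ 2) ≤ D) :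
    ∃ a : ℕ → ℂ, (∀ k, ‖a k‖ = 1) ∧ ∀ θ : ℝ,
      ‖∑ k ∈ range (n + 1), (k : ℂ) * a k * e (k * θ) - ∑ k ∈ range (n + 1), c k * e (k * θ)‖ ≤
        (2 * Real.sqrt L + 7) * Real.sqrt D := by
  -- unit vector in the direction of c_k
  have hu : ∀ k : ℕ, ∃ u : ℂ, ‖u‖ = 1 ∧ c k = (‖c k‖ : ℂ) * u := by
    intro k
    by_cases h : c k = 0
    · exact ⟨1, by simp, by simp [h]⟩
    · have hn : ‖c k‖ ≠ 0 := norm_ne_zero_iff.mpr h
      refine ⟨c k / (‖c k‖ : ℂ), ?_, ?_⟩
      · rw [norm_div, Complex.norm_real, norm_norm, div_self hn]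
      · rw [mul_div_cancel₀]
        exact_mod_cast hn
  choose u hu1 hu2 using hu
  set r : ℕ → ℝ := fun k => Real.sqrt ((k : ℝ) ^ 2 - ‖c k‖ ^ 2) with hr
  have hrnn : ∀ k : ℕ, 0 ≤ (k : ℝ) ^ 2 - ‖c k‖ ^ 2 := by
    intro k
    have := pow_le_pow_left₀ (norm_nonneg _) (hc k) 2
    linarith
  have hr2 : ∀ k : ℕ, r k ^ 2 = (k : ℝ) ^ 2 - ‖c k‖ ^ 2 := fun k => Real.sq_sqrt (hrnn k)
  set b : ℕ → ℂ := fun k => Complex.I * (r k : ℂ) * u k with hb
  have hbn : ∀ k : ℕ, ‖b k‖ ^ 2 = (k : ℝ) ^ 2 - ‖c k‖ ^ 2 := by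
    intro k
    simp only [hb]
    rw [norm_mul, norm_mul, Complex.norm_I, hu1, one_mul, mul_one, Complex.norm_real,
      Real.norm_eq_abs, sq_abs, hr2]
  obtain ⟨s, hs, hsm⟩ := salem_zygmund n b D L hD hL hLn (by simp_rw [hbn]; exact hdef)
  set a : ℕ → ℂ := fun k => if k = 0 then 1 else (((‖c k‖ : ℂ) + (s k * r k : ℝ) * Complex.I) * u k) / k
    with ha
  refine ⟨a, ?_, ?_⟩
  · intro k
    simp only [ha]
    split_ifs with h
    · simp
    · have hk : (0 : ℝ) < k := by
        have : 0 < k := Nat.pos_of_ne_zero h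
        exact_mod_cast this
      rw [norm_div, norm_mul, hu1, mul_one, Complex.norm_natCast, div_eq_one_iff_eq hk.ne']
      rw [Complex.norm_add_mul_I]
      have h1 : ‖c k‖ ^ 2 + (s k * r k) ^ 2 = (k : ℝ) ^ 2 := by
        rw [mul_pow, hr2]
        have : s k ^ 2 = 1 := by rcases hs k with h | h <;> rw [h] <;> norm_num
        rw [this]; ring
      rw [h1, Real.sqrt_sq hk.le]
  · intro θ
    rw [← sum_sub_distrib]
    have h1 : ∀ k ∈ range (n + 1), (k : ℂ) * a k * e (k * θ) - c k * e (k * θ) =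
        (s k : ℂ) * b k * e (k * θ) := by
      intro k _
      by_cases h : k = 0
      · subst h
        have h2 : c 0 = 0 := by
          have := hc 0
          rw [Nat.cast_zero] at this
          exact norm_le_zero_iff.mp this
        have h3 : r 0 = 0 := by
          simp only [hr]; rw [h2]; simp
        simp only [hb]
        rw [h2, h3]; simp
      · have hk : (k : ℂ) ≠ 0 := by exact_mod_cast h
        simp only [ha, if_neg h, hb]
        have hck := hu2 k
        have h4 : (k : ℂ) * ((((‖c k‖ : ℂ) + (s k * r k : ℝ) * Complex.I) * u k) / k) =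
            ((‖c k‖ : ℂ) + (s k * r k : ℝ) * Complex.I) * u k := by
          field_simp
        rw [h4]
        push_cast
        linear_combination (-(e (k * θ))) * hck
    rw [sum_congr rfl h1]
    exact hsm θ

end Pool.Agent.Helper523.UF
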