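import Mathlib
import Pool.Agent.Helper523.UF.Periodic
import Pool.Agent.Helper523.UF.ConvClose
import Pool.Agent.Helper523.UF.SalemZygmund

set_option autoImplicit false

namespace Pool.Agent.Helper523.UF

open MeasureTheory Filter Topology Finset

lemma e_conj (x : ℝ) : starRingEnd ℂ (e x) = e (-x) := by
  unfold e
  rw [← Complex.exp_conj]
  congr 1
  rw [map_mul, Complex.conj_I, Complex.conj_ofReal]
  push_cast
  ring

/-- Parseval for trigonometric polynomials. -/
lemma parseval (n : ℕ) (c : ℕ → ℂ) :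
    ∫ θ in (-1 / 2 : ℝ)..(1 / 2), ‖∑ k ∈ range (n + 1), c k * e (k * θ)‖ ^ 2 =
      ∑ k ∈ range (n + 1), ‖c k‖ ^ 2 := by
  have hcc : ∀ k : ℕ, Continuous (fun θ : ℝ => e (k * θ)) := fun k => e_continuous.comp (by fun_prop)
  have h1 : ((∫ θ in (-1 / 2 : ℝ)..(1 / 2), ‖∑ k ∈ range (n + 1), c k * e (k * θ)‖ ^ 2 : ℝ) : ℂ) =
      ((∑ k ∈ range (n + 1), ‖c k‖ ^ 2 : ℝ) : ℂ) := by
    rw [← intervalIntegral.integral_ofReal]
    have h2 : ∀ θ : ℝ, ((‖∑ k ∈ range (n + 1), c k * e (k * θ)‖ ^ 2 : ℝ) : ℂ) =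
        ∑ k ∈ range (n + 1), ∑ l ∈ range (n + 1),
          (c k * starRingEnd ℂ (c l)) * e (((k : ℤ) - (l : ℤ) : ℤ) * θ) := by
      intro θ
      have h3 : ((‖∑ k ∈ range (n + 1), c k * e (k * θ)‖ ^ 2 : ℝ) : ℂ) =
          (∑ k ∈ range (n + 1), c k * e (k * θ)) * starRingEnd ℂ (∑ k ∈ range (n + 1), c k * e (k * θ)) := by
        rw [Complex.mul_conj, Complex.normSq_eq_norm_sq]
      rw [h3, map_sum, sum_mul_sum]
      apply sum_congr rfl
      intro k _
      apply sum_congr rfl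
      intro l _
      rw [map_mul, e_conj]
      have h4 : e (((k : ℤ) - (l : ℤ) : ℤ) * θ) = e (k * θ) * e (-(l * θ)) := by
        rw [← e_add]; congr 1; push_cast; ring
      rw [h4]; ring
    simp_rw [h2]
    rw [intervalIntegral.integral_finsetSum]
    · rw [Complex.ofReal_sum]
      apply sum_congr rfl
      intro k hk
      rw [intervalIntegral.integral_finsetSum]
      · simp_rw [intervalIntegral.integral_const_mul, integral_e_int]
        rw [Finset.sum_eq_single k]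
        · rw [sub_self, if_pos rfl, mul_one, Complex.mul_conj, Complex.normSq_eq_norm_sq]
        · intro l _ hl
          rw [if_neg (by omega), mul_zero]
        · intro h; exact absurd hk h
      · intro l _
        apply Continuous.intervalIntegrable
        exact continuous_const.mul (e_continuous.comp (by fun_prop))
    · intro k _
      apply Continuous.intervalIntegrable
      apply continuous_finsetSum
      intro l _
      exact continuous_const.mul (e_continuous.comp (by fun_prop))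
  exact_mod_cast h1

/-- The main construction with abstract parameters. -/
theorem assemble {H η x₀ B τ δ : ℝ} {N w p n : ℕ} (P : Pars H η x₀ B τ δ N)
    (Q : Conds H η x₀ B τ δ N w) (hwp : w + p ≤ n) (hx0 : (w : ℝ) + 1 ≤ x₀)
    (hx1 : xm H η x₀ N (1 - δ) ≤ p) (Λ : ℝ) (hΛ : 4 ≤ Λ)
    (hΛ2 : 130 * H ^ 2 / x₀ ^ 2 + (xm H η x₀ N (1 - δ) - x₀) / δ ≤ Λ)
    (ε₁ : ℝ) (hε₁ : 2 * Real.pi / Real.sqrt Λ + 5 * Real.sqrt Λ / w ≤ ε₁) (hε₁1 : ε₁ ≤ 1)
    (D L : ℝ) (hD : 0 < D) (hL : 0 < L) (hLn : (4 * ((n : ℝ) + 1) ^ 2) ≤ Real.exp L)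
    (hDD : ∑ k ∈ range (n + 1), (k : ℝ) ^ 2 - (H * (1 - ε₁)) ^ 2 ≤ D) :
    ∃ a : ℕ → ℂ, (∀ k, ‖a k‖ = 1) ∧ ∀ θ : ℝ,
      |‖∑ k ∈ range (n + 1), (k : ℂ) * a k * e (k * θ)‖ - H| ≤
        ε₁ * H + (2 * Real.sqrt L + 7) * Real.sqrt D := by
  have hH := P.hH
  have hw := Q.hw
  set ξ := xi H η x₀ δ N with hξ
  have hξ0 : 0 ≤ ξ := Int.fract_nonneg _
  have hξ1 : ξ < 1 := Int.fract_lt_one _
  set α := alph H η x₀ δ N ξ with hα
  have hac : Continuous α :=
    continuous_iff_continuousAt.mpr fun s => (alph_hasDerivAt P ξ s).continuousAt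
  have hec : Continuous (fun s => e (α s)) := e_continuous.comp hac
  -- the coefficients
  set c : ℕ → ℂ := fun k => (H : ℂ) * ((vh w p k : ℂ) * ∫ s in (0 : ℝ)..1, e (α s) * e (-(k * s)))
    with hc
  have hcb : ∀ k : ℕ, ‖c k‖ ≤ k := by
    intro k
    simp only [hc]
    rw [norm_mul, norm_mul, Complex.norm_real, Complex.norm_real, Real.norm_eq_abs, Real.norm_eq_abs,
      abs_of_pos hH, abs_of_nonneg (vh_nonneg w p k)]
    have h1 := alph_coef P ξ k
    have h2 := coef_bound P Q (k := (k : ℝ)) (J := k + ξ) (v := vh w p k) (Nat.cast_nonneg k)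
      (by linarith) (vh_nonneg w p k) (vh_le_one w p k hw) (vh_le w p k hw)
    refine le_trans ?_ h2
    have h3 := vh_nonneg w p k
    gcongr
  -- G
  have hG : ∀ θ, ∑ k ∈ range (n + 1), c k * e (k * θ) =
      (H : ℂ) * ∫ u in (-1 / 2 : ℝ)..(1 / 2), e (α (θ - u)) * Vk w p u := by
    intro θ
    have h1 := conv_expand w p n hw hwp (fun s => e (α s)) hec (fun x => alph_per P x) θ
    rw [h1, mul_sum]
    apply sum_congr rfl
    intro k _
    simp only [hc]
    ring
  have hclose : ∀ θ, ‖∑ k ∈ range (n + 1), c k * e (k * θ) - H * e (α θ)‖ ≤ ε₁ * H := by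
    intro θ
    have h1 := conv_close w p hw (fun x => Xp H η x₀ δ N x - ξ) α Λ hΛ
      (fun x => alph_hasDerivAt P ξ x)
      (fun s t => by
        have h2 := Xp_lip P s t
        have e1 : Xp H η x₀ δ N s - ξ - (Xp H η x₀ δ N t - ξ) = Xp H η x₀ δ N s - Xp H η x₀ δ N t := by
          ring
        rw [e1]
        exact h2.trans (mul_le_mul_of_nonneg_right hΛ2 (abs_nonneg _)))
      (fun x => by
        have := (Xp_bounds P x).1
        linarith)
      (fun x => by
        have := (Xp_bounds P x).2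
        linarith) θ
    rw [hG θ, ← mul_sub, norm_mul, Complex.norm_real, Real.norm_eq_abs, abs_of_pos hH, mul_comm]
    exact mul_le_mul_of_nonneg_right (h1.trans hε₁) hH.le
  have hGlow : ∀ θ, H * (1 - ε₁) ≤ ‖∑ k ∈ range (n + 1), c k * e (k * θ)‖ := by
    intro θ
    have h1 : ‖(H : ℂ) * e (α θ)‖ = H := by
      rw [norm_mul, e_norm, mul_one, Complex.norm_real, Real.norm_eq_abs, abs_of_pos hH]
    have h2 := norm_sub_norm_le ((H : ℂ) * e (α θ)) (∑ k ∈ range (n + 1), c k * e (k * θ))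
    rw [norm_sub_rev] at h2
    have h3 := hclose θ
    rw [h1] at h2
    linarith
  have hpar : (H * (1 - ε₁)) ^ 2 ≤ ∑ k ∈ range (n + 1), ‖c k‖ ^ 2 := by
    rw [← parseval]
    have hcont : Continuous (fun θ : ℝ => ‖∑ k ∈ range (n + 1), c k * e (k * θ)‖ ^ 2) := by
      apply Continuous.pow
      apply Continuous.norm
      apply continuous_finsetSum
      intro k _
      exact continuous_const.mul (e_continuous.comp (by fun_prop))
    have h1 : ∫ θ in (-1 / 2 : ℝ)..(1 / 2), (H * (1 - ε₁)) ^ 2 ≤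
        ∫ θ in (-1 / 2 : ℝ)..(1 / 2), ‖∑ k ∈ range (n + 1), c k * e (k * θ)‖ ^ 2 := by
      apply intervalIntegral.integral_mono (by norm_num) (continuous_const.intervalIntegrable _ _)
        (hcont.intervalIntegrable _ _)
      intro θ
      have h0 : 0 ≤ H * (1 - ε₁) := mul_nonneg hH.le (by linarith)
      exact pow_le_pow_left₀ h0 (hGlow θ) 2
    rw [intervalIntegral.integral_const] at h1
    have e1 : ((1 : ℝ) / 2 - (-1 / 2)) • (H * (1 - ε₁)) ^ 2 = (H * (1 - ε₁)) ^ 2 := by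
      rw [smul_eq_mul]; ring
    rw [e1] at h1
    exact h1
  obtain ⟨a, ha1, ha2⟩ := unimodularize n c hcb D L hD hL hLn (by
    rw [sum_sub_distrib]; linarith)
  refine ⟨a, ha1, fun θ => ?_⟩
  have h1 := ha2 θ
  have h2 := hclose θ
  have h3 : ‖(H : ℂ) * e (α θ)‖ = H := by
    rw [norm_mul, e_norm, mul_one, Complex.norm_real, Real.norm_eq_abs, abs_of_pos hH]
  have h4 : |‖∑ k ∈ range (n + 1), (k : ℂ) * a k * e (k * θ)‖ - ‖(H : ℂ) * e (α θ)‖| ≤
      ‖∑ k ∈ range (n + 1), (k : ℂ) * a k * e (k * θ) - (H : ℂ) * e (α θ)‖ := abs_norm_sub_norm_le _ _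
  rw [h3] at h4
  refine h4.trans ?_
  calc _ = ‖(∑ k ∈ range (n + 1), (k : ℂ) * a k * e (k * θ) - ∑ k ∈ range (n + 1), c k * e (k * θ)) +
        (∑ k ∈ range (n + 1), c k * e (k * θ) - (H : ℂ) * e (α θ))‖ := by congr 1; ring
    _ ≤ _ := norm_add_le _ _
    _ ≤ _ := by linarith

end Pool.Agent.Helper523.UF
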