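import Mathlib
import Pool.Agent.Helper523.UF.Assemble

set_option autoImplicit false

namespace Pool.Agent.Helper523.UF

open MeasureTheory Filter Topology Finset

lemma sum_sq_le (n : ℕ) : ∑ k ∈ range (n + 1), (k : ℝ) ^ 2 ≤ (n : ℝ) ^ 3 / 3 + (n : ℝ) ^ 2 := by
  induction n with
  | zero => simp
  | succ n ih =>
    rw [sum_range_succ]
    push_cast
    have : (0 : ℝ) ≤ n := Nat.cast_nonneg n
    nlinarith

/-- numeric setting: `M = m` large, with all parameters explicit -/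
structure Setting (M H : ℝ) : Prop where
  hM : 1000000 ≤ M
  hH0 : 0 < H
  hHu : H ≤ M ^ 120
  hHl : M ^ 120 / 2 ≤ H

namespace Setting

variable {M H : ℝ} (S : Setting M H)
include S

lemma pos : 0 < M := by linarith [S.hM]
lemma one_le : 1 ≤ M := by linarith [S.hM]

lemma pw {i j : ℕ} (h : i ≤ j) : M ^ i ≤ M ^ j := pow_le_pow_right₀ S.one_le h

lemma pstep (i : ℕ) : 1000000 * M ^ i ≤ M ^ (i + 1) := by
  have := S.pos
  rw [pow_succ, mul_comm]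
  apply mul_le_mul_of_nonneg_left S.hM (by positivity)

lemma b2 : H ^ 2 / (M ^ 79 + 1) ^ 2 ≤ M ^ 82 := by
  have hp := S.pos
  have hH := S.hH0
  have h1 := S.hHu
  rw [div_le_iff₀ (by positivity)]
  calc H ^ 2 ≤ (M ^ 120) ^ 2 := by gcongr
    _ = M ^ 82 * (M ^ 79) ^ 2 := by ring
    _ ≤ M ^ 82 * (M ^ 79 + 1) ^ 2 := by gcongr; linarith

lemma b1 : H * (1 / (M ^ 79 + 1)) ≤ M ^ 41 := by
  have hp := S.pos
  have hH := S.hH0
  have h1 := S.hHu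
  rw [mul_one_div, div_le_iff₀ (by positivity)]
  calc H ≤ M ^ 120 := h1
    _ = M ^ 41 * M ^ 79 := by ring
    _ ≤ M ^ 41 * (M ^ 79 + 1) := by gcongr; linarith

lemma b3 : H * (1 / M ^ 44) ≤ M ^ 76 := by
  have hp := S.pos
  have h1 := S.hHu
  rw [mul_one_div, div_le_iff₀ (by positivity)]
  calc H ≤ M ^ 120 := h1
    _ = M ^ 76 * M ^ 44 := by ring

lemma b4 : H * (1 / (H ^ 2 / (M ^ 80) ^ 2 * (1 / M ^ 34))) ≤ 2 * M ^ 74 := by
  have hp := S.pos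
  have hH := S.hH0
  have h1 := S.hHl
  have e1 : H * (1 / (H ^ 2 / (M ^ 80) ^ 2 * (1 / M ^ 34))) = M ^ 194 / H := by
    field_simp
  rw [e1, div_le_iff₀ hH]
  calc M ^ 194 = 2 * M ^ 74 * (M ^ 120 / 2) := by ring
    _ ≤ 2 * M ^ 74 * H := by gcongr

lemma b5 : 128 * M * H ^ 2 / (M ^ 79 + 1) ^ 2 + 33800 * M ^ 80 * H ^ 4 / (M ^ 79 + 1) ^ 6 ≤
    33928 * M ^ 86 := by
  have hp := S.pos
  have hH := S.hH0
  have h1 := S.hHu
  have hb2 := S.b2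
  have e1 : 128 * M * H ^ 2 / (M ^ 79 + 1) ^ 2 ≤ 128 * M ^ 86 := by
    calc 128 * M * H ^ 2 / (M ^ 79 + 1) ^ 2 = 128 * M * (H ^ 2 / (M ^ 79 + 1) ^ 2) := by ring
      _ ≤ 128 * M * M ^ 82 := by gcongr
      _ = 128 * M ^ 83 := by ring
      _ ≤ 128 * M ^ 86 := by
          apply mul_le_mul_of_nonneg_left (S.pw (by norm_num)) (by norm_num)
  have e2 : 33800 * M ^ 80 * H ^ 4 / (M ^ 79 + 1) ^ 6 ≤ 33800 * M ^ 86 := by
    rw [div_le_iff₀ (by positivity)]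
    calc 33800 * M ^ 80 * H ^ 4 ≤ 33800 * M ^ 80 * (M ^ 120) ^ 4 := by gcongr
      _ = 33800 * M ^ 86 * (M ^ 79) ^ 6 := by ring
      _ ≤ 33800 * M ^ 86 * (M ^ 79 + 1) ^ 6 := by gcongr; linarith
  linarith

lemma b6 : H * (13 * (128 * M * H ^ 2 / (M ^ 79 + 1) ^ 2 +
    33800 * M ^ 80 * H ^ 4 / (M ^ 79 + 1) ^ 6) * (1 / M ^ 34) ^ 4) ≤ 441064 * M ^ 70 := by
  have hp := S.pos
  have hH := S.hH0
  have h1 := S.hHu
  have h5 := S.b5
  calc _ ≤ M ^ 120 * (13 * (33928 * M ^ 86) * (1 / M ^ 34) ^ 4) := by gcongr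
    _ = 441064 * M ^ 70 := by field_simp; ring

end Setting

/-- the value of the time profile at the end of the main zone -/
noncomputable def kT (m : ℕ) : ℝ := kap (1 / (m : ℝ)) m (1 - 1 / (m : ℝ) ^ 44)

/-- the height -/
noncomputable def Hm (m : ℕ) : ℝ :=
  Real.sqrt ((((m : ℝ) ^ 80 - (m : ℝ) ^ 79) ^ 3 - ((m : ℝ) ^ 79 + 1) ^ 3) / (3 * kT m))

section

variable {m : ℕ} (hm : (1000000 : ℝ) ≤ m)
include hm

lemma pwm {i j : ℕ} (h : i ≤ j) : (m : ℝ) ^ i ≤ (m : ℝ) ^ j :=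
  pow_le_pow_right₀ (by linarith) h

lemma pstepm (i : ℕ) : 1000000 * (m : ℝ) ^ i ≤ (m : ℝ) ^ (i + 1) := by
  rw [pow_succ, mul_comm]
  apply mul_le_mul_of_nonneg_left hm (by positivity)

lemma one_le_pwm (i : ℕ) : 1 ≤ (m : ℝ) ^ i := one_le_pow₀ (by linarith)

lemma d44_small : 1 / (m : ℝ) ^ 44 ≤ 1 / 1000000 := by
  apply one_div_le_one_div_of_le (by norm_num)
  have h1 := pwm hm (i := 1) (j := 44) (by norm_num)
  rw [pow_one] at h1
  linarith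

lemma kT_lower : 1 / 2 ≤ kT m := by
  have h1 := d44_small hm
  have h0 : 0 < 1 / (m : ℝ) ^ 44 := by positivity
  have h2 := kap_lower (η := 1 / (m : ℝ)) (N := m) (by positivity) (θ := 1 - 1 / (m : ℝ) ^ 44)
    (by linarith) (by linarith)
  unfold kT
  linarith

lemma kT_upper : kT m ≤ 1 + 129 / m := by
  have h1 := d44_small hm
  have h0 : 0 < 1 / (m : ℝ) ^ 44 := by positivity
  have h2 := kap_upper (η := 1 / (m : ℝ)) (N := m) (by positivity) (θ := 1 - 1 / (m : ℝ) ^ 44)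
    (by linarith) (by linarith)
  have hm0 : (0 : ℝ) < m := by linarith
  have h3 : 128 / ((m : ℝ) + 1) ≤ 128 / m := by
    apply div_le_div_of_nonneg_left (by norm_num) hm0 (by linarith)
  have h4 : 1 + 129 / (m : ℝ) = 1 + 1 / m + 128 / m := by ring
  unfold kT
  linarith

lemma cubes_lower : (m : ℝ) ^ 240 * (1 - 4 / m) ≤
    (((m : ℝ) ^ 80 - (m : ℝ) ^ 79) ^ 3 - ((m : ℝ) ^ 79 + 1) ^ 3) := by
  have hm0 : (0 : ℝ) < m := by linarith
  have e1 : (m : ℝ) ^ 240 * (1 - 4 / m) = (m : ℝ) ^ 240 - 4 * (m : ℝ) ^ 239 := by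
    field_simp
  have e2 : ((m : ℝ) ^ 80 - (m : ℝ) ^ 79) ^ 3 = (m : ℝ) ^ 240 - 3 * (m : ℝ) ^ 239 +
      3 * (m : ℝ) ^ 238 - (m : ℝ) ^ 237 := by ring
  have h3 : ((m : ℝ) ^ 79 + 1) ^ 3 ≤ (2 * (m : ℝ) ^ 79) ^ 3 := by
    have := one_le_pwm hm 79
    gcongr
    linarith
  have e3 : (2 * (m : ℝ) ^ 79) ^ 3 = 8 * (m : ℝ) ^ 237 := by ring
  have h4 := pstepm hm 237
  have h5 := pstepm hm 238
  norm_num at h4 h5
  have h6 : 0 < (m : ℝ) ^ 237 := by positivity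
  rw [e1, e2]
  linarith

lemma Hm_arg_pos : 0 < (((m : ℝ) ^ 80 - (m : ℝ) ^ 79) ^ 3 - ((m : ℝ) ^ 79 + 1) ^ 3) / (3 * kT m) := by
  have h1 := cubes_lower hm
  have h2 := kT_lower hm
  have hm0 : (0 : ℝ) < m := by linarith
  have h3 : 0 < (m : ℝ) ^ 240 * (1 - 4 / m) := by
    apply mul_pos (by positivity)
    have : 4 / (m : ℝ) < 1 := by rw [div_lt_one hm0]; linarith
    linarith
  apply div_pos (by linarith) (by linarith)

lemma Hm_pos : 0 < Hm m := Real.sqrt_pos.mpr (Hm_arg_pos hm)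

lemma Hm_sq : Hm m ^ 2 = (((m : ℝ) ^ 80 - (m : ℝ) ^ 79) ^ 3 - ((m : ℝ) ^ 79 + 1) ^ 3) / (3 * kT m) :=
  Real.sq_sqrt (Hm_arg_pos hm).le

lemma Hm_upper : Hm m ≤ (m : ℝ) ^ 120 := by
  have h2 := kT_lower hm
  have hm0 : (0 : ℝ) < m := by linarith
  have h3 : Hm m ^ 2 ≤ ((m : ℝ) ^ 120) ^ 2 := by
    rw [Hm_sq hm, div_le_iff₀ (by linarith)]
    have e2 : ((m : ℝ) ^ 80 - (m : ℝ) ^ 79) ^ 3 = (m : ℝ) ^ 240 - 3 * (m : ℝ) ^ 239 +
      3 * (m : ℝ) ^ 238 - (m : ℝ) ^ 237 := by ring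
    have h4 : (0 : ℝ) < ((m : ℝ) ^ 79 + 1) ^ 3 := by positivity
    have h5 := pstepm hm 238
    norm_num at h5
    have h6 : 0 < (m : ℝ) ^ 237 := by positivity
    have h7 : 0 < (m : ℝ) ^ 240 := by positivity
    have h8 : 0 < (m : ℝ) ^ 238 := by positivity
    have e3 : ((m : ℝ) ^ 120) ^ 2 = (m : ℝ) ^ 240 := by ring
    rw [e2, e3]
    nlinarith
  exact le_of_pow_le_pow_left₀ (by norm_num) (by positivity) h3

lemma Hm_sq_lower : (m : ℝ) ^ 240 / 3 * (1 - 133 / m) ≤ Hm m ^ 2 := by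
  have h2 := kT_lower hm
  have h2' := kT_upper hm
  have hm0 : (0 : ℝ) < m := by linarith
  have h3 := cubes_lower hm
  rw [Hm_sq hm, le_div_iff₀ (by linarith)]
  refine le_trans ?_ h3
  have h4 : (1 - 133 / (m : ℝ)) * kT m ≤ 1 - 4 / m := by
    have h5 : 0 ≤ 1 - 133 / (m : ℝ) := by
      have : 133 / (m : ℝ) ≤ 1 := by rw [div_le_one hm0]; linarith
      linarith
    calc (1 - 133 / (m : ℝ)) * kT m ≤ (1 - 133 / (m : ℝ)) * (1 + 129 / m) := by gcongr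
      _ = 1 - 4 / m - 133 * 129 / (m : ℝ) ^ 2 := by field_simp; ring
      _ ≤ 1 - 4 / m := by
          have : 0 ≤ 133 * 129 / (m : ℝ) ^ 2 := by positivity
          linarith
  calc (m : ℝ) ^ 240 / 3 * (1 - 133 / m) * (3 * kT m) = (m : ℝ) ^ 240 * ((1 - 133 / m) * kT m) := by
        ring
    _ ≤ _ := by gcongr

lemma Hm_lower : (m : ℝ) ^ 120 / 2 ≤ Hm m := by
  have hm0 : (0 : ℝ) < m := by linarith
  have h1 := Hm_sq_lower hm
  have h2 : ((m : ℝ) ^ 120 / 2) ^ 2 ≤ Hm m ^ 2 := by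
    refine le_trans ?_ h1
    have h3 : 133 / (m : ℝ) ≤ 1 / 4 := by rw [div_le_div_iff₀ hm0 (by norm_num)]; linarith
    have e1 : ((m : ℝ) ^ 120 / 2) ^ 2 = (m : ℝ) ^ 240 / 4 := by ring
    have h4 : 0 < (m : ℝ) ^ 240 := by positivity
    rw [e1]
    nlinarith
  exact le_of_pow_le_pow_left₀ (by norm_num) (Hm_pos hm).le h2

lemma setting : Setting (m : ℝ) (Hm m) := ⟨hm, Hm_pos hm, Hm_upper hm, Hm_lower hm⟩

lemma xm_end : xm (Hm m) (1 / m) ((m : ℝ) ^ 79 + 1) m (1 - 1 / (m : ℝ) ^ 44) =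
    (m : ℝ) ^ 80 - (m : ℝ) ^ 79 := by
  have hm0 : (0 : ℝ) < m := by linarith
  have h1 := d44_small hm
  have h0 : 0 < 1 / (m : ℝ) ^ 44 := by positivity
  have h2 := xm_cube (H := Hm m) (η := 1 / m) (x₀ := (m : ℝ) ^ 79 + 1) (N := m)
    (θ := 1 - 1 / (m : ℝ) ^ 44) (by positivity) (by positivity) (by linarith) (by linarith)
  have h3 := kT_lower hm
  have h4 : gg (Hm m) (1 / m) ((m : ℝ) ^ 79 + 1) m (1 - 1 / (m : ℝ) ^ 44) =
      ((m : ℝ) ^ 80 - (m : ℝ) ^ 79) ^ 3 := by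
    unfold gg
    have e1 : kap (1 / (m : ℝ)) m (1 - 1 / (m : ℝ) ^ 44) = kT m := rfl
    rw [e1, Hm_sq hm]
    have : kT m ≠ 0 := by linarith
    field_simp
    ring
  rw [h4] at h2
  have h5 := pstepm hm 79
  norm_num at h5
  have h6 : 0 < (m : ℝ) ^ 79 := by positivity
  exact (pow_left_inj₀ (xm_nonneg (by positivity) (by positivity) (by linarith) (by linarith))
    (by linarith) (by norm_num)).mp h2

lemma lip_const : 130 * Hm m ^ 2 / ((m : ℝ) ^ 79 + 1) ^ 2 ≤ 130 * (m : ℝ) ^ 82 := by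
  have h := (setting hm).b2
  calc 130 * Hm m ^ 2 / ((m : ℝ) ^ 79 + 1) ^ 2 = 130 * (Hm m ^ 2 / ((m : ℝ) ^ 79 + 1) ^ 2) := by ring
    _ ≤ _ := by gcongr

lemma t34_small : 1 / (m : ℝ) ^ 34 ≤ 1 / 1000000 := by
  apply one_div_le_one_div_of_le (by norm_num)
  have h1 := pwm hm (i := 1) (j := 34) (by norm_num)
  rw [pow_one] at h1
  linarith

lemma pars : Pars (Hm m) (1 / m) ((m : ℝ) ^ 79 + 1) ((m : ℝ) ^ 80) (1 / (m : ℝ) ^ 34)
    (1 / (m : ℝ) ^ 44) m := by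
  have hm0 : (0 : ℝ) < m := by linarith
  have h1 := d44_small hm
  have h2 := t34_small hm
  have h0 : 0 < 1 / (m : ℝ) ^ 44 := by positivity
  have h0' : 0 < 1 / (m : ℝ) ^ 34 := by positivity
  have hη1 : 1 / (m : ℝ) ≤ 1 := by rw [div_le_one hm0]; linarith
  refine ⟨Hm_pos hm, by positivity, by positivity, hη1, h0', h0, ?_, by positivity, ?_, ?_⟩
  · linarith
  · intro θ hθ
    have h3 := xm_mono (N := m) (η := 1 / (m : ℝ)) (x₀ := (m : ℝ) ^ 79 + 1) (Hm_pos hm)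
      (by positivity) (by positivity) hθ (t := 1)
      ⟨zero_le_one, le_rfl⟩ hθ.2
    have h4 := xm_lip (N := m) (η := 1 / (m : ℝ)) (x₀ := (m : ℝ) ^ 79 + 1) (Hm_pos hm)
      (by positivity) (by positivity) hη1 (s := 1) (t := 1 - 1 / (m : ℝ) ^ 44)
      ⟨zero_le_one, le_rfl⟩ ⟨by linarith, by linarith⟩
    have h5 := lip_const hm
    rw [xm_end hm] at h4
    have e1 : |(1 : ℝ) - (1 - 1 / (m : ℝ) ^ 44)| = 1 / (m : ℝ) ^ 44 := by
      rw [abs_of_nonneg (by linarith)]; ring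
    rw [e1] at h4
    have h6 := (le_abs_self _).trans h4
    have h7 : 130 * Hm m ^ 2 / ((m : ℝ) ^ 79 + 1) ^ 2 * (1 / (m : ℝ) ^ 44) ≤ 130 * (m : ℝ) ^ 38 := by
      calc _ ≤ 130 * (m : ℝ) ^ 82 * (1 / (m : ℝ) ^ 44) := by gcongr
        _ = _ := by field_simp
    have h8 : 130 * (m : ℝ) ^ 38 ≤ (m : ℝ) ^ 79 := by
      have h9 := pwm hm (i := 39) (j := 79) (by norm_num)
      have h10 := pstepm hm 38
      norm_num at h10
      have : 0 < (m : ℝ) ^ 38 := by positivity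
      linarith
    linarith
  · have e1 : (m : ℝ) * (1 / (m : ℝ) ^ 44 + 2 * (1 / (m : ℝ) ^ 34)) =
      1 / (m : ℝ) ^ 43 + 2 * (1 / (m : ℝ) ^ 33) := by field_simp
    rw [e1]
    have h3 : 1 / (m : ℝ) ^ 43 ≤ 1 / 1000000 := by
      apply one_div_le_one_div_of_le (by norm_num)
      have h1 := pwm hm (i := 1) (j := 43) (by norm_num)
      rw [pow_one] at h1
      linarith
    have h4 : 1 / (m : ℝ) ^ 33 ≤ 1 / 1000000 := by
      apply one_div_le_one_div_of_le (by norm_num)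
      have h1 := pwm hm (i := 1) (j := 33) (by norm_num)
      rw [pow_one] at h1
      linarith
    linarith

lemma conds : Conds (Hm m) (1 / m) ((m : ℝ) ^ 79 + 1) ((m : ℝ) ^ 80) (1 / (m : ℝ) ^ 34)
    (1 / (m : ℝ) ^ 44) m (m ^ 79) := by
  have hm0 : (0 : ℝ) < m := by linarith
  have hm0' : 0 < m := by exact_mod_cast hm0
  have h1 := d44_small hm
  have h2 := t34_small hm
  have h0 : 0 < 1 / (m : ℝ) ^ 44 := by positivity
  have h0' : 0 < 1 / (m : ℝ) ^ 34 := by positivity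
  have hη1 : 1 / (m : ℝ) ≤ 1 := by rw [div_le_one hm0]; linarith
  have S := setting hm
  have b1 := S.b1
  have b3 := S.b3
  have b4 := S.b4
  have b6 := S.b6
  have P := pars hm
  have hH := Hm_pos hm
  have q0 : 1 ≤ (m : ℝ) ^ 70 := one_le_pwm hm 70
  have q1 : (m : ℝ) ^ 41 ≤ (m : ℝ) ^ 76 := pwm hm (by norm_num)
  have q2 : (m : ℝ) ^ 48 ≤ (m : ℝ) ^ 76 := pwm hm (by norm_num)
  have q3 : (m : ℝ) ^ 70 ≤ (m : ℝ) ^ 74 := pwm hm (by norm_num)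
  have q4 : 1000000 * (m : ℝ) ^ 75 ≤ (m : ℝ) ^ 76 := pstepm hm 75
  have q4' : 1000000 * (m : ℝ) ^ 74 ≤ (m : ℝ) ^ 75 := pstepm hm 74
  have q5 : 1000000 * (m : ℝ) ^ 76 ≤ (m : ℝ) ^ 77 := pstepm hm 76
  have q6 : 1000000 * (m : ℝ) ^ 77 ≤ (m : ℝ) ^ 78 := pstepm hm 77
  have q7 : 1000000 * (m : ℝ) ^ 78 ≤ (m : ℝ) ^ 79 := pstepm hm 78
  have q8 : 1000000 * (m : ℝ) ^ 79 ≤ (m : ℝ) ^ 80 := pstepm hm 79
  have hlip := lip_const hm
  refine ⟨by positivity, ?_, ?_, ?_, ?_⟩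
  · push_cast
    rw [mul_add]
    linarith
  · have h4 := xm_lip (N := m) (η := 1 / (m : ℝ)) (x₀ := (m : ℝ) ^ 79 + 1) (Hm_pos hm)
      (by positivity) (by positivity) hη1 (s := 2 * (1 / (m : ℝ) ^ 34)) (t := 0)
      ⟨by linarith, by linarith⟩ ⟨le_rfl, zero_le_one⟩
    have e0 : |2 * (1 / (m : ℝ) ^ 34)| = 2 * (1 / (m : ℝ) ^ 34) := abs_of_pos (by positivity)
    rw [xm_zero (by positivity) (by positivity), sub_zero, e0] at h4
    have h6 := (le_abs_self _).trans h4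
    have h7 : 130 * Hm m ^ 2 / ((m : ℝ) ^ 79 + 1) ^ 2 * (2 * (1 / (m : ℝ) ^ 34)) ≤ 260 * (m : ℝ) ^ 48 := by
      calc _ ≤ 130 * (m : ℝ) ^ 82 * (2 * (1 / (m : ℝ) ^ 34)) := by gcongr
        _ = _ := by field_simp; ring
    linarith
  · have e1 : 2 / (Hm m ^ 2 / ((m : ℝ) ^ 80) ^ 2 * (1 / (m : ℝ) ^ 34)) =
        2 * (1 / (Hm m ^ 2 / ((m : ℝ) ^ 80) ^ 2 * (1 / (m : ℝ) ^ 34))) := by ring
    rw [mul_add, mul_add, e1]
    have e2 : ((m : ℝ) ^ 79 + 1) * (1 / (m : ℝ) / 4) = (m : ℝ) ^ 78 / 4 + 1 / (4 * m) := by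
      field_simp
    have e3 : 0 < 1 / (4 * (m : ℝ)) := by positivity
    rw [e2]
    linarith
  · rw [xm_end hm]
    have h4 := xm_lip (N := m) (η := 1 / (m : ℝ)) (x₀ := (m : ℝ) ^ 79 + 1) (Hm_pos hm)
      (by positivity) (by positivity) hη1 (s := 1 - 1 / (m : ℝ) ^ 44)
      (t := 1 - 1 / (m : ℝ) ^ 44 - 1 / (m : ℝ) ^ 34)
      ⟨by linarith, by linarith⟩ ⟨by linarith, by linarith⟩
    rw [xm_end hm] at h4
    have e1 : |(1 - 1 / (m : ℝ) ^ 44) - (1 - 1 / (m : ℝ) ^ 44 - 1 / (m : ℝ) ^ 34)| = 1 / (m : ℝ) ^ 34 := by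
      rw [abs_of_nonneg (by linarith)]; ring
    rw [e1] at h4
    have h6 := (le_abs_self _).trans h4
    have h7 : 130 * Hm m ^ 2 / ((m : ℝ) ^ 79 + 1) ^ 2 * (1 / (m : ℝ) ^ 34) ≤ 130 * (m : ℝ) ^ 48 := by
      calc _ ≤ 130 * (m : ℝ) ^ 82 * (1 / (m : ℝ) ^ 34) := by gcongr
        _ = _ := by field_simp
    linarith

/-- The construction with explicit parameters. -/
theorem explicit (L : ℝ) (hL : 0 < L) (hLn : (4 * (((m ^ 80 : ℕ) : ℝ) + 1) ^ 2) ≤ Real.exp L) :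
    ∃ a : ℕ → ℂ, (∀ k, ‖a k‖ = 1) ∧ ∀ θ : ℝ,
      |‖∑ k ∈ range (m ^ 80 + 1), (k : ℂ) * a k * e (k * θ)‖ - Hm m| ≤
        1 / m * Hm m + (2 * Real.sqrt L + 7) * Real.sqrt (49 * (m : ℝ) ^ 239) := by
  have hm0 : (0 : ℝ) < m := by linarith
  have hm0' : 0 < m := by exact_mod_cast hm0
  have h0 : 0 < 1 / (m : ℝ) ^ 44 := by positivity
  have hle : m ^ 79 ≤ m ^ 80 := Nat.pow_le_pow_right hm0' (by norm_num)
  have hsq : Real.sqrt ((m : ℝ) ^ 124) = (m : ℝ) ^ 62 := by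
    have : (m : ℝ) ^ 124 = ((m : ℝ) ^ 62) ^ 2 := by ring
    rw [this, Real.sqrt_sq (by positivity)]
  have hη1 : 1 / (m : ℝ) ≤ 1 := by rw [div_le_one hm0]; linarith
  apply assemble (pars hm) (conds hm) (p := m ^ 80 - m ^ 79) (n := m ^ 80) (by omega)
    (by push_cast; rfl) (by rw [xm_end hm]; push_cast [Nat.cast_sub hle]; rfl) ((m : ℝ) ^ 124)
    _ _ _ _ hη1 _ _ (by positivity) hL hLn
  · -- deficit
    have h1 := sum_sq_le (m ^ 80)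
    push_cast at h1
    have h2 := Hm_sq_lower hm
    have h3 : 0 ≤ 1 - 1 / (m : ℝ) := by linarith
    have h4 : (Hm m * (1 - 1 / (m : ℝ))) ^ 2 = Hm m ^ 2 * (1 - 1 / (m : ℝ)) ^ 2 := by ring
    have h5 : (m : ℝ) ^ 240 / 3 * (1 - 133 / m) * (1 - 1 / (m : ℝ)) ^ 2 ≤
        Hm m ^ 2 * (1 - 1 / (m : ℝ)) ^ 2 := by gcongr
    have e1 : (m : ℝ) ^ 240 / 3 * (1 - 133 / m) * (1 - 1 / (m : ℝ)) ^ 2 =
        (m : ℝ) ^ 240 / 3 - 45 * (m : ℝ) ^ 239 + 89 * (m : ℝ) ^ 238 - 133 / 3 * (m : ℝ) ^ 237 := by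
      field_simp
      ring
    have e2 : ((m : ℝ) ^ 80) ^ 3 = (m : ℝ) ^ 240 := by ring
    have e3 : ((m : ℝ) ^ 80) ^ 2 = (m : ℝ) ^ 160 := by ring
    have h6 := pwm hm (i := 160) (j := 237) (by norm_num)
    have h7 := pstepm hm 237
    have h8 := pstepm hm 238
    norm_num at h7 h8
    rw [e2, e3] at h1
    have h9 : 0 < (m : ℝ) ^ 237 := by positivity
    linarith
  · have h1 := one_le_pwm hm 123
    have h2 := pstepm hm 123
    norm_num at h2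
    linarith
  · rw [xm_end hm]
    have h1 := lip_const hm
    have e1 : ((m : ℝ) ^ 80 - (m : ℝ) ^ 79 - ((m : ℝ) ^ 79 + 1)) / (1 / (m : ℝ) ^ 44) =
        (m : ℝ) ^ 124 - 2 * (m : ℝ) ^ 123 - (m : ℝ) ^ 44 := by
      field_simp
      ring
    rw [e1]
    have h2 := pwm hm (i := 83) (j := 123) (by norm_num)
    have h3 := pstepm hm 82
    norm_num at h3
    have h4 : 0 < (m : ℝ) ^ 44 := by positivity
    have h5 : 0 < (m : ℝ) ^ 82 := by positivity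
    linarith
  · rw [hsq]
    push_cast
    have e1 : 2 * Real.pi / (m : ℝ) ^ 62 + 5 * (m : ℝ) ^ 62 / (m : ℝ) ^ 79 =
        (2 * Real.pi / (m : ℝ) ^ 61 + 5 / (m : ℝ) ^ 16) * (1 / m) := by
      field_simp
    rw [e1]
    have h1 : 2 * Real.pi / (m : ℝ) ^ 61 ≤ 1 / 2 := by
      rw [div_le_div_iff₀ (by positivity) (by norm_num)]
      have h2 := pwm hm (i := 1) (j := 61) (by norm_num)
      rw [pow_one] at h2
      have := Real.pi_lt_d2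
      linarith
    have h3 : 5 / (m : ℝ) ^ 16 ≤ 1 / 2 := by
      rw [div_le_div_iff₀ (by positivity) (by norm_num)]
      have h2 := pwm hm (i := 1) (j := 16) (by norm_num)
      rw [pow_one] at h2
      linarith
    have h4 : 0 < 1 / (m : ℝ) := by positivity
    nlinarith

end

end Pool.Agent.Helper523.UF
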