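import Mathlib
import Pool.Agent.Helper523.UF.Final

set_option autoImplicit false

namespace Pool.Agent.Helper523.UFA

open Pool.Agent.Helper523.UF

open MeasureTheory Filter Topology Finset

/-- numeric setting -/
structure Setting (M ν H : ℝ) : Prop where
  hM : 1000000 ≤ M
  hν1 : M ^ 80 ≤ ν
  hν2 : ν ≤ 2 * M ^ 80
  hH0 : 0 < H
  hHu : H ≤ 3 * M ^ 120
  hHl : M ^ 120 / 2 ≤ H

namespace Setting

variable {M ν H : ℝ} (S : Setting M ν H)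
include S

lemma pos : 0 < M := by linarith [S.hM]
lemma νpos : 0 < ν := lt_of_lt_of_le (by have := S.pos; positivity) S.hν1
lemma one_le : 1 ≤ M := by linarith [S.hM]

lemma pw {i j : ℕ} (h : i ≤ j) : M ^ i ≤ M ^ j := pow_le_pow_right₀ S.one_le h

lemma b2 : H ^ 2 / (M ^ 79 + 1) ^ 2 ≤ 9 * M ^ 82 := by
  have hp := S.pos
  have hH := S.hH0
  have h1 := S.hHu
  rw [div_le_iff₀ (by positivity)]
  calc H ^ 2 ≤ (3 * M ^ 120) ^ 2 := by gcongr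
    _ = 9 * M ^ 82 * (M ^ 79) ^ 2 := by ring
    _ ≤ 9 * M ^ 82 * (M ^ 79 + 1) ^ 2 := by gcongr; linarith

lemma b1 : H * (1 / (M ^ 79 + 1)) ≤ 3 * M ^ 41 := by
  have hp := S.pos
  have hH := S.hH0
  have h1 := S.hHu
  rw [mul_one_div, div_le_iff₀ (by positivity)]
  calc H ≤ 3 * M ^ 120 := h1
    _ = 3 * M ^ 41 * M ^ 79 := by ring
    _ ≤ 3 * M ^ 41 * (M ^ 79 + 1) := by gcongr; linarith

lemma b3 : H * (1 / M ^ 44) ≤ 3 * M ^ 76 := by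
  have hp := S.pos
  have h1 := S.hHu
  rw [mul_one_div, div_le_iff₀ (by positivity)]
  calc H ≤ 3 * M ^ 120 := h1
    _ = 3 * M ^ 76 * M ^ 44 := by ring

lemma b4 : H * (1 / (H ^ 2 / ν ^ 2 * (1 / M ^ 34))) ≤ 8 * M ^ 74 := by
  have hp := S.pos
  have hν := S.νpos
  have hH := S.hH0
  have h1 := S.hHl
  have h2 := S.hν2
  have e1 : H * (1 / (H ^ 2 / ν ^ 2 * (1 / M ^ 34))) = ν ^ 2 * M ^ 34 / H := by
    field_simp
  rw [e1, div_le_iff₀ hH]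
  calc ν ^ 2 * M ^ 34 ≤ (2 * M ^ 80) ^ 2 * M ^ 34 := by gcongr
    _ = 8 * M ^ 74 * (M ^ 120 / 2) := by ring
    _ ≤ 8 * M ^ 74 * H := by gcongr

lemma b5 : 128 * M * H ^ 2 / (M ^ 79 + 1) ^ 2 + 33800 * ν * H ^ 4 / (M ^ 79 + 1) ^ 6 ≤
    5476752 * M ^ 86 := by
  have hp := S.pos
  have hν := S.νpos
  have hH := S.hH0
  have h1 := S.hHu
  have h2 := S.hν2
  have hb2 := S.b2
  have e1 : 128 * M * H ^ 2 / (M ^ 79 + 1) ^ 2 ≤ 1152 * M ^ 86 := by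
    calc 128 * M * H ^ 2 / (M ^ 79 + 1) ^ 2 = 128 * M * (H ^ 2 / (M ^ 79 + 1) ^ 2) := by ring
      _ ≤ 128 * M * (9 * M ^ 82) := by gcongr
      _ = 1152 * M ^ 83 := by ring
      _ ≤ 1152 * M ^ 86 := by
          apply mul_le_mul_of_nonneg_left (S.pw (by norm_num)) (by norm_num)
  have e2 : 33800 * ν * H ^ 4 / (M ^ 79 + 1) ^ 6 ≤ 5475600 * M ^ 86 := by
    rw [div_le_iff₀ (by positivity)]
    calc 33800 * ν * H ^ 4 ≤ 33800 * (2 * M ^ 80) * (3 * M ^ 120) ^ 4 := by gcongr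
      _ = 5475600 * M ^ 86 * (M ^ 79) ^ 6 := by ring
      _ ≤ 5475600 * M ^ 86 * (M ^ 79 + 1) ^ 6 := by gcongr; linarith
  linarith

lemma b6 : H * (13 * (128 * M * H ^ 2 / (M ^ 79 + 1) ^ 2 +
    33800 * ν * H ^ 4 / (M ^ 79 + 1) ^ 6) * (1 / M ^ 34) ^ 4) ≤ 213593328 * M ^ 70 := by
  have hp := S.pos
  have hν := S.νpos
  have hH := S.hH0
  have h1 := S.hHu
  have h5 := S.b5
  calc _ ≤ 3 * M ^ 120 * (13 * (5476752 * M ^ 86) * (1 / M ^ 34) ^ 4) := by gcongr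
    _ = 213593328 * M ^ 70 := by field_simp; ring

end Setting

/-- the height -/
noncomputable def Hm (m n : ℕ) : ℝ :=
  Real.sqrt ((((n : ℝ) - (m : ℝ) ^ 79) ^ 3 - ((m : ℝ) ^ 79 + 1) ^ 3) / (3 * kT m))

section

variable {m n : ℕ} (hm : (1000000 : ℝ) ≤ m) (hn1 : (m : ℝ) ^ 80 ≤ n)
include hm hn1

lemma cubes_lower : (n : ℝ) ^ 3 * (1 - 4 / m) ≤
    (((n : ℝ) - (m : ℝ) ^ 79) ^ 3 - ((m : ℝ) ^ 79 + 1) ^ 3) := by
  have hm0 : (0 : ℝ) < m := by linarith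
  have hn0 : (0 : ℝ) < n := lt_of_lt_of_le (by positivity) hn1
  set q : ℝ := (m : ℝ) ^ 79 with hq
  have hq1 : 1 ≤ q := one_le_pwm hm 79
  have hqn : q ≤ n / m := by
    rw [le_div_iff₀ hm0]
    calc q * m = (m : ℝ) ^ 80 := by rw [hq]; ring
      _ ≤ n := hn1
  have hinv : 1 / (m : ℝ) ≤ 1 / 1000000 := one_div_le_one_div_of_le (by norm_num) hm
  set r : ℝ := 1 / (m : ℝ) with hr
  have hr0 : 0 < r := by positivity
  have e1 : (n : ℝ) / m = n * r := by rw [hr]; ring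
  have e2 : (4 : ℝ) / m = 4 * r := by rw [hr]; ring
  rw [e1] at hqn
  rw [e2]
  have h3 : (q + 1) ^ 3 ≤ (2 * (n * r)) ^ 3 := by
    apply pow_le_pow_left₀ (by positivity); linarith
  have h4 : (2 * ((n : ℝ) * r)) ^ 3 ≤ (n : ℝ) ^ 3 * r := by
    have : r ^ 2 ≤ 1 / 8 := by nlinarith
    calc (2 * ((n : ℝ) * r)) ^ 3 = (n : ℝ) ^ 3 * r * (8 * r ^ 2) := by ring
      _ ≤ (n : ℝ) ^ 3 * r * 1 := by gcongr; linarith
      _ = _ := by ring
  have h5 : (n : ℝ) ^ 3 * (1 - 3 * r) ≤ ((n : ℝ) - q) ^ 3 := by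
    have h6 : (n : ℝ) * (1 - r) ≤ n - q := by linarith
    have h7 : ((n : ℝ) * (1 - r)) ^ 3 ≤ (n - q) ^ 3 := by
      apply pow_le_pow_left₀ _ h6
      apply mul_nonneg hn0.le; linarith
    refine le_trans ?_ h7
    rw [mul_pow]
    apply mul_le_mul_of_nonneg_left _ (by positivity)
    nlinarith [mul_pos hr0 hr0]
  linarith

lemma Hm_arg_pos : 0 < (((n : ℝ) - (m : ℝ) ^ 79) ^ 3 - ((m : ℝ) ^ 79 + 1) ^ 3) / (3 * kT m) := by
  have h1 := cubes_lower hm hn1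
  have h2 := kT_lower hm
  have hm0 : (0 : ℝ) < m := by linarith
  have hn0 : (0 : ℝ) < n := lt_of_lt_of_le (by positivity) hn1
  have h3 : 0 < (n : ℝ) ^ 3 * (1 - 4 / m) := by
    apply mul_pos (by positivity)
    have : 4 / (m : ℝ) < 1 := by rw [div_lt_one hm0]; linarith
    linarith
  apply div_pos (by linarith) (by linarith)

lemma Hm_pos : 0 < Hm m n := Real.sqrt_pos.mpr (Hm_arg_pos hm hn1)

lemma Hm_sq : Hm m n ^ 2 = (((n : ℝ) - (m : ℝ) ^ 79) ^ 3 - ((m : ℝ) ^ 79 + 1) ^ 3) / (3 * kT m) :=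
  Real.sq_sqrt (Hm_arg_pos hm hn1).le

lemma Hm_sq_upper : Hm m n ^ 2 ≤ (n : ℝ) ^ 3 := by
  have h2 := kT_lower hm
  have hm0 : (0 : ℝ) < m := by linarith
  have hn0 : (0 : ℝ) < n := lt_of_lt_of_le (by positivity) hn1
  rw [Hm_sq hm hn1, div_le_iff₀ (by linarith)]
  have h3 : ((n : ℝ) - (m : ℝ) ^ 79) ^ 3 ≤ (n : ℝ) ^ 3 := by
    have h4 : (0 : ℝ) < (m : ℝ) ^ 79 := by positivity
    have h5 : (m : ℝ) ^ 79 ≤ (m : ℝ) ^ 80 := pwm hm (by norm_num)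
    apply pow_le_pow_left₀ (by linarith) (by linarith)
  have h4 : (0 : ℝ) < ((m : ℝ) ^ 79 + 1) ^ 3 := by positivity
  have h5 : (0 : ℝ) < (n : ℝ) ^ 3 := by positivity
  nlinarith

lemma Hm_upper (hn2 : (n : ℝ) ≤ 2 * (m : ℝ) ^ 80) : Hm m n ≤ 3 * (m : ℝ) ^ 120 := by
  have hm0 : (0 : ℝ) < m := by linarith
  have hn0 : (0 : ℝ) < n := lt_of_lt_of_le (by positivity) hn1
  have h1 := Hm_sq_upper hm hn1
  have h2 : (n : ℝ) ^ 3 ≤ (2 * (m : ℝ) ^ 80) ^ 3 := by gcongr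
  have h3 : Hm m n ^ 2 ≤ (3 * (m : ℝ) ^ 120) ^ 2 := by
    have e1 : (2 * (m : ℝ) ^ 80) ^ 3 = 8 * (m : ℝ) ^ 240 := by ring
    have e2 : (3 * (m : ℝ) ^ 120) ^ 2 = 9 * (m : ℝ) ^ 240 := by ring
    have : 0 < (m : ℝ) ^ 240 := by positivity
    linarith
  exact le_of_pow_le_pow_left₀ (by norm_num) (by positivity) h3

lemma Hm_sq_lower : (n : ℝ) ^ 3 / 3 * (1 - 133 / m) ≤ Hm m n ^ 2 := by
  have h2 := kT_lower hm
  have h2' := kT_upper hm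
  have hm0 : (0 : ℝ) < m := by linarith
  have hn0 : (0 : ℝ) < n := lt_of_lt_of_le (by positivity) hn1
  have h3 := cubes_lower hm hn1
  rw [Hm_sq hm hn1, le_div_iff₀ (by linarith)]
  refine le_trans ?_ h3
  have h4 : (1 - 133 / (m : ℝ)) * kT m ≤ 1 - 4 / m := by
    have h5 : 0 ≤ 1 - 133 / (m : ℝ) := by
      have : 133 / (m : ℝ) ≤ 1 := by rw [div_le_one hm0]; linarith
      linarith
    calc (1 - 133 / (m : ℝ)) * kT m ≤ (1 - 133 / (m : ℝ)) * (1 + 129 / m) := by gcongr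
      _ = 1 - 4 / m - 133 * 129 / (m : ℝ) ^ 2 := by field_simp; ring
      _ ≤ 1 - 4 / m := by
          have : 0 ≤ 133 * 129 / (m : ℝ) ^ 2 := by positivity
          linarith
  calc (n : ℝ) ^ 3 / 3 * (1 - 133 / m) * (3 * kT m) = (n : ℝ) ^ 3 * ((1 - 133 / m) * kT m) := by
        ring
    _ ≤ _ := by gcongr

lemma Hm_sq_quarter : (n : ℝ) ^ 3 / 4 ≤ Hm m n ^ 2 := by
  have hm0 : (0 : ℝ) < m := by linarith
  have hn0 : (0 : ℝ) < n := lt_of_lt_of_le (by positivity) hn1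
  refine le_trans ?_ (Hm_sq_lower hm hn1)
  have h3 : 133 / (m : ℝ) ≤ 1 / 4 := by rw [div_le_div_iff₀ hm0 (by norm_num)]; linarith
  have h4 : 0 < (n : ℝ) ^ 3 := by positivity
  nlinarith

lemma Hm_lower : (m : ℝ) ^ 120 / 2 ≤ Hm m n := by
  have hm0 : (0 : ℝ) < m := by linarith
  have h2 : ((m : ℝ) ^ 120 / 2) ^ 2 ≤ Hm m n ^ 2 := by
    refine le_trans ?_ (Hm_sq_quarter hm hn1)
    calc ((m : ℝ) ^ 120 / 2) ^ 2 = ((m : ℝ) ^ 80) ^ 3 / 4 := by ring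
      _ ≤ (n : ℝ) ^ 3 / 4 := by gcongr
  exact le_of_pow_le_pow_left₀ (by norm_num) (Hm_pos hm hn1).le h2

lemma setting (hn2 : (n : ℝ) ≤ 2 * (m : ℝ) ^ 80) : Setting (m : ℝ) n (Hm m n) :=
  ⟨hm, hn1, hn2, Hm_pos hm hn1, Hm_upper hm hn1 hn2, Hm_lower hm hn1⟩

lemma xm_end : xm (Hm m n) (1 / m) ((m : ℝ) ^ 79 + 1) m (1 - 1 / (m : ℝ) ^ 44) =
    (n : ℝ) - (m : ℝ) ^ 79 := by
  have hm0 : (0 : ℝ) < m := by linarith
  have h1 := d44_small hm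
  have h0 : 0 < 1 / (m : ℝ) ^ 44 := by positivity
  have h2 := xm_cube (H := Hm m n) (η := 1 / m) (x₀ := (m : ℝ) ^ 79 + 1) (N := m)
    (θ := 1 - 1 / (m : ℝ) ^ 44) (by positivity) (by positivity) (by linarith) (by linarith)
  have h3 := kT_lower hm
  have h4 : gg (Hm m n) (1 / m) ((m : ℝ) ^ 79 + 1) m (1 - 1 / (m : ℝ) ^ 44) =
      ((n : ℝ) - (m : ℝ) ^ 79) ^ 3 := by
    unfold gg
    have e1 : kap (1 / (m : ℝ)) m (1 - 1 / (m : ℝ) ^ 44) = kT m := rfl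
    rw [e1, Hm_sq hm hn1]
    have : kT m ≠ 0 := by linarith
    field_simp
    ring
  rw [h4] at h2
  have h5 : (m : ℝ) ^ 79 ≤ (m : ℝ) ^ 80 := pwm hm (by norm_num)
  exact (pow_left_inj₀ (xm_nonneg (by positivity) (by positivity) (by linarith) (by linarith))
    (by linarith) (by norm_num)).mp h2

lemma lip_const (hn2 : (n : ℝ) ≤ 2 * (m : ℝ) ^ 80) :
    130 * Hm m n ^ 2 / ((m : ℝ) ^ 79 + 1) ^ 2 ≤ 1170 * (m : ℝ) ^ 82 := by
  have h := (setting hm hn1 hn2).b2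
  calc 130 * Hm m n ^ 2 / ((m : ℝ) ^ 79 + 1) ^ 2 = 130 * (Hm m n ^ 2 / ((m : ℝ) ^ 79 + 1) ^ 2) := by ring
    _ ≤ 130 * (9 * (m : ℝ) ^ 82) := by gcongr
    _ = _ := by ring

lemma pars (hn2 : (n : ℝ) ≤ 2 * (m : ℝ) ^ 80) :
    Pars (Hm m n) (1 / m) ((m : ℝ) ^ 79 + 1) (n : ℝ) (1 / (m : ℝ) ^ 34)
    (1 / (m : ℝ) ^ 44) m := by
  have hm0 : (0 : ℝ) < m := by linarith
  have hn0 : (0 : ℝ) < n := lt_of_lt_of_le (by positivity) hn1
  have h1 := d44_small hm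
  have h2 := t34_small hm
  have h0 : 0 < 1 / (m : ℝ) ^ 44 := by positivity
  have h0' : 0 < 1 / (m : ℝ) ^ 34 := by positivity
  have hη1 : 1 / (m : ℝ) ≤ 1 := by rw [div_le_one hm0]; linarith
  refine ⟨Hm_pos hm hn1, by positivity, by positivity, hη1, h0', h0, ?_, hn0, ?_, ?_⟩
  · linarith
  · intro θ hθ
    have h3 := xm_mono (N := m) (η := 1 / (m : ℝ)) (x₀ := (m : ℝ) ^ 79 + 1) (Hm_pos hm hn1)
      (by positivity) (by positivity) hθ (t := 1)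
      ⟨zero_le_one, le_rfl⟩ hθ.2
    have h4 := xm_lip (N := m) (η := 1 / (m : ℝ)) (x₀ := (m : ℝ) ^ 79 + 1) (Hm_pos hm hn1)
      (by positivity) (by positivity) hη1 (s := 1) (t := 1 - 1 / (m : ℝ) ^ 44)
      ⟨zero_le_one, le_rfl⟩ ⟨by linarith, by linarith⟩
    have h5 := lip_const hm hn1 hn2
    rw [xm_end hm hn1] at h4
    have e1 : |(1 : ℝ) - (1 - 1 / (m : ℝ) ^ 44)| = 1 / (m : ℝ) ^ 44 := by
      rw [abs_of_nonneg (by linarith)]; ring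
    rw [e1] at h4
    have h6 := (le_abs_self _).trans h4
    have h7 : 130 * Hm m n ^ 2 / ((m : ℝ) ^ 79 + 1) ^ 2 * (1 / (m : ℝ) ^ 44) ≤ 1170 * (m : ℝ) ^ 38 := by
      calc _ ≤ 1170 * (m : ℝ) ^ 82 * (1 / (m : ℝ) ^ 44) := by gcongr
        _ = _ := by field_simp
    have h8 : 1170 * (m : ℝ) ^ 38 ≤ (m : ℝ) ^ 79 := by
      have h9 := pwm hm (i := 39) (j := 79) (by norm_num)
      have h10 := pstepm hm 38
      norm_num at h10
      have : 0 < (m : ℝ) ^ 38 := by positivity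
      linarith
    linarith
  · have e1 : (m : ℝ) * (1 / (m : ℝ) ^ 44 + 2 * (1 / (m : ℝ) ^ 34)) =
      1 / (m : ℝ) ^ 43 + 2 * (1 / (m : ℝ) ^ 33) := by field_simp
    rw [e1]
    have h3 : 1 / (m : ℝ) ^ 43 ≤ 1 / 1000000 := by
      apply one_div_le_one_div_of_le (by norm_num)
      have h1 := pwm hm (i := 1) (j := 43) (by norm_num)
      rw [pow_one] at h1
      linarith
    have h4 : 1 / (m : ℝ) ^ 33 ≤ 1 / 1000000 := by
      apply one_div_le_one_div_of_le (by norm_num)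
      have h1 := pwm hm (i := 1) (j := 33) (by norm_num)
      rw [pow_one] at h1
      linarith
    linarith

lemma conds (hn2 : (n : ℝ) ≤ 2 * (m : ℝ) ^ 80) :
    Conds (Hm m n) (1 / m) ((m : ℝ) ^ 79 + 1) (n : ℝ) (1 / (m : ℝ) ^ 34)
    (1 / (m : ℝ) ^ 44) m (m ^ 79) := by
  have hm0 : (0 : ℝ) < m := by linarith
  have hm0' : 0 < m := by exact_mod_cast hm0
  have h1 := d44_small hm
  have h2 := t34_small hm
  have h0 : 0 < 1 / (m : ℝ) ^ 44 := by positivity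
  have h0' : 0 < 1 / (m : ℝ) ^ 34 := by positivity
  have hη1 : 1 / (m : ℝ) ≤ 1 := by rw [div_le_one hm0]; linarith
  have S := setting hm hn1 hn2
  have b1 := S.b1
  have b3 := S.b3
  have b4 := S.b4
  have b6 := S.b6
  have P := pars hm hn1 hn2
  have hH := Hm_pos hm hn1
  have q0 : 1 ≤ (m : ℝ) ^ 70 := one_le_pwm hm 70
  have q1 : (m : ℝ) ^ 41 ≤ (m : ℝ) ^ 76 := pwm hm (by norm_num)
  have q2 : (m : ℝ) ^ 48 ≤ (m : ℝ) ^ 76 := pwm hm (by norm_num)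
  have q3 : 1000000 * (m : ℝ) ^ 70 ≤ (m : ℝ) ^ 71 := pstepm hm 70
  have q3' : 1000000 * (m : ℝ) ^ 71 ≤ (m : ℝ) ^ 72 := pstepm hm 71
  have q3'' : (m : ℝ) ^ 72 ≤ (m : ℝ) ^ 74 := pwm hm (by norm_num)
  have q4 : 1000000 * (m : ℝ) ^ 75 ≤ (m : ℝ) ^ 76 := pstepm hm 75
  have q4' : 1000000 * (m : ℝ) ^ 74 ≤ (m : ℝ) ^ 75 := pstepm hm 74
  have q5 : 1000000 * (m : ℝ) ^ 76 ≤ (m : ℝ) ^ 77 := pstepm hm 76
  have q6 : 1000000 * (m : ℝ) ^ 77 ≤ (m : ℝ) ^ 78 := pstepm hm 77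
  have q7 : 1000000 * (m : ℝ) ^ 78 ≤ (m : ℝ) ^ 79 := pstepm hm 78
  have q8 : 1000000 * (m : ℝ) ^ 79 ≤ (m : ℝ) ^ 80 := pstepm hm 79
  have hlip := lip_const hm hn1 hn2
  refine ⟨by positivity, ?_, ?_, ?_, ?_⟩
  · push_cast
    rw [mul_add]
    linarith
  · have h4 := xm_lip (N := m) (η := 1 / (m : ℝ)) (x₀ := (m : ℝ) ^ 79 + 1) (Hm_pos hm hn1)
      (by positivity) (by positivity) hη1 (s := 2 * (1 / (m : ℝ) ^ 34)) (t := 0)
      ⟨by linarith, by linarith⟩ ⟨le_rfl, zero_le_one⟩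
    have e0 : |2 * (1 / (m : ℝ) ^ 34)| = 2 * (1 / (m : ℝ) ^ 34) := abs_of_pos (by positivity)
    rw [xm_zero (by positivity) (by positivity), sub_zero, e0] at h4
    have h6 := (le_abs_self _).trans h4
    have h7 : 130 * Hm m n ^ 2 / ((m : ℝ) ^ 79 + 1) ^ 2 * (2 * (1 / (m : ℝ) ^ 34)) ≤
        2340 * (m : ℝ) ^ 48 := by
      calc _ ≤ 1170 * (m : ℝ) ^ 82 * (2 * (1 / (m : ℝ) ^ 34)) := by gcongr
        _ = _ := by field_simp; ring
    linarith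
  · have e1 : 2 / (Hm m n ^ 2 / (n : ℝ) ^ 2 * (1 / (m : ℝ) ^ 34)) =
        2 * (1 / (Hm m n ^ 2 / (n : ℝ) ^ 2 * (1 / (m : ℝ) ^ 34))) := by ring
    rw [mul_add, mul_add, e1]
    have e2 : ((m : ℝ) ^ 79 + 1) * (1 / (m : ℝ) / 4) = (m : ℝ) ^ 78 / 4 + 1 / (4 * m) := by
      field_simp
    have e3 : 0 < 1 / (4 * (m : ℝ)) := by positivity
    rw [e2]
    linarith
  · rw [xm_end hm hn1]
    have h4 := xm_lip (N := m) (η := 1 / (m : ℝ)) (x₀ := (m : ℝ) ^ 79 + 1) (Hm_pos hm hn1)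
      (by positivity) (by positivity) hη1 (s := 1 - 1 / (m : ℝ) ^ 44)
      (t := 1 - 1 / (m : ℝ) ^ 44 - 1 / (m : ℝ) ^ 34)
      ⟨by linarith, by linarith⟩ ⟨by linarith, by linarith⟩
    rw [xm_end hm hn1] at h4
    have e1 : |(1 - 1 / (m : ℝ) ^ 44) - (1 - 1 / (m : ℝ) ^ 44 - 1 / (m : ℝ) ^ 34)| = 1 / (m : ℝ) ^ 34 := by
      rw [abs_of_nonneg (by linarith)]; ring
    rw [e1] at h4
    have h6 := (le_abs_self _).trans h4
    have h7 : 130 * Hm m n ^ 2 / ((m : ℝ) ^ 79 + 1) ^ 2 * (1 / (m : ℝ) ^ 34) ≤ 1170 * (m : ℝ) ^ 48 := by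
      calc _ ≤ 1170 * (m : ℝ) ^ 82 * (1 / (m : ℝ) ^ 34) := by gcongr
        _ = _ := by field_simp
    linarith

/-- The construction with explicit parameters, for every degree. -/
theorem explicit (hn2 : (n : ℝ) ≤ 2 * (m : ℝ) ^ 80) (L : ℝ) (hL : 0 < L)
    (hLn : (4 * ((n : ℝ) + 1) ^ 2) ≤ Real.exp L) :
    ∃ a : ℕ → ℂ, (∀ k, ‖a k‖ = 1) ∧ ∀ θ : ℝ,
      |‖∑ k ∈ range (n + 1), (k : ℂ) * a k * e (k * θ)‖ - Hm m n| ≤
        1 / m * Hm m n + (2 * Real.sqrt L + 7) * Real.sqrt (49 * (n : ℝ) ^ 3 / m) := by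
  have hm0 : (0 : ℝ) < m := by linarith
  have hn0 : (0 : ℝ) < n := lt_of_lt_of_le (by positivity) hn1
  have hm0' : 0 < m := by exact_mod_cast hm0
  have h0 : 0 < 1 / (m : ℝ) ^ 44 := by positivity
  have hle : m ^ 79 ≤ m ^ 80 := Nat.pow_le_pow_right hm0' (by norm_num)
  have hn1' : m ^ 80 ≤ n := by exact_mod_cast hn1
  have hsq : Real.sqrt (4 * (m : ℝ) ^ 124) = 2 * (m : ℝ) ^ 62 := by
    have : 4 * (m : ℝ) ^ 124 = (2 * (m : ℝ) ^ 62) ^ 2 := by ring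
    rw [this, Real.sqrt_sq (by positivity)]
  have hη1 : 1 / (m : ℝ) ≤ 1 := by rw [div_le_one hm0]; linarith
  apply assemble (pars hm hn1 hn2) (conds hm hn1 hn2) (p := n - m ^ 79) (n := n) (by omega)
    (by push_cast; rfl) (by rw [xm_end hm hn1, Nat.cast_sub (by omega)]; push_cast; rfl)
    (4 * (m : ℝ) ^ 124) _ _ _ _ hη1 _ _ (by positivity) hL hLn
  · -- deficit
    have h1 := sum_sq_le n
    have h2 := Hm_sq_lower hm hn1
    have h3 : 0 ≤ 1 - 1 / (m : ℝ) := by linarith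
    have h4 : (Hm m n * (1 - 1 / (m : ℝ))) ^ 2 = Hm m n ^ 2 * (1 - 1 / (m : ℝ)) ^ 2 := by ring
    have h5 : (n : ℝ) ^ 3 / 3 * (1 - 133 / m) * (1 - 1 / (m : ℝ)) ^ 2 ≤
        Hm m n ^ 2 * (1 - 1 / (m : ℝ)) ^ 2 := by gcongr
    have h6 : (n : ℝ) ^ 3 / 3 * (1 - 135 / m) ≤
        (n : ℝ) ^ 3 / 3 * (1 - 133 / m) * (1 - 1 / (m : ℝ)) ^ 2 := by
      rw [mul_assoc]
      apply mul_le_mul_of_nonneg_left _ (by positivity)
      have hinv : 1 / (m : ℝ) ≤ 1 / 1000000 := one_div_le_one_div_of_le (by norm_num) hm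
      have e1 : 135 / (m : ℝ) = 135 * (1 / m) := by ring
      have e2 : 133 / (m : ℝ) = 133 * (1 / m) := by ring
      rw [e1, e2]
      set r := 1 / (m : ℝ)
      have hr : 0 < r := by positivity
      nlinarith [mul_pos hr hr, mul_pos (mul_pos hr hr) hr]
    have h7 : (n : ℝ) ^ 2 ≤ (n : ℝ) ^ 3 / m := by
      rw [le_div_iff₀ hm0]
      have h8 : (m : ℝ) ≤ n := by
        have := pwm hm (i := 1) (j := 80) (by norm_num)
        rw [pow_one] at this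
        linarith
      calc (n : ℝ) ^ 2 * m ≤ (n : ℝ) ^ 2 * n := by gcongr
        _ = (n : ℝ) ^ 3 := by ring
    have e3 : (n : ℝ) ^ 3 / 3 * (1 - 135 / m) = (n : ℝ) ^ 3 / 3 - 45 * ((n : ℝ) ^ 3 / m) := by ring
    have e4 : 49 * (n : ℝ) ^ 3 / m = 49 * ((n : ℝ) ^ 3 / m) := by ring
    have h9 : 0 < (n : ℝ) ^ 3 / m := by positivity
    rw [e4]
    linarith
  · have h1 := one_le_pwm hm 124
    linarith
  · rw [xm_end hm hn1]
    have h1 := lip_const hm hn1 hn2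
    have e1 : ((n : ℝ) - (m : ℝ) ^ 79 - ((m : ℝ) ^ 79 + 1)) / (1 / (m : ℝ) ^ 44) =
        (n : ℝ) * (m : ℝ) ^ 44 - 2 * (m : ℝ) ^ 123 - (m : ℝ) ^ 44 := by
      field_simp
      ring
    rw [e1]
    have h2 : (n : ℝ) * (m : ℝ) ^ 44 ≤ 2 * (m : ℝ) ^ 124 := by
      calc (n : ℝ) * (m : ℝ) ^ 44 ≤ 2 * (m : ℝ) ^ 80 * (m : ℝ) ^ 44 := by gcongr
        _ = _ := by ring
    have h3 := pstepm hm 82
    norm_num at h3
    have h4 : 0 < (m : ℝ) ^ 44 := by positivity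
    have h5 : 0 < (m : ℝ) ^ 82 := by positivity
    have h6 : 0 < (m : ℝ) ^ 123 := by positivity
    have h7 := pwm hm (i := 83) (j := 124) (by norm_num)
    linarith
  · rw [hsq]
    push_cast
    have e1 : 2 * Real.pi / (2 * (m : ℝ) ^ 62) + 5 * (2 * (m : ℝ) ^ 62) / (m : ℝ) ^ 79 =
        (Real.pi / (m : ℝ) ^ 61 + 10 / (m : ℝ) ^ 16) * (1 / m) := by
      field_simp
      ring
    rw [e1]
    have h1 : Real.pi / (m : ℝ) ^ 61 ≤ 1 / 2 := by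
      rw [div_le_div_iff₀ (by positivity) (by norm_num)]
      have h2 := pwm hm (i := 1) (j := 61) (by norm_num)
      rw [pow_one] at h2
      have := Real.pi_lt_d2
      linarith
    have h3 : 10 / (m : ℝ) ^ 16 ≤ 1 / 2 := by
      rw [div_le_div_iff₀ (by positivity) (by norm_num)]
      have h2 := pwm hm (i := 1) (j := 16) (by norm_num)
      rw [pow_one] at h2
      linarith
    have h4 : 0 < 1 / (m : ℝ) := by positivity
    nlinarith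

end

lemma pow_ratio (t : ℕ) (ht : 500 ≤ t) : ((t : ℝ) + 1) ^ 320 ≤ 2 * (t : ℝ) ^ 320 := by
  have ht0 : (500 : ℝ) ≤ t := by exact_mod_cast ht
  have h1 : (t : ℝ) + 1 = t * (1 + 1 / t) := by field_simp
  have h2 : 1 + 1 / (t : ℝ) ≤ Real.exp (1 / t) := by
    have := Real.add_one_le_exp (1 / (t : ℝ)); linarith
  have h3 : (1 + 1 / (t : ℝ)) ^ 320 ≤ 2 := by
    calc (1 + 1 / (t : ℝ)) ^ 320 ≤ (Real.exp (1 / t)) ^ 320 := by gcongr
      _ = Real.exp (320 * (1 / t)) := by rw [← Real.exp_nat_mul]; norm_num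
      _ ≤ Real.exp (Real.log 2) := by
          apply Real.exp_le_exp.mpr
          have h4 : 320 * (1 / (t : ℝ)) ≤ 0.64 := by
            rw [mul_one_div, div_le_iff₀ (by linarith)]; linarith
          have := Real.log_two_gt_d9
          linarith
      _ = 2 := Real.exp_log (by norm_num)
  rw [h1, mul_pow, mul_comm]
  exact mul_le_mul_of_nonneg_right h3 (by positivity)

lemma exp_large : ∃ T : ℕ, ∀ t : ℕ, T ≤ t → 36 * (t : ℝ) ^ 640 ≤ Real.exp ((t : ℝ) ^ 2) := by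
  have h1 : ∀ᶠ x : ℝ in atTop, x ^ 640 * Real.exp (-x) < 1 / 36 :=
    (Real.tendsto_pow_mul_exp_neg_atTop_nhds_zero 640).eventually (gt_mem_nhds (by norm_num))
  have h2 : ∀ᶠ t : ℕ in atTop, ((t : ℝ)) ^ 640 * Real.exp (-(t : ℝ)) < 1 / 36 :=
    tendsto_natCast_atTop_atTop.eventually h1
  obtain ⟨T, hT⟩ := eventually_atTop.mp h2
  refine ⟨max T 1, fun t ht => ?_⟩
  have ht1 := hT t (le_trans (le_max_left _ _) ht)
  have ht2 : (1 : ℝ) ≤ t := by exact_mod_cast le_trans (le_max_right _ _) ht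
  have h8 : Real.exp (-(t : ℝ)) * Real.exp t = 1 := by rw [← Real.exp_add]; simp
  have h9 : (t : ℝ) ^ 640 < 1 / 36 * Real.exp t := by
    calc (t : ℝ) ^ 640 = (t : ℝ) ^ 640 * Real.exp (-(t : ℝ)) * Real.exp t := by
          rw [mul_assoc, h8, mul_one]
      _ < 1 / 36 * Real.exp t := by gcongr
  have h10 : Real.exp (t : ℝ) ≤ Real.exp ((t : ℝ) ^ 2) := by
    apply Real.exp_le_exp.mpr
    nlinarith
  linarith

/-- every large `n` is close to a 320th power -/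
lemma exists_root (T n : ℕ) (hT : 500 ≤ T) (hn : T ^ 320 ≤ n) :
    ∃ t : ℕ, T ≤ t ∧ t ^ 320 ≤ n ∧ (n : ℝ) ≤ 2 * (t : ℝ) ^ 320 := by
  classical
  have hTn : T ≤ n := le_trans (by calc T = T ^ 1 := (pow_one T).symm
                                      _ ≤ T ^ 320 := Nat.pow_le_pow_right (by omega) (by norm_num)) hn
  set t := Nat.findGreatest (fun s => s ^ 320 ≤ n) n with ht
  have h1 : T ≤ t := Nat.le_findGreatest hTn hn
  have h2 : t ^ 320 ≤ n := Nat.findGreatest_spec (P := fun s => s ^ 320 ≤ n) hTn hn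
  have h3 : n < (t + 1) ^ 320 := by
    by_contra hcon
    push Not at hcon
    have h4 : t + 1 ≤ n := le_trans (by calc t + 1 = (t + 1) ^ 1 := (pow_one _).symm
                                      _ ≤ (t + 1) ^ 320 := Nat.pow_le_pow_right (by omega) (by norm_num)) hcon
    have h5 : t + 1 ≤ t := Nat.le_findGreatest h4 hcon
    omega
  refine ⟨t, h1, h2, ?_⟩
  have h4 : (n : ℝ) ≤ ((t : ℝ) + 1) ^ 320 := by exact_mod_cast h3.le
  exact h4.trans (pow_ratio t (by omega))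

/-- The main theorem for all large degrees. -/
theorem core (ε : ℝ) (hε : 0 < ε) : ∃ N : ℕ, ∀ n : ℕ, N ≤ n → ∃ a : ℕ → ℂ, (∀ k, ‖a k‖ = 1) ∧
    ∀ z w : ℂ, ‖z‖ = 1 → ‖w‖ = 1 →
      0 < ‖∑ k ∈ Finset.range (n + 1), (k : ℂ) * a k * w ^ (k - 1)‖ ∧
      ‖∑ k ∈ Finset.range (n + 1), (k : ℂ) * a k * z ^ (k - 1)‖ ≤
        (1 + ε) * ‖∑ k ∈ Finset.range (n + 1), (k : ℂ) * a k * w ^ (k - 1)‖ := by
  obtain ⟨T₀, hT₀⟩ := exp_large
  obtain ⟨T₁, hT₁⟩ := exists_nat_ge (381 / ε)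
  refine ⟨(T₀ + T₁ + 500) ^ 320, fun n hn => ?_⟩
  obtain ⟨t, htT, htn, hnt⟩ := exists_root (T₀ + T₁ + 500) n (by omega) hn
  clear hn
  have ht500 : (500 : ℝ) ≤ t := by
    have : 500 ≤ t := by omega
    exact_mod_cast this
  have ht0 : (0 : ℝ) < t := by linarith
  have htε : 381 ≤ ε * t := by
    have h1 : (T₁ : ℝ) ≤ t := by
      have : T₁ ≤ t := by omega
      exact_mod_cast this
    have h2 : 381 / ε ≤ t := hT₁.trans h1
    rw [div_le_iff₀ hε] at h2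
    linarith
  have hm : (1000000 : ℝ) ≤ ((t ^ 4 : ℕ) : ℝ) := by
    push_cast
    calc (1000000 : ℝ) ≤ 500 ^ 4 := by norm_num
      _ ≤ (t : ℝ) ^ 4 := by gcongr
  have hn1 : ((t ^ 4 : ℕ) : ℝ) ^ 80 ≤ (n : ℝ) := by
    have h1 : ((t ^ 320 : ℕ) : ℝ) ≤ n := by exact_mod_cast htn
    calc ((t ^ 4 : ℕ) : ℝ) ^ 80 = ((t ^ 320 : ℕ) : ℝ) := by push_cast; ring
      _ ≤ n := h1
  have hn2 : (n : ℝ) ≤ 2 * ((t ^ 4 : ℕ) : ℝ) ^ 80 := by
    calc (n : ℝ) ≤ 2 * (t : ℝ) ^ 320 := hnt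
      _ = 2 * ((t ^ 4 : ℕ) : ℝ) ^ 80 := by push_cast; ring
  have htexp : 4 * ((n : ℝ) + 1) ^ 2 ≤ Real.exp ((t : ℝ) ^ 2) := by
    have h1 := hT₀ t (by omega)
    refine le_trans ?_ h1
    have h5 : (1 : ℝ) ≤ (t : ℝ) ^ 320 := one_le_pow₀ (by linarith)
    have h6 : (n : ℝ) + 1 ≤ 3 * (t : ℝ) ^ 320 := by linarith
    have e2 : (t : ℝ) ^ 640 = ((t : ℝ) ^ 320) ^ 2 := by rw [← pow_mul]
    rw [e2]
    calc 4 * ((n : ℝ) + 1) ^ 2 ≤ 4 * (3 * (t : ℝ) ^ 320) ^ 2 := by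
          apply mul_le_mul_of_nonneg_left _ (by norm_num)
          exact pow_le_pow_left₀ (by positivity) h6 2
      _ = 36 * ((t : ℝ) ^ 320) ^ 2 := by rw [mul_pow]; norm_num; ring
  obtain ⟨a, ha1, ha2⟩ := explicit hm hn1 hn2 ((t : ℝ) ^ 2) (by positivity) htexp
  set H := Hm (t ^ 4) n with hH
  have hHpos : 0 < H := Hm_pos hm hn1
  have hn0 : (0 : ℝ) < n := lt_of_lt_of_le (by positivity) hn1
  have hq := Hm_sq_quarter hm hn1
  rw [← hH] at hq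
  have e1 : Real.sqrt ((t : ℝ) ^ 2) = t := Real.sqrt_sq ht0.le
  have e2 : Real.sqrt (49 * (n : ℝ) ^ 3 / ((t ^ 4 : ℕ) : ℝ)) ≤ 14 * H / t ^ 2 := by
    apply Real.sqrt_le_iff.mpr
    refine ⟨by positivity, ?_⟩
    have e3 : (14 * H / (t : ℝ) ^ 2) ^ 2 = 196 * H ^ 2 / ((t ^ 4 : ℕ) : ℝ) := by
      push_cast; ring
    rw [e3]
    apply div_le_div_of_nonneg_right _ (by positivity)
    linarith
  rw [e1] at ha2
  have hρ : 1 / ((t ^ 4 : ℕ) : ℝ) * H + (2 * t + 7) * Real.sqrt (49 * (n : ℝ) ^ 3 / ((t ^ 4 : ℕ) : ℝ)) ≤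
      127 / t * H := by
    have ht1' : (1 : ℝ) ≤ t := by linarith
    have h2 : (2 * (t : ℝ) + 7) * Real.sqrt (49 * (n : ℝ) ^ 3 / ((t ^ 4 : ℕ) : ℝ)) ≤ 126 / t * H := by
      calc (2 * (t : ℝ) + 7) * Real.sqrt (49 * (n : ℝ) ^ 3 / ((t ^ 4 : ℕ) : ℝ)) ≤
            (2 * (t : ℝ) + 7 * t) * (14 * H / t ^ 2) := by
            gcongr; linarith
        _ = 126 / t * H := by field_simp; ring
    have h3 : 1 / ((t ^ 4 : ℕ) : ℝ) * H ≤ 1 / t * H := by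
      apply mul_le_mul_of_nonneg_right _ hHpos.le
      apply one_div_le_one_div_of_le ht0
      push_cast
      calc (t : ℝ) = t ^ 1 := by ring
        _ ≤ (t : ℝ) ^ 4 := pow_le_pow_right₀ ht1' (by norm_num)
    have h4 : 127 / (t : ℝ) * H = 1 / t * H + 126 / t * H := by ring
    linarith
  -- norms on the circle
  have hcirc : ∀ z : ℂ, ‖z‖ = 1 → |‖∑ k ∈ Finset.range (n + 1), (k : ℂ) * a k * z ^ (k - 1)‖ - H| ≤
      127 / t * H := by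
    intro z hz
    set θ : ℝ := z.arg / (2 * Real.pi) with hθ
    have hez : Helper523.UF.e θ = z := by
      unfold Helper523.UF.e
      have h1 : 2 * Real.pi * θ = z.arg := by
        rw [hθ]; field_simp
      rw [h1]
      have h2 := Complex.norm_mul_exp_arg_mul_I z
      rw [hz, Complex.ofReal_one, one_mul] at h2
      exact h2
    have h3 : ‖∑ k ∈ Finset.range (n + 1), (k : ℂ) * a k * z ^ (k - 1)‖ =
        ‖∑ k ∈ Finset.range (n + 1), (k : ℂ) * a k * Helper523.UF.e (k * θ)‖ := by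
      have h4 : ∑ k ∈ Finset.range (n + 1), (k : ℂ) * a k * Helper523.UF.e (k * θ) =
          z * ∑ k ∈ Finset.range (n + 1), (k : ℂ) * a k * z ^ (k - 1) := by
        rw [Finset.mul_sum]
        apply Finset.sum_congr rfl
        intro k _
        rw [Helper523.UF.e_nat_mul, hez]
        rcases k with _ | k
        · simp
        · rw [Nat.add_sub_cancel, pow_succ]; ring
      rw [h4, norm_mul, hz, one_mul]
    rw [h3]
    exact (ha2 θ).trans hρ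
  refine ⟨a, ha1, ?_⟩
  intro z w hz hw
  have h1 := (abs_le.mp (hcirc z hz)).2
  have h2 := (abs_le.mp (hcirc w hw)).1
  set A := ‖∑ k ∈ Finset.range (n + 1), (k : ℂ) * a k * z ^ (k - 1)‖
  set B := ‖∑ k ∈ Finset.range (n + 1), (k : ℂ) * a k * w ^ (k - 1)‖
  set ρ : ℝ := 127 / t with hρdef
  have hρ1 : ρ ≤ 1 / 3 := by
    rw [hρdef, div_le_div_iff₀ ht0 (by norm_num)]; linarith
  have hρ2 : ρ ≤ ε / 3 := by
    rw [hρdef, div_le_div_iff₀ ht0 (by norm_num)]; linarith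
  have hρ0 : 0 < ρ := by positivity
  have h3 : (1 + ρ) ≤ (1 + ε) * (1 - ρ) := by
    nlinarith
  constructor
  · nlinarith
  · calc A ≤ (1 + ρ) * H := by linarith
      _ ≤ ((1 + ε) * (1 - ρ)) * H := by gcongr
      _ = (1 + ε) * ((1 - ρ) * H) := by ring
      _ ≤ (1 + ε) * B := by
          apply mul_le_mul_of_nonneg_left _ (by linarith)
          linarith

end Pool.Agent.Helper523.UFA
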